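import Pool.Agent.P.MP_009630_co.NonEx

set_option autoImplicit false

namespace Pool.Agent.P.MP_009630_co

theorem arith_odd {n c l : ℤ} (hc : c * c + 1 = l * n) (ce : c % 2 = 0) :
    l % 2 = 1 ∧ n % 2 = 1 := by
  have h1 : Odd (l * n) := by
    rw [← hc]
    exact (Even.mul_right (Int.even_iff.2 ce) c).add_one
  rw [Int.odd_mul] at h1
  exact ⟨Int.odd_iff.1 h1.1, Int.odd_iff.1 h1.2⟩

/-- The basic facts on `k = c - l m`, where `n = m c + d`. -/
theorem arith_k {c l m d k : ℤ} (c0 : 0 < c) (l3 : 3 ≤ l) (d0 : 0 < d) (dc : d < c)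
    (hk : c = l * m + k) (hck : c * k + 1 = l * d) :
    2 ≤ k ∧ k + 2 ≤ l ∧ 2 * k ≠ l - 1 + 2 ∨ (2 ≤ k ∧ k + 2 ≤ l ∧ l = 5 ∧ k = 3) := by
  have k0 : 0 < k := by
    by_contra h
    push Not at h
    nlinarith
  have kl : k < l := by
    by_contra h
    push Not at h
    nlinarith
  have hsq : k * k + 1 = l * (d - m * k) := by
    have : c * k = (l * m + k) * k := by rw [← hk]
    linear_combination hck - this
  have h1 : k ≠ 1 := by
    rintro rfl
    have h2 : l ∣ 2 := ⟨d - m * 1, by linarith⟩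
    have := Int.le_of_dvd (by norm_num) h2
    omega
  have h2 : k ≠ l - 1 := by
    intro h
    have h2 : l ∣ 2 := ⟨d - m * k - (l - 2), by rw [mul_sub, ← hsq, h]; ring⟩
    have := Int.le_of_dvd (by norm_num) h2
    omega
  by_cases h3 : 2 * k = l - 1 + 2
  · right
    have h4 : l ∣ 5 := ⟨4 * (d - m * k) - (l + 2), by
      have h5 : (2 * k) * (2 * k) = (l + 1) * (l + 1) := by rw [h3]; ring
      linear_combination 4 * hsq - h5⟩
    have h5 := Int.le_of_dvd (by norm_num) h4
    have h6 : l = 5 := by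
      have : l = 3 ∨ l = 4 ∨ l = 5 := by omega
      rcases this with rfl | rfl | rfl
      · exact absurd h4 (by decide)
      · exact absurd h4 (by decide)
      · rfl
    omega
  · left
    omega

theorem params_even {n c l : ℤ} (hc : c * c + 1 = l * n) (c0 : 0 < c) (ce : c % 2 = 0)
    (l2 : 2 ≤ l) (h3 : 3 * c < n) :
    (3 ≤ l ∧ Odd l) ∧
      ((∃ p tp m : ℤ, (l = 5 → (5:ℤ) ∣ c - 2) ∧ n = m * c + 2 * tp + 1 ∧ c = 2 * p + m ∧
          m % 2 = 0 ∧ 4 ≤ m ∧ m ≤ tp ∧ tp + m + 1 ≤ p ∧ (2 * tp < p ∨ p + m + 1 ≤ 2 * tp)) ∨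
        (∃ h U m : ℤ, (l = 5 → (5:ℤ) ∣ c - 3) ∧ n = m * c + (2 * h - m - 2 * U) ∧ c = 2 * h ∧
          m % 2 = 1 ∧ 3 ≤ m ∧ m + 1 ≤ 2 * U ∧ 3 * m + 2 ≤ 2 * h - m - 2 * U)) := by
  obtain ⟨lo, no⟩ := arith_odd hc ce
  have l3 : 3 ≤ l := by omega
  refine ⟨⟨l3, Int.odd_iff.2 lo⟩, ?_⟩
  obtain ⟨m, d, hn, d0, dc⟩ : ∃ m d : ℤ, n = m * c + d ∧ 0 ≤ d ∧ d < c :=
    ⟨n / c, n % c, by rw [mul_comm]; exact (Int.mul_ediv_add_emod n c).symm,
      Int.emod_nonneg _ c0.ne', Int.emod_lt_of_pos _ c0⟩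
  have m3 : 3 ≤ m := by
    by_contra h
    push Not at h
    nlinarith
  have hmc : (m * c) % 2 = 0 := Int.even_iff.1 (Even.mul_left (Int.even_iff.2 ce) m)
  have dodd : d % 2 = 1 := by omega
  have d1 : 0 < d := by omega
  obtain ⟨k, hk⟩ : ∃ k, c = l * m + k := ⟨c - l * m, by ring⟩
  have hck : c * k + 1 = l * d := by
    have h1 : c * c = c * (l * m + k) := by rw [← hk]
    rw [hn] at hc
    linear_combination hc - h1
  have hK := arith_k c0 l3 d1 dc hk hck
  have k2 : 2 ≤ k := by omega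
  have kl : k + 2 ≤ l := by omega
  have l0 : 0 < l := by omega
  have hlm : l * m < c := by omega
  have hlm0 : 0 < l * m := by positivity
  rcases Int.emod_two_eq_zero_or_one m with me | mo
  · left
    have hlme : (l * m) % 2 = 0 := Int.even_iff.1 (Even.mul_left (Int.even_iff.2 me) l)
    have ke : k % 2 = 0 := by omega
    have a1 : 2 * m < d := by
      have : l * (2 * m) < l * d := by nlinarith
      exact lt_of_mul_lt_mul_left this l0.le
    have a2 : 3 * m < c - d := by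
      have h4 : 3 ≤ l - k := by omega
      have : l * (3 * m) < l * (c - d) := by nlinarith
      exact lt_of_mul_lt_mul_left this l0.le
    have a3 : 2 * d ≤ c - m ∨ c + 3 * m ≤ 2 * d := by
      by_cases h : 2 * k ≤ l - 1
      · left
        have : l * (2 * d) ≤ l * (c - m) := by nlinarith
        exact le_of_mul_le_mul_left this l0
      · right
        have h4 : l + 3 ≤ 2 * k := by omega
        have : l * (c + 3 * m) ≤ l * (2 * d) := by nlinarith
        exact le_of_mul_le_mul_left this l0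
    refine ⟨(c - m) / 2, d / 2, m, ?_, by omega, by omega, me, by omega, by omega, by omega,
      by omega⟩
    rintro rfl
    exact ⟨m, by omega⟩
  · right
    have hlmo : (l * m) % 2 = 1 :=
      Int.odd_iff.1 ((Int.odd_iff.2 lo).mul (Int.odd_iff.2 mo))
    have ko : k % 2 = 1 := by omega
    have a1 : 3 * m < d := by
      have h4 : 3 ≤ k := by omega
      have : l * (3 * m) < l * d := by nlinarith
      exact lt_of_mul_lt_mul_left this l0.le
    have a2 : 2 * m < c - d := by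
      have : l * (2 * m) < l * (c - d) := by nlinarith
      exact lt_of_mul_lt_mul_left this l0.le
    refine ⟨c / 2, (c - m - d) / 2, m, ?_, by omega, by omega, mo, m3, by omega, by omega⟩
    rintro rfl
    exact ⟨m, by omega⟩

theorem final_of
    (Ia : ∀ (n : ℕ) (h l : ℤ), (2*h+1)*(2*h+1)+1 = l*n → (n:ℤ) % 2 = 1 → 2 ≤ h →
      2*(2*h+1) ≤ n → Sol n (2*h+1) (-1) l)
    (Ib : ∀ (n : ℕ) (h l : ℤ), (2*h+1)*(2*h+1)+1 = l*n → (n:ℤ) % 2 = 1 → 2 ≤ h → 3*h+2 ≤ n →
      (n:ℤ) ≤ 2*(2*h+1) → Sol n (2*h+1) (-1) l)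
    (Ev : ∀ (n : ℕ) (c l : ℤ), c*c+1 = l*n → 0 < c → c % 2 = 0 → 2 ≤ l → 3*c < n →
      Sol n c (-1) l)
    (n : ℕ) (c l : ℤ) (hn : 1 < n) (hc : c * c + 1 = l * n) (l2 : 2 ≤ l) (hl : l ≤ c + 1) :
    Sol n c (-1) l ↔ Odd n ∧ (n:ℤ) - 2 * c + l ≠ 1 := by
  have hn' : (1 : ℤ) < n := by exact_mod_cast hn
  have hc' : ((n : ℤ) - c) * (n - c) + 1 = (n - 2 * c + l) * n := by linear_combination hc
  constructor
  · intro h
    refine ⟨?_, fun h1 => ?_⟩
    · by_contra h1
      exact not_sol_even (by omega) (Nat.not_odd_iff_even.1 h1) hc h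
    · have h2 := sol_compl h
      rw [h1] at h2 hc'
      exact not_sol_one hn (by linarith) h2
  · rintro ⟨ho, h1⟩
    have no : (n : ℤ) % 2 = 1 := by
      have := Nat.odd_iff.1 ho
      omega
    have hdiv : ∀ x y : ℤ, 1 < x → x * y ≠ 1 := by
      intro x y hx hxy
      have := Int.le_of_dvd one_pos ⟨y, hxy.symm⟩
      omega
    -- the symmetric statement, applied to `(c, l)` or to the complement
    have key : ∀ c l l' : ℤ, c * c + 1 = l * n → 2 ≤ l → 2 ≤ l' → l' = n - 2 * c + l → 0 < c →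
        (c % 2 = 1 ∧ 3 * c < 2 * n ∨ c % 2 = 0 ∧ 3 * c < n) → Sol n c (-1) l := by
      intro c l l' hc l2 l2' hl' c0 hcase
      rcases hcase with ⟨co, h3⟩ | ⟨ce, h3⟩
      · obtain ⟨h, rfl⟩ : ∃ h, c = 2 * h + 1 := ⟨c / 2, by omega⟩
        have h2 : 2 ≤ h := by
          by_contra hh
          have : h = 0 ∨ h = 1 := by omega
          rcases this with rfl | rfl
          · nlinarith
          · have h5 : (n : ℤ) ≤ 5 := by nlinarith
            have h6 : (n : ℤ) = 5 := by omega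
            rw [h6] at hc hl'
            omega
        by_cases h4 : 2 * (2 * h + 1) ≤ (n : ℤ)
        · exact Ia n h l hc no h2 h4
        · exact Ib n h l hc no h2 (by omega) (by omega)
      · exact Ev n c l hc c0 ce l2 h3
    have c0 : 0 < c := by omega
    have cn : c < n := by
      by_contra h
      push Not at h
      rcases h.eq_or_lt with h | h
      · exact hdiv n (l - n) hn' (by rw [← h] at hc; linear_combination -hc)
      · nlinarith
    have l0 : 0 < (n : ℤ) - 2 * c + l := by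
      by_contra h
      push Not at h
      nlinarith [mul_self_nonneg ((n : ℤ) - c)]
    have l2' : 2 ≤ (n : ℤ) - 2 * c + l := by omega
    by_cases hcase : c % 2 = 1 ∧ 3 * c < 2 * n ∨ c % 2 = 0 ∧ 3 * c < n
    · exact key c l _ hc l2 l2' rfl c0 hcase
    · have h3 : 3 * ((n : ℤ) - c) ≠ n := by
        intro h3
        have h4 : (1 : ℤ) < n - c := by
          by_contra h5
          have h6 : (n : ℤ) - c = 1 := by linarith [not_lt.1 h5]
          rw [h6] at h3 hc'
          rw [← h3] at hc'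
          omega
        refine hdiv (n - c) (3 * (n - 2 * c + l) - (n - c)) h4 ?_
        linear_combination -hc' + (n - 2 * c + l) * h3
      have h4 : ((n : ℤ) - c) % 2 = 1 ∧ 3 * ((n : ℤ) - c) < 2 * n ∨
          ((n : ℤ) - c) % 2 = 0 ∧ 3 * ((n : ℤ) - c) < n := by omega
      have h2 := sol_compl (key (n - c) (n - 2 * c + l) l hc' l2' l2 (by ring) (by omega) h4)
      have e1 : (n : ℤ) - (n - c) = c := by ring
      have e2 : (n : ℤ) - 2 * (n - c) + (n - 2 * c + l) = l := by ring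
      rwa [e1, e2] at h2

end Pool.Agent.P.MP_009630_co
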