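import Pool.Agent.P.MP_009630_co.Model

set_option autoImplicit false

namespace Pool.Agent.P.MP_009630_co

/-- The position of the exchanges relative to the rows near the origin. -/
def Blk.Sh (K : Blk) (n c p e : ℤ) : Prop :=
  ∀ j ∈ K.B, (p + c ≤ K.a j ∧ K.a j < n - c ∧ p + c ≤ K.b j ∧ K.b j < n - c) ∨
    (K.x j + 1 = K.b j ∧ p < K.b j ∧ K.b j < K.a j ∧ K.a j < c ∧ K.e j = K.b j + c ∧
      2 * c + p ≤ n) ∨
    (e = 1 ∧ c ≤ K.a j ∧ K.a j < n - c ∧ c ≤ K.e j ∧ K.e j < n - c ∧ c ≤ K.b j ∧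
      K.x j = K.b j + 1 ∧ K.x j < n - e - p)

theorem pt_n (n : ℕ) : pt n n = pt n 0 := ptc 1 (by ring)

theorem row_pn {n : ℕ} {c p e t : ℤ} {K : Blk} (hS : K.Sh n c p e) (e0 : 0 ≤ e) (e1 : e ≤ 1)
    (p0 : 0 ≤ p) (hp : c + p ≤ n) (t0 : 0 ≤ t) (t1 : t < c)
    (ht : (t ≤ p ∧ t ≤ c - e - p) ∨ (p ≤ t ∧ c - e - p ≤ t)) {v : V n}
    (hv : v = pt n p + pt n (n - e - p) - pt n (n - e - t) - pt n (t - c + n)) :
    Row n c K v := by
  rcases ht with ht | ht
  · refine ⟨[(0, p), (t - c + n, n - e - p), (n - e - t, n)], ?_, ?_, ?_, fun j hj => ?_⟩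
    · simp only [Srt]; omega
    · simp only [len]; omega
    · simp only [chb, hv, pt_n]
      abel
    · have g := hS j hj
      simp only [CC, mem, or_false]
      omega
  · refine ⟨[(0, p), (n - e - t, n - e - p), (t - c + n, n)], ?_, ?_, ?_, fun j hj => ?_⟩
    · simp only [Srt]; omega
    · simp only [len]; omega
    · simp only [chb, hv, pt_n]
      abel
    · have g := hS j hj
      simp only [CC, mem, or_false]
      omega

theorem row_np {n : ℕ} {c p e t : ℤ} {K : Blk} (hS : K.Sh n c p e) (e0 : 0 ≤ e) (e1 : e ≤ 1)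
    (p0 : 0 ≤ p) (hp : c + p ≤ n) (t0 : 0 ≤ t) (t1 : t < c)
    (ht : (t ≤ p ∧ t ≤ c - e - p) ∨ (p ≤ t ∧ c - e - p ≤ t)) {v : V n}
    (hv : v = pt n t - (pt n p + pt n (n - e - p) - pt n (c - e - t))) :
    Row n c K v := by
  rcases ht with ht | ht
  · refine ⟨[(0, t), (p, c - e - t), (n - e - p, n)], ?_, ?_, ?_, fun j hj => ?_⟩
    · simp only [Srt]; omega
    · simp only [len]; omega
    · simp only [chb, hv, pt_n]
      abel
    · have g := hS j hj
      simp only [CC, mem, or_false]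
      omega
  · refine ⟨[(0, c - e - t), (p, t), (n - e - p, n)], ?_, ?_, ?_, fun j hj => ?_⟩
    · simp only [Srt]; omega
    · simp only [len]; omega
    · simp only [chb, hv, pt_n]
      abel
    · have g := hS j hj
      simp only [CC, mem, or_false]
      omega

namespace Mdl

variable {n : ℕ} {M : Mdl n}

theorem Rt.inj {z z' t : ℤ} (h : M.Rt z t) (g : M.Rt z' t) (h0 : 0 ≤ z) (h1 : z < n)
    (h2 : 0 ≤ z') (h3 : z' < n) : z = z' := by
  obtain ⟨q, e⟩ := h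
  obtain ⟨q', e'⟩ := g
  exact (uniq (n := n) (q := M.c * q + M.lam * z') (q' := M.c * q' + M.lam * z)
    (by linear_combination M.c * e' - M.c * e + (z - z') * M.hc) h0 h1 h2 h3).2

/-- `z` is not in a fixed class. -/
def NZ (M : Mdl n) (z : ℤ) : Prop := ∀ t : ℤ, 0 ≤ t → t < n → ¬ M.Zer z t

theorem Pos.nz {z t : ℤ} (h : M.Pos z t) (h0 : 0 ≤ t) (h1 : t < n) : M.NZ z :=
  fun _ a b g => h.not_zer g h0 h1 a b

theorem Neg.nz {z t : ℤ} (h : M.Neg z t) (h0 : 0 ≤ t) (h1 : t < n) : M.NZ z :=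
  fun _ a b g => h.not_zer g h0 h1 a b

theorem NZ.tri [NeZero n] {z : ℤ} (h : M.NZ z) :
    ∃ t : ℤ, 0 ≤ t ∧ t < n ∧ (M.Pos z t ∨ M.Neg z t) := by
  obtain ⟨t, t0, t1, g | g | g⟩ := Mdl.tri (M := M) (Nat.pos_of_ne_zero (NeZero.ne n)) z
  · exact ⟨t, t0, t1, Or.inl g⟩
  · exact ⟨t, t0, t1, Or.inr g⟩
  · exact (h t t0 t1 g).elim

/-- The values of `J` outside three special points. -/
def Gen (M : Mdl n) (J : V n →ₗ[ℤ] V n) (C : V n) (a b d : ℤ) (G : ℤ → V n) : Prop :=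
  ∀ z t : ℤ, 0 ≤ z → z < n → 0 ≤ t → t < n → z ≠ a → z ≠ b → z ≠ d →
    (M.Pos z t → J (pt n z) = pt n t) ∧ (M.Neg z t → J (pt n z) = C - pt n (n - M.e - t)) ∧
    (M.Zer z t → J (pt n z) = G z)

variable {J : V n →ₗ[ℤ] V n} {C : V n} {a b d : ℤ} {G : ℤ → V n}

theorem Gen.pos (hJ : M.Gen J C a b d G) {z t : ℤ} (h : M.Pos z t)
    (r : 0 ≤ z ∧ z < n ∧ 0 ≤ t ∧ t < n ∧ z ≠ a ∧ z ≠ b ∧ z ≠ d) : J (pt n z) = pt n t :=
  (hJ z t r.1 r.2.1 r.2.2.1 r.2.2.2.1 r.2.2.2.2.1 r.2.2.2.2.2.1 r.2.2.2.2.2.2).1 h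

theorem Gen.neg (hJ : M.Gen J C a b d G) {z t s : ℤ} (h : M.Neg z t)
    (r : 0 ≤ z ∧ z < n ∧ 0 ≤ t ∧ t < n ∧ z ≠ a ∧ z ≠ b ∧ z ≠ d ∧ s = n - M.e - t) :
    J (pt n z) = C - pt n s := by
  rw [r.2.2.2.2.2.2.2]
  exact (hJ z t r.1 r.2.1 r.2.2.1 r.2.2.2.1 r.2.2.2.2.1 r.2.2.2.2.2.1 r.2.2.2.2.2.2.1).2.1 h

theorem Gen.sq [NeZero n] (hJ : M.Gen J C a b d G) (hC : J C = C) (hab : M.Pos a b)
    (a0 : 0 ≤ a) (a1 : a < n) (b0 : 0 ≤ b) (b1 : b < n) (b2 : 0 < M.e + a)
    (hd : (M.e = 0 ∧ M.k = 0 ∧ d = 0) ∨ (M.e = 1 ∧ d = -1)) {z : ℤ} (z0 : 0 ≤ z) (z1 : z < n)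
    (hz : M.NZ z) (za : z ≠ a) (zb : z ≠ b) (zd : z ≠ d) : J (J (pt n z)) = C - pt n z := by
  obtain ⟨t, t0, t1, g⟩ := hz.tri
  have hb : M.Neg b (n - M.e - a) := hab.rot rfl
  have td : M.e = 0 → t ≠ 0 := fun he h => by
    have hk : M.k = 0 := by omega
    have r0 : M.Rt 0 t := ⟨0, by rw [hk, h]; ring⟩
    have := (g.elim Pos.rt Neg.rt).inj r0 z0 z1 le_rfl (by omega)
    omega
  rcases g with g | g
  · have g1 : M.Neg t (n - M.e - z) := g.rot rfl
    have ta : t ≠ a := fun h => hab.not_neg (h ▸ g1) b0 b1 (by omega) (by omega)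
    have tb : t ≠ b := fun h => za (g.rt.inj (h ▸ hab.rt) z0 z1 a0 a1)
    rw [hJ.pos g (by omega), hJ.neg (s := z) g1 (by omega)]
  · have g1 : M.Pos (n - M.e - t) z := ((g.rot rfl).rot rfl).rot (by ring)
    have ta : n - M.e - t ≠ a := fun h => zb ((h ▸ g1).rt.eq hab.rt z0 z1 b0 b1)
    have tb : n - M.e - t ≠ b := fun h => g1.not_neg (h ▸ hb) z0 z1 (by omega) (by omega)
    rw [hJ.neg (s := n - M.e - t) g (by omega), map_sub, hC, hJ.pos g1 (by omega)]

theorem Gen.row [NeZero n] {p : ℤ} {K : Blk}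
    (hJ : M.Gen J (pt n p + pt n (n - M.e - p)) a b d G) (hK : K.Ok n) (hG : K.Geo M.c)
    (hS : K.Sh n M.c p M.e) (hc : 2 * M.c ≤ n ∨ K.B = ∅) (e0 : 0 ≤ M.e) (e1 : M.e ≤ 1)
    (p0 : 0 < p) (hp : M.c + p ≤ n) (c0 : 0 ≤ M.c) (pc : p ≤ M.c - M.e - p + 1)
    (gap : ∀ t, p < t → t < M.c - M.e - p → ∃ y : ℤ, 0 ≤ y ∧ y < n ∧ M.Pos t y)
    {z : ℤ} (z0 : 0 ≤ z) (z1 : z + 1 < n) (hz : M.NZ z) (hz' : M.NZ (z + 1))
    (r : z ≠ a ∧ z ≠ b ∧ z ≠ d ∧ z + 1 ≠ a ∧ z + 1 ≠ b ∧ z + 1 ≠ d) :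
    Row n M.c K (J (pt n (z + 1)) - J (pt n z)) := by
  obtain ⟨t, t0, t1, g⟩ := hz.tri
  obtain ⟨s, s0, s1, g'⟩ := hz'.tri
  have st := (g.elim Pos.rt Neg.rt).step (g'.elim Pos.rt Neg.rt) t0 t1 s0 s1 c0 (by omega)
  rcases g with g | g <;> rcases g' with g' | g'
  · rw [hJ.pos g (by omega), hJ.pos g' (by omega)]
    refine row_single hK hG c0 hc (by omega) t0 t1.le ?_
    rcases st with st | st
    · rw [st]
    · rw [ptc (a := s) (b := t + M.c) (-1) (by omega)]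
  · rcases st with st | st
    · exact ((g.sh 1 0 (by ring) (by omega)).not_neg g' s0 s1 s0 s1).elim
    · rw [hJ.pos g (by omega), hJ.neg (s := n - M.e - s) g' (by omega)]
      refine row_pn hS e0 e1 p0.le hp s0 (by omega) ?_ (by rw [show t = s - M.c + n by omega])
      by_contra hh
      obtain ⟨y, y0, y1, hy⟩ := gap (M.c - M.e - s) (by omega) (by omega)
      have g1 : M.Neg (n - M.e - t) z := ((g.rot rfl).rot rfl).rot (by ring)
      rw [show n - M.e - t = M.c - M.e - s by omega] at g1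
      exact hy.not_neg g1 y0 y1 z0 (by omega)
  · rcases st with st | st
    · exact (g'.not_neg (g.sh 1 0 (by ring) (by omega)) s0 s1 s0 s1).elim
    · rw [hJ.neg (s := M.c - M.e - s) g (by omega), hJ.pos g' (by omega)]
      refine row_np hS e0 e1 p0.le hp s0 (by omega) ?_ rfl
      by_contra hh
      obtain ⟨y, y0, y1, hy⟩ := gap s (by omega) (by omega)
      exact hy.not_neg (g'.rot rfl) y0 y1 (by omega) (by omega)
  · rw [hJ.neg (s := n - M.e - t) g (by omega), hJ.neg (s := n - M.e - s) g' (by omega)]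
    refine row_single (s := n - M.e - s) hK hG c0 hc (by omega) (by omega) (by omega) ?_
    rcases st with st | st
    · rw [show n - M.e - s + M.c = n - M.e - t by omega]
      abel
    · rw [ptc (a := n - M.e - s + M.c) (b := n - M.e - t) 1 (by omega)]
      abel

theorem Zer.grid {s m d : ℤ} (h0 : M.Zer s (s + m - 1))
    (hZ : ∀ q q', M.Z q → M.Z q' → M.lam ∣ q - q') (hn : (n : ℤ) = m * M.c + d) (hd : d ≤ s)
    (hs : s + m ≤ M.c) (m0 : 0 ≤ m) (s0 : 0 ≤ s) {z t : ℤ} (h : M.Zer z t) (z0 : 0 ≤ z)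
    (z1 : z < n) (t0 : 0 ≤ t) (t1 : t < n) :
    ∃ i j, 0 ≤ i ∧ i < m ∧ 0 ≤ j ∧ j < m ∧ z = s + i + j * M.c := by
  obtain ⟨q0, e0, g0⟩ := h0
  obtain ⟨q, e, g⟩ := h
  obtain ⟨j, hj⟩ := hZ q q0 g g0
  obtain ⟨i, hi⟩ : ∃ i, z = s + i + j * M.c := ⟨z - s - j * M.c, by ring⟩
  have ht : t = s + m - 1 - j + i * M.c := by
    linear_combination e0 - e + M.c * hi - n * hj + j * M.hc
  have j0 : 0 ≤ j := by
    by_contra hh
    have : j * M.c ≤ -M.c := by nlinarith
    have : m * M.c ≤ i * M.c := by nlinarith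
    omega
  have j1 : j < m := by
    by_contra hh
    have : m * M.c ≤ j * M.c := by nlinarith
    have : i * M.c ≤ -M.c := by nlinarith
    omega
  refine ⟨i, j, ?_, ?_, j0, j1, hi⟩
  · by_contra hh
    have : i * M.c ≤ -M.c := by nlinarith
    omega
  · by_contra hh
    have : m * M.c ≤ i * M.c := by nlinarith
    omega

theorem Gen.grid {s m d0 : ℤ} {F : ℤ → ℤ → V n}
    (hJ : M.Gen J C a b d fun z => F ((z - s) % M.c) ((z - s) / M.c))
    (h0 : M.Zer s (s + m - 1)) (hn : (n : ℤ) = m * M.c + d0) (hd : 0 ≤ d0)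
    (hs : s + m ≤ M.c) (s0 : 0 < s) (ha : M.NZ a) (hb : M.NZ b) (d1 : d ≤ 0) {i j : ℤ}
    (i0 : 0 ≤ i) (i1 : i < m) (j0 : 0 ≤ j) (j1 : j < m) :
    J (pt n (s + i + j * M.c)) = F i j := by
  have g := h0.sh i j (z' := s + i + j * M.c) (t' := s + m - 1 + i * M.c - j) rfl rfl
  have b1 : 0 ≤ i * M.c := by nlinarith
  have b2 : 0 ≤ j * M.c := by nlinarith
  have b3 : i * M.c ≤ m * M.c - M.c := by nlinarith
  have b4 : j * M.c ≤ m * M.c - M.c := by nlinarith
  have na : s + i + j * M.c ≠ a := fun h => ha _ (by omega) (by omega) (h ▸ g)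
  have nb : s + i + j * M.c ≠ b := fun h => hb _ (by omega) (by omega) (h ▸ g)
  have e := (hJ _ _ (by omega) (by omega) (by omega) (by omega) na nb (by omega)).2.2 g
  have e1 : s + i + j * M.c - s = i + j * M.c := by ring
  simp only [e1] at e
  rw [e, Int.add_mul_emod_self_right, Int.emod_eq_of_lt i0 (by omega),
    Int.add_mul_ediv_right _ _ (by omega), Int.ediv_eq_zero_of_lt i0 (by omega), zero_add]

theorem assemble [NeZero n] {s m d0 : ℤ} {F : ℤ → ℤ → V n} {K : Blk} (hK : K.Ok n)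
    (hl : M.lam ≠ 0) (h0 : M.Zer s (s + m - 1))
    (hZ : ∀ q q', M.Z q → M.Z q' → M.lam ∣ q - q') (hn : (n : ℤ) = m * M.c + d0) (hd : d0 ≤ s)
    (d1 : 0 < d0) (hs : s + m ≤ M.c) (m0 : 0 ≤ m)
    (hF : ∀ i j, 0 ≤ i → i < m → 0 ≤ j → j < m → J (pt n (s + i + j * M.c)) = F i j)
    (sqN : ∀ z : ℤ, 0 ≤ z → z < n → M.NZ z → J (J (pt n z)) = C - pt n z)
    (sqG : ∀ i j, 0 ≤ i → i < m → 0 ≤ j → j < m → J (F i j) = C - pt n (s + i + j * M.c))
    (rowN : ∀ z : ℤ, 0 ≤ z → z < n → M.NZ z → (z + 1 < n → M.NZ (z + 1)) →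
      Row n M.c K (J (pt n (z + 1)) - J (pt n z)))
    (rowL : ∀ j, 0 ≤ j → j < m → Row n M.c K (F 0 j - J (pt n (s - 1 + j * M.c))))
    (rowI : ∀ i j, 0 ≤ i → i + 1 < m → 0 ≤ j → j < m → (∀ k ∈ K.B, s + i + j * M.c ≠ K.a k) →
      Row n M.c K (F (i + 1) j - F i j))
    (rowR : ∀ j, 0 ≤ j → j < m → (∀ k ∈ K.B, s + (m - 1) + j * M.c ≠ K.a k) →
      Row n M.c K (J (pt n (s + m + j * M.c)) - F (m - 1) j))
    (ha : ∀ j ∈ K.B, Row n M.c K (J (pt n (K.a j + 1)) - J (pt n (K.a j)) +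
      (J (pt n (K.e j + 1)) - J (pt n (K.e j)) - (J (pt n (K.x j + 1)) - J (pt n (K.x j))))))
    (hb : ∀ j ∈ K.B, Row n M.c K (J (pt n (K.b j + 1)) - J (pt n (K.b j)) -
      (J (pt n (K.e j + 1)) - J (pt n (K.e j)) - (J (pt n (K.x j + 1)) - J (pt n (K.x j)))))) :
    Sol n M.c (-1) M.lam := by
  have key : ∀ z : ℤ, 0 ≤ z → z < n → M.NZ z ∨
      ∃ i j, 0 ≤ i ∧ i < m ∧ 0 ≤ j ∧ j < m ∧ z = s + i + j * M.c := fun z z0 z1 => by
    by_cases h : M.NZ z
    · exact Or.inl h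
    · simp only [NZ, not_forall, not_not] at h
      obtain ⟨t, t0, t1, h⟩ := h
      exact Or.inr (Zer.grid h0 hZ hn hd hs m0 (by omega) h z0 z1 t0 t1)
  refine sol_of J C M.hc hl K hK (fun z z0 z1 => ?_) (fun z z0 z1 hz => ?_) ha hb
  · rcases key z z0 z1 with h | ⟨i, j, i0, i1, j0, j1, rfl⟩
    · exact sqN z z0 z1 h
    · rw [hF i j i0 i1 j0 j1, sqG i j i0 i1 j0 j1]
  · rcases key z z0 z1 with h | ⟨i, j, i0, i1, j0, j1, rfl⟩
    · by_cases h1 : z + 1 < n → M.NZ (z + 1)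
      · exact rowN z z0 z1 h h1
      · rw [Classical.not_imp] at h1
        obtain ⟨i, j, i0, i1, j0, j1, e⟩ := (key (z + 1) (by omega) h1.1).resolve_left h1.2
        have b1 : 0 ≤ (i - 1) * M.c ∨ i = 0 := by
          rcases eq_or_lt_of_le i0 with g | g
          · exact Or.inr g.symm
          · exact Or.inl (by nlinarith)
        have b3 : (i - 1) * M.c ≤ m * M.c - M.c := by nlinarith
        rcases b1 with b1 | rfl
        · exact (h _ (by omega) (by omega) (h0.sh (i - 1) j (z' := z)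
            (t' := s + m - 1 + (i - 1) * M.c - j) (by omega) rfl)).elim
        · rw [e, hF 0 j i0 i1 j0 j1, show z = s - 1 + j * M.c by omega]
          exact rowL j j0 j1
    · by_cases h1 : i + 1 < m
      · rw [show s + i + j * M.c + 1 = s + (i + 1) + j * M.c by ring, hF i j i0 i1 j0 j1,
          hF (i + 1) j (by omega) h1 j0 j1]
        exact rowI i j i0 h1 j0 j1 hz
      · obtain rfl : i = m - 1 := by omega
        rw [show s + (m - 1) + j * M.c + 1 = s + m + j * M.c by ring, hF _ j i0 i1 j0 j1]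
        exact rowR j j0 j1 hz

theorem base_un [NeZero n] {p tp : ℤ} {K : Blk} (hk : M.k = 0) (he : M.e = 0)
    (hJ : M.Gen J (pt n p + pt n (n - p)) p tp 0 G)
    (J0 : J (pt n 0) = pt n tp + pt n (n - 1) - pt n (tp - 1))
    (Jo : J (pt n tp) = -pt n 0 + pt n M.c + (pt n p + pt n (n - p)) - pt n (p + M.c))
    (Jp : J (pt n p) = pt n p + pt n (n - p) - pt n (n - tp))
    (hp : M.Pos p tp) (h1 : M.Neg 1 M.c)
    (hto : (tp + 1 = p ∧ tp = M.c - p) ∨ M.Neg (tp + 1) (M.c - p))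
    (hK : K.Ok n) (hG : K.Geo M.c) (hS : K.Sh n M.c p 0)
    (r : 2 ≤ tp ∧ tp < p ∧ p ≤ M.c - p + 1 ∧ tp ≤ M.c - p ∧ 2 * M.c ≤ n ∧ tp + M.c + p ≤ n)
    (gap : ∀ t, p < t → t < M.c - p → ∃ y : ℤ, 0 ≤ y ∧ y < n ∧ M.Pos t y) :
    J (pt n p + pt n (n - p)) = pt n p + pt n (n - p) ∧
    (∀ z : ℤ, 0 ≤ z → z < n → M.NZ z → J (J (pt n z)) = pt n p + pt n (n - p) - pt n z) ∧
    ∀ z : ℤ, 0 ≤ z → z < n → M.NZ z → (z + 1 < n → M.NZ (z + 1)) →
      Row n M.c K (J (pt n (z + 1)) - J (pt n z)) := by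
  have g1 : M.Neg tp (n - p) := hp.rot (by omega)
  have g2 : M.Pos (n - p) (n - tp) := g1.rot (by omega)
  have g3 : M.Pos M.c (n - 1) := h1.rot (by omega)
  have g4 : M.Neg (n - 1) (n - M.c) := g3.rot (by omega)
  have v1 := hJ.pos g2 (by omega)
  have v2 := hJ.pos g3 (by omega)
  have v3 := hJ.neg (s := M.c) g4 (by omega)
  have v4 := hJ.neg (s := p + M.c) (g1.sh (-1) 0 (z' := tp - 1) (t' := n - p - M.c) (by ring)
    (by ring)) (by omega)
  have v5 := hJ.pos (hp.sh 0 1 (z' := p + M.c) (t' := tp - 1) (by ring) (by ring)) (by omega)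
  have v6 := hJ.neg (s := n - p) (g2.rot (z' := p) (by omega)) (by omega)
  have v7 := hJ.neg (s := n - M.c) h1 (by omega)
  have v8 := hJ.pos (hp.sh 1 0 (z' := p + 1) (t' := tp + M.c) (by ring) (by ring)) (by omega)
  have hC : J (pt n p + pt n (n - p)) = pt n p + pt n (n - p) := by
    rw [map_add, Jp, v1]
    abel
  refine ⟨hC, fun z z0 z1 hz => ?_, fun z z0 z1 hz hz' => ?_⟩
  · by_cases a1 : z = 0
    · rw [a1, J0, map_sub, map_add, Jo, v3, v4]
      abel
    by_cases a2 : z = tp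
    · rw [a2, Jo, map_sub, map_add, map_add, map_neg, hC, J0, v2, v5]
      abel
    by_cases a3 : z = p
    · rw [a3, Jp, map_sub, hC, v6]
      abel
    exact hJ.sq hC hp (by omega) (by omega) (by omega) (by omega) (by omega) (by omega) z0 z1 hz
      a3 a2 a1
  · by_cases a1 : z = 0
    · rw [a1, zero_add, J0, v7]
      refine ⟨[(0, tp - 1), (tp, p), (n - M.c, n - p), (n - 1, n)], ?_, ?_, ?_, fun j hj => ?_⟩
      · simp only [Srt]; omega
      · simp only [len]; omega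
      · simp only [chb, pt_n]
        abel
      · have g := hS j hj
        simp only [CC, mem, or_false]
        omega
    by_cases a2 : z = n - 1
    · rw [a2, sub_add_cancel, pt_n, J0, v3]
      refine ⟨[(tp - 1, tp), (p, M.c), (n - p, n - 1)], ?_, ?_, ?_, fun j hj => ?_⟩
      · simp only [Srt]; omega
      · simp only [len]; omega
      · simp only [chb]
        abel
      · have g := hS j hj
        simp only [CC, mem, or_false]
        omega
    by_cases a3 : z = tp - 1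
    · rw [a3, sub_add_cancel, Jo, v4]
      refine row_single (s := 0) hK hG (by omega) (by omega) (by omega) le_rfl (by omega) ?_
      rw [zero_add]
      abel
    by_cases a4 : z = tp
    · have v9 : J (pt n (tp + 1)) = pt n p + pt n (n - p) - pt n (n + p - M.c) := by
        rcases hto with h | h
        · rw [h.1, Jp, show n - tp = n + p - M.c by omega]
        · have : tp + 1 ≠ p := fun e => hp.not_neg (e ▸ h) (by omega) (by omega) (by omega)
            (by omega)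
          exact hJ.neg h (by omega)
      rw [a4, Jo, v9]
      refine ⟨[(M.c, p + M.c), (n + p - M.c, n)], ?_, ?_, ?_, fun j hj => ?_⟩
      · simp only [Srt]; omega
      · simp only [len]; omega
      · simp only [chb, pt_n]
        abel
      · have g := hS j hj
        simp only [CC, mem, or_false]
        omega
    by_cases a5 : z = p
    · rw [a5, Jp, v8]
      refine ⟨[(p, tp + M.c), (n - p, n - tp)], ?_, ?_, ?_, fun j hj => ?_⟩
      · simp only [Srt]; omega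
      · simp only [len]; omega
      · simp only [chb]
        abel
      · have g := hS j hj
        simp only [CC, mem, or_false]
        omega
    by_cases a6 : z + 1 = p
    · obtain ⟨t, t0, t1, g⟩ := hz.tri
      have st := (g.elim Pos.rt Neg.rt).step (a6 ▸ hp.rt) t0 t1 (by omega) (by omega) (by omega)
        (by omega)
      rw [a6, Jp]
      rcases g with g | g
      · rw [hJ.pos g (by omega)]
        refine row_pn (t := tp) hS le_rfl (by omega) (by omega) (by omega) (by omega) (by omega)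
          (by omega) ?_
        rw [show t = tp - M.c + n by omega]
        simp only [sub_zero]
      · rw [hJ.neg (s := M.c - tp) g (by omega)]
        refine row_single (s := n - tp) hK hG (by omega) (by omega) (by omega) (by omega)
          (by omega) ?_
        rw [ptc (a := n - tp + M.c) (b := M.c - tp) 1 (by ring)]
        abel
    refine Gen.row (p := p) (by rw [he, sub_zero]; exact hJ) hK hG (by rw [he]; exact hS)
      (by omega) (by omega) (by omega) (by omega) (by omega) (by omega) (by omega)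
      (by rw [he, sub_zero]; exact gap) z0 (by omega) hz (hz' (by omega)) (by omega)

end Mdl

end Pool.Agent.P.MP_009630_co
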