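import Pool.Agent.P.MP_009630_co.Base

set_option autoImplicit false

namespace Pool.Agent.P.MP_009630_co

theorem mle {a b c : ℤ} (c0 : 0 ≤ c) (k : ℤ) (h : a + k ≤ b) : a * c + k * c ≤ b * c := by
  nlinarith

theorem cmp {c : ℤ} (c0 : 0 ≤ c) (u v : ℤ) :
    (u + 3 ≤ v ∧ u * c + 3 * c ≤ v * c) ∨ (u + 2 = v ∧ u * c + 2 * c = v * c) ∨
    (u + 1 = v ∧ u * c + c = v * c) ∨ (u = v ∧ u * c = v * c) ∨
    (u = v + 1 ∧ u * c = v * c + c) ∨ (u = v + 2 ∧ u * c = v * c + 2 * c) ∨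
    (v + 3 ≤ u ∧ v * c + 3 * c ≤ u * c) := by
  rcases (by omega : u + 3 ≤ v ∨ u + 2 = v ∨ u + 1 = v ∨ u = v ∨ u = v + 1 ∨ u = v + 2 ∨
    v + 3 ≤ u) with h | h | h | h | h | h | h
  · exact Or.inl ⟨h, mle c0 3 h⟩
  · exact Or.inr (Or.inl ⟨h, by rw [← h]; ring⟩)
  · exact Or.inr (Or.inr (Or.inl ⟨h, by rw [← h]; ring⟩))
  · exact Or.inr (Or.inr (Or.inr (Or.inl ⟨h, by rw [h]⟩)))
  · exact Or.inr (Or.inr (Or.inr (Or.inr (Or.inl ⟨h, by rw [h]; ring⟩))))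
  · exact Or.inr (Or.inr (Or.inr (Or.inr (Or.inr (Or.inl ⟨h, by rw [h]; ring⟩)))))
  · exact Or.inr (Or.inr (Or.inr (Or.inr (Or.inr (Or.inr ⟨h, mle c0 3 h⟩)))))

/-- The exchanges when the number of levels is even. -/
noncomputable def KG (p tp m c : ℤ) : Blk where
  B := (Finset.Ico 0 m).filter fun b => b % 2 = 1
  a := fun b => p + tp + 1 + (m - b) + (b - 1) * c
  b := fun b => p + b + b * c - c
  e := fun b => p + b + b * c
  x := fun b => p + b + b * c - c - 1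

/-- The exchanges when the number of levels is odd. -/
noncomputable def KE (h U m c : ℤ) : Blk where
  B := (Finset.Ico 0 (m - 1)).filter fun b => b % 2 = 0
  a := fun b => 2 * h - m - U + (b + 1) + (b + 1) * c
  b := fun b => U + b + b * c + c + c
  e := fun b => U + b + b * c + c
  x := fun b => U + b + b * c + c + c + 1

theorem KG_mem {p tp m c b : ℤ} : b ∈ (KG p tp m c).B ↔ (0 ≤ b ∧ b < m) ∧ b % 2 = 1 := by
  simp only [KG, Finset.mem_filter, Finset.mem_Ico]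

theorem KE_mem {h U m c b : ℤ} : b ∈ (KE h U m c).B ↔ (0 ≤ b ∧ b < m - 1) ∧ b % 2 = 0 := by
  simp only [KE, Finset.mem_filter, Finset.mem_Ico]

theorem cc_out {l : List (ℤ × ℤ)} {a b e x : ℤ} (h : ¬ mem a l) (g : ¬ mem b l) :
    CC l a b e x := ⟨fun k => (h k).elim, fun _ k => (g k).elim⟩

theorem cc_in {l : List (ℤ × ℤ)} {a b e x : ℤ} (h : mem a l) (g : mem b l) :
    CC l a b e x := ⟨fun _ k => (k g).elim, fun k => (k h).elim⟩

theorem cc_a {l : List (ℤ × ℤ)} {a b e x : ℤ} (h : mem a l) (g : mem e l) (f : ¬ mem x l) :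
    CC l a b e x := ⟨fun _ _ => ⟨g, f⟩, fun k => (k h).elim⟩

theorem cc_b {l : List (ℤ × ℤ)} {a b e x : ℤ} (h : mem b l) (g : mem x l) (f : ¬ mem e l) :
    CC l a b e x := ⟨fun _ k => (k h).elim, fun _ _ => ⟨f, g⟩⟩

theorem cmp2 {c : ℤ} (c0 : 0 ≤ c) (u v : ℤ) (h : (u - v) % 2 = 0) :
    (u + 4 ≤ v ∧ u * c + 4 * c ≤ v * c) ∨ (u + 2 = v ∧ u * c + 2 * c = v * c) ∨
    (u = v ∧ u * c = v * c) ∨ (u = v + 2 ∧ u * c = v * c + 2 * c) ∨
    (v + 4 ≤ u ∧ v * c + 4 * c ≤ u * c) := by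
  rcases (by omega : u + 4 ≤ v ∨ u + 2 = v ∨ u = v ∨ u = v + 2 ∨ v + 4 ≤ u) with
    h | h | h | h | h
  · exact Or.inl ⟨h, mle c0 4 h⟩
  · exact Or.inr (Or.inl ⟨h, by rw [← h]; ring⟩)
  · exact Or.inr (Or.inr (Or.inl ⟨h, by rw [h]⟩))
  · exact Or.inr (Or.inr (Or.inr (Or.inl ⟨h, by rw [h]; ring⟩)))
  · exact Or.inr (Or.inr (Or.inr (Or.inr ⟨h, mle c0 4 h⟩)))

/-- The column condition of the even family. -/
theorem KG_cc {p tp m c : ℤ} {l : List (ℤ × ℤ)} (c0 : 0 ≤ c) (m2 : m % 2 = 0)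
    (h : ∀ b, b % 2 = 1 → (b = 1 ∧ b * c = c) ∨ (3 ≤ b ∧ 3 * c ≤ b * c) →
      (b + 1 = m ∧ b * c + c = m * c) ∨ (b + 3 ≤ m ∧ b * c + 3 * c ≤ m * c) →
      CC l (p + tp + 1 + m - b + b * c - c)
      (p + b + b * c - c) (p + b + b * c) (p + b + b * c - c - 1)) :
    ∀ b ∈ (KG p tp m c).B, CC l ((KG p tp m c).a b) ((KG p tp m c).b b) ((KG p tp m c).e b)
      ((KG p tp m c).x b) := fun b hb => by
  obtain ⟨⟨h1, h2⟩, h3⟩ := KG_mem.1 hb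
  have e : (KG p tp m c).a b = p + tp + 1 + m - b + b * c - c := by simp only [KG]; ring
  have d0 := cmp c0 b 0
  have dm := cmp c0 b m
  rw [e]
  exact h b h3 (by omega) (by omega)

/-- The column condition of the odd family. -/
theorem KE_cc {h U m c : ℤ} {l : List (ℤ × ℤ)} (c0 : 0 ≤ c) (m2 : m % 2 = 1)
    (g : ∀ b, b % 2 = 0 → (b = 0 ∧ b * c = 0) ∨ (2 ≤ b ∧ 2 * c ≤ b * c) →
      (b + 3 = m ∧ b * c + 3 * c = m * c) ∨ (b + 5 ≤ m ∧ b * c + 5 * c ≤ m * c) →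
      CC l (2 * h - m - U + b + 1 + b * c + c)
      (U + b + b * c + c + c) (U + b + b * c + c) (U + b + b * c + c + c + 1)) :
    ∀ b ∈ (KE h U m c).B, CC l ((KE h U m c).a b) ((KE h U m c).b b) ((KE h U m c).e b)
      ((KE h U m c).x b) := fun b hb => by
  obtain ⟨⟨h1, h2⟩, h3⟩ := KE_mem.1 hb
  have e : (KE h U m c).a b = 2 * h - m - U + b + 1 + b * c + c := by simp only [KE]; ring
  have d0 := cmp c0 b 0
  have dm := cmp2 c0 (b + 3) m (by omega)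
  rw [add_mul] at dm
  have d3 := mle c0 5 (a := b) (b := m)
  rw [e]
  exact g b h3 (by omega) (by omega)

theorem KG_facts {n : ℕ} {p tp m c : ℤ} (hn : (n : ℤ) = m * c + 2 * tp + 1) (hc : c = 2 * p + m)
    (m2 : m % 2 = 0) (m4 : 4 ≤ m) (h1 : m ≤ tp) (h2 : tp + m + 1 ≤ p) :
    (KG p tp m c).Ok n ∧ (KG p tp m c).Geo c ∧ (KG p tp m c).Sh n c p 0 := by
  have c0 : 0 ≤ c := by omega
  have e : ∀ b, (KG p tp m c).a b = p + tp + 1 + m - b + b * c - c := fun b => by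
    simp only [KG]; ring
  have b4 := mle (a := 0) c0 4 (show 0 + 4 ≤ m by omega)
  refine ⟨⟨fun j hj => ?_, fun j hj k hk => ?_⟩, fun j hj => ?_, fun j hj => ?_⟩
  · obtain ⟨⟨h1, h2⟩, h3⟩ := KG_mem.1 hj
    have b1 := mle (a := 0) c0 1 (show 0 + 1 ≤ j by omega)
    have b2 := mle c0 1 (show j + 1 ≤ m by omega)
    rw [e]
    simp only [KG, true_and]
    omega
  · obtain ⟨⟨h1, h2⟩, h3⟩ := KG_mem.1 hj
    obtain ⟨⟨h4, h5⟩, h6⟩ := KG_mem.1 hk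
    have b1 := cmp c0 j k
    rw [e, e]
    simp only [KG, true_and]
    omega
  · obtain ⟨⟨h1, h2⟩, h3⟩ := KG_mem.1 hj
    rw [e]
    simp only [KG, true_and]
    omega
  · obtain ⟨⟨h1, h2⟩, h3⟩ := KG_mem.1 hj
    have b1 := cmp c0 j 0
    have b2 := mle c0 1 (show j + 1 ≤ m by omega)
    rw [e]
    simp only [KG, true_and]
    omega

theorem KE_facts {n : ℕ} {h U m c : ℤ} (hn : (n : ℤ) = m * c + (2 * h - m - 2 * U))
    (hc : c = 2 * h) (m2 : m % 2 = 1) (m3 : 3 ≤ m) (h1 : m + 1 ≤ 2 * U)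
    (h2 : 3 * m + 2 ≤ 2 * h - m - 2 * U) :
    (KE h U m c).Ok n ∧ (KE h U m c).Geo c ∧ (KE h U m c).Sh n c h 1 := by
  have c0 : 0 ≤ c := by omega
  have e : ∀ b, (KE h U m c).a b = 2 * h - m - U + b + 1 + b * c + c := fun b => by
    simp only [KE]; ring
  refine ⟨⟨fun j hj => ?_, fun j hj k hk => ?_⟩, fun j hj => ?_, fun j hj => ?_⟩
  · obtain ⟨⟨h1, h2⟩, h3⟩ := KE_mem.1 hj
    have b1 := mle (a := 0) c0 0 (show 0 + 0 ≤ j by omega)
    have b2 := mle c0 3 (show j + 3 ≤ m by omega)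
    rw [e]
    simp only [KE, true_and]
    omega
  · obtain ⟨⟨h1, h2⟩, h3⟩ := KE_mem.1 hj
    obtain ⟨⟨h4, h5⟩, h6⟩ := KE_mem.1 hk
    have b1 := cmp c0 j k
    rw [e, e]
    simp only [KE, true_and]
    omega
  · obtain ⟨⟨h1, h2⟩, h3⟩ := KE_mem.1 hj
    rw [e]
    simp only [KE, true_and]
    omega
  · obtain ⟨⟨h1, h2⟩, h3⟩ := KE_mem.1 hj
    have b1 := mle (a := 0) c0 0 (show 0 + 0 ≤ j by omega)
    have b2 := mle c0 3 (show j + 3 ≤ m by omega)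
    rw [e]
    simp only [KE, true_and]
    omega

end Pool.Agent.P.MP_009630_co
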