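import Pool.Agent.P.MP_009630_co.RowE

set_option autoImplicit false

namespace Pool.Agent.P.MP_009630_co

/-- The values on the fixed class. -/
def wEF (n : ℕ) (h U m c i j : ℤ) : V n :=
  if j < i then wEG n h U m c i j else if i < j then wEL n h U m c i j
  else if j = m - 1 then wET n h U m c else if j % 2 = 0 then wEP n h U m c j else wES n h U m c (j - 1)

theorem main_E {n : ℕ} [NeZero n] (M : Mdl n) {h U m : ℤ} (hk : 2 * M.k = M.c + n - 1)
    (he : M.e = 1) (hl : M.lam ≠ 0)
    (H : (n : ℤ) = m * M.c + (2 * h - m - 2 * U) ∧ M.c = 2 * h ∧ m % 2 = 1 ∧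
      3 ≤ m ∧ m + 1 ≤ 2 * U ∧ 3 * m + 2 ≤ 2 * h - m - 2 * U)
    (hh : M.Neg h (h - 1)) (hr : M.Neg (2 * h - m - U + m) (U + m - 1))
    (h0 : M.Zer (2 * h - m - U) (2 * h - m - U + m - 1))
    (hZ : ∀ q q', M.Z q → M.Z q' → M.lam ∣ q - q') : Sol n M.c (-1) M.lam := by
  have H' := H
  obtain ⟨hn, hc, m2, m3, h1, h2⟩ := H
  have c0 : 0 ≤ M.c := by omega
  have bm := mle (a := 0) c0 3 (show 0 + 3 ≤ m by omega)
  obtain ⟨J, Jo, Jb, -, hJ⟩ := M.exists_J (pt n h + pt n (n - 1 - h)) (h - 1) (n - 1 - h) (-1)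
    (wEO n h U m M.c) (pt n (n - h)) 0 (by omega) (by omega) (by omega)
    fun z => wEF n h U m M.c ((z - (2 * h - m - U)) % M.c) ((z - (2 * h - m - U)) / M.c)
  replace hJ : M.Gen J (pt n h + pt n (n - 1 - h)) (h - 1) (n - 1 - h) (-1)
    fun z => wEF n h U m M.c ((z - (2 * h - m - U)) % M.c) ((z - (2 * h - m - U)) / M.c) := hJ
  replace Jo := Jo (by omega) (by omega)
  replace Jb := Jb (by omega) (by omega)
  have g1 : M.Pos (h - 1) (n - 1 - h) := hh.rot (by omega)
  have g2 : M.Neg (n - 1 - h) (n - h) := g1.rot (by omega)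
  have g3 : M.Pos (n - h) h := g2.rot (by omega)
  have g5 : M.Pos (U + m - 1) (n - 1 - (2 * h - m - U + m)) := hr.rot (by omega)
  have g4 : M.Neg (n - 1 - (2 * h - m - U + m)) (n - 1 - (U + m - 1)) := g5.rot (by omega)
  obtain ⟨hK, hG, hS⟩ := KE_facts hn hc m2 m3 h1 h2
  have vp := hJ.neg (s := n - h) hh (by omega)
  have vn := hJ.pos g3 (by omega)
  have hC : J (pt n h + pt n (n - 1 - h)) = pt n h + pt n (n - 1 - h) := by
    rw [map_add, vp, Jb]
    abel
  have sq0 : ∀ z : ℤ, 0 ≤ z → z < n → M.NZ z → z ≠ h - 1 ∧ z ≠ n - 1 - h →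
      J (J (pt n z)) = pt n h + pt n (n - 1 - h) - pt n z := fun z z0 z1 hz r =>
    hJ.sq hC g1 (by omega) (by omega) (by omega) (by omega) (by omega) (by omega) z0 z1 hz r.1 r.2
      (by omega)
  have hF : ∀ i j, 0 ≤ i → i < m → 0 ≤ j → j < m →
      J (pt n (2 * h - m - U + i + j * M.c)) = wEF n h U m M.c i j := fun i j =>
    Mdl.Gen.grid (d0 := 2 * h - m - 2 * U) hJ h0 hn (by omega) (by omega) (by omega)
      (g1.nz (by omega) (by omega)) (g2.nz (by omega) (by omega)) (by omega)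
  have FG : ∀ i j, j < i → wEF n h U m M.c i j = wEG n h U m M.c i j := fun i j r => by
    rw [wEF, if_pos r]
  have FL : ∀ i j, i < j → wEF n h U m M.c i j = wEL n h U m M.c i j := fun i j r => by
    rw [wEF, if_neg (by omega), if_pos r]
  have FT : ∀ i j, i = j → j = m - 1 → wEF n h U m M.c i j = wET n h U m M.c := fun i j r r' => by
    rw [wEF, if_neg (by omega), if_neg (by omega), if_pos r']
  have FP : ∀ i j, i = j → j < m - 1 → j % 2 = 0 → wEF n h U m M.c i j = wEP n h U m M.c j :=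
    fun i j r r' r'' => by
      rw [wEF, if_neg (by omega), if_neg (by omega), if_neg (by omega), if_pos r'']
  have FS : ∀ j, j % 2 = 0 → wEF n h U m M.c (j + 1) (j + 1) = wES n h U m M.c j := fun j r => by
    rw [wEF, if_neg (by omega), if_neg (by omega), if_neg (by omega), if_neg (by omega),
      add_sub_cancel_right]
  have vr : ∀ k : ℤ, 0 ≤ k → k + 1 ≤ m →
      J (pt n (2 * h - m - U + m + k * M.c)) = pt n h + pt n (n - 1 - h) - pt n (n - U - m + k) ∧
      J (pt n (n - U - m + k)) = pt n (2 * h - m - U + m + k * M.c) := fun k k0 k1 => by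
    have b1 := mle (a := 0) c0 0 (show 0 + 0 ≤ k by omega)
    have b2 := mle c0 1 k1
    have g : M.Neg (2 * h - m - U + m + k * M.c) (U + m - 1 - k) :=
      hr.sh (0) (k) (by ring) (by ring)
    have v := hJ.neg (s := n - U - m + k) g (by omega)
    have w := sq0 _ (by omega) (by omega) (g.nz (by omega) (by omega)) (by omega)
    rw [v, map_sub, hC] at w
    exact ⟨v, sub_right_injective w⟩
  have vl : ∀ k : ℤ, 0 ≤ k → k + 1 ≤ m →
      J (pt n (2 * h - m - U - 1 + k * M.c)) = pt n h + pt n (n - 1 - h) - pt n (U + k) ∧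
      J (pt n (U + k)) = pt n (2 * h - m - U - 1 + k * M.c) := fun k k0 k1 => by
    have b1 := mle (a := 0) c0 0 (show 0 + 0 ≤ k by omega)
    have b2 := mle c0 1 k1
    have g : M.Neg (2 * h - m - U - 1 + k * M.c) (n - U - 1 - k) :=
      g4.sh (0) (k + 1 - m) (by linear_combination (-1) * hn + (-1) * hc) (by ring)
    have v := hJ.neg (s := U + k) g (by omega)
    have w := sq0 _ (by omega) (by omega) (g.nz (by omega) (by omega)) (by omega)
    rw [v, map_sub, hC] at w
    exact ⟨v, sub_right_injective w⟩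
  have vz : ∀ k : ℤ, 0 ≤ k → k + 2 ≤ m →
      J (pt n (h + M.c + k * M.c)) = pt n h + pt n (n - 1 - h) - pt n (n - h + 1 + k) ∧
      J (pt n (n - h + 1 + k)) = pt n (h + M.c + k * M.c) := fun k k0 k1 => by
    have b1 := mle (a := 0) c0 0 (show 0 + 0 ≤ k by omega)
    have b2 := mle c0 2 k1
    have g : M.Neg (h + M.c + k * M.c) (h - 2 - k) :=
      hh.sh (0) (k + 1) (by ring) (by ring)
    have v := hJ.neg (s := n - h + 1 + k) g (by omega)
    have w := sq0 _ (by omega) (by omega) (g.nz (by omega) (by omega)) (by omega)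
    rw [v, map_sub, hC] at w
    exact ⟨v, sub_right_injective w⟩
  have ve : ∀ k : ℤ, 0 ≤ k → k + 3 ≤ m →
      J (pt n (U + k + k * M.c + M.c)) = pt n (2 * h - m - U - 2 - k + k * M.c) ∧
      J (pt n (2 * h - m - U - 2 - k + k * M.c)) = pt n h + pt n (n - 1 - h) - pt n (U + k + k * M.c + M.c) := fun k k0 k1 => by
    have b1 := mle (a := 0) c0 0 (show 0 + 0 ≤ k by omega)
    have b2 := mle c0 3 k1
    have g : M.Pos (U + k + k * M.c + M.c) (2 * h - m - U - 2 - k + k * M.c) :=
      g5.sh (k + 1 - m) (k + 1) (by ring) (by linear_combination (-1) * hn + (-1) * hc)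
    have v := hJ.pos g (by omega)
    exact ⟨v, (congrArg J v).symm.trans (sq0 _ (by omega) (by omega) (g.nz (by omega) (by omega)) (by omega))⟩
  have vf : ∀ k : ℤ, 0 ≤ k → k + 3 ≤ m →
      J (pt n (U + k + k * M.c + M.c + 1)) = pt n (2 * h - m - U - 2 - k + k * M.c + M.c) ∧
      J (pt n (2 * h - m - U - 2 - k + k * M.c + M.c)) = pt n h + pt n (n - 1 - h) - pt n (U + k + k * M.c + M.c + 1) := fun k k0 k1 => by
    have b1 := mle (a := 0) c0 0 (show 0 + 0 ≤ k by omega)
    have b2 := mle c0 3 k1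
    have g : M.Pos (U + k + k * M.c + M.c + 1) (2 * h - m - U - 2 - k + k * M.c + M.c) :=
      g5.sh (k + 2 - m) (k + 1) (by ring) (by linear_combination (-1) * hn + (-1) * hc)
    have v := hJ.pos g (by omega)
    exact ⟨v, (congrArg J v).symm.trans (sq0 _ (by omega) (by omega) (g.nz (by omega) (by omega)) (by omega))⟩
  have vg : ∀ k : ℤ, 0 ≤ k → k + 3 ≤ m →
      J (pt n (U + k + k * M.c + M.c + M.c)) = pt n (2 * h - m - U - 2 - k + k * M.c - 1) ∧
      J (pt n (2 * h - m - U - 2 - k + k * M.c - 1)) = pt n h + pt n (n - 1 - h) - pt n (U + k + k * M.c + M.c + M.c) := fun k k0 k1 => by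
    have b1 := mle (a := 0) c0 0 (show 0 + 0 ≤ k by omega)
    have b2 := mle c0 3 k1
    have g : M.Pos (U + k + k * M.c + M.c + M.c) (2 * h - m - U - 2 - k + k * M.c - 1) :=
      g5.sh (k + 1 - m) (k + 2) (by ring) (by linear_combination (-1) * hn + (-1) * hc)
    have v := hJ.pos g (by omega)
    exact ⟨v, (congrArg J v).symm.trans (sq0 _ (by omega) (by omega) (g.nz (by omega) (by omega)) (by omega))⟩
  have vh : ∀ k : ℤ, 0 ≤ k → k + 3 ≤ m →
      J (pt n (U + k + k * M.c + M.c + M.c + 1)) = pt n (2 * h - m - U - 2 - k + k * M.c - 1 + M.c) ∧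
      J (pt n (2 * h - m - U - 2 - k + k * M.c - 1 + M.c)) = pt n h + pt n (n - 1 - h) - pt n (U + k + k * M.c + M.c + M.c + 1) := fun k k0 k1 => by
    have b1 := mle (a := 0) c0 0 (show 0 + 0 ≤ k by omega)
    have b2 := mle c0 3 k1
    have g : M.Pos (U + k + k * M.c + M.c + M.c + 1) (2 * h - m - U - 2 - k + k * M.c - 1 + M.c) :=
      g5.sh (k + 2 - m) (k + 2) (by ring) (by linear_combination (-1) * hn + (-1) * hc)
    have v := hJ.pos g (by omega)
    exact ⟨v, (congrArg J v).symm.trans (sq0 _ (by omega) (by omega) (g.nz (by omega) (by omega)) (by omega))⟩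
  have vi : ∀ k : ℤ, 0 ≤ k → k + 3 ≤ m →
      J (pt n (U + k + k * M.c + M.c + M.c + 1 + 1)) = pt n (2 * h - m - U - 2 - k + k * M.c - 1 + M.c + M.c) ∧
      J (pt n (2 * h - m - U - 2 - k + k * M.c - 1 + M.c + M.c)) = pt n h + pt n (n - 1 - h) - pt n (U + k + k * M.c + M.c + M.c + 1 + 1) := fun k k0 k1 => by
    have b1 := mle (a := 0) c0 0 (show 0 + 0 ≤ k by omega)
    have b2 := mle c0 3 k1
    have g : M.Pos (U + k + k * M.c + M.c + M.c + 1 + 1) (2 * h - m - U - 2 - k + k * M.c - 1 + M.c + M.c) :=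
      g5.sh (k + 3 - m) (k + 2) (by ring) (by linear_combination (-1) * hn + (-1) * hc)
    have v := hJ.pos g (by omega)
    exact ⟨v, (congrArg J v).symm.trans (sq0 _ (by omega) (by omega) (g.nz (by omega) (by omega)) (by omega))⟩
  have am := vr (m - 1) (by omega) (by omega)
  have an := vz (m - 2) (by omega) (by omega)
  have aT := (hF (m - 1) (m - 1) (by omega) (by omega) (by omega) (by omega)).trans
    (FT _ _ rfl rfl)
  have sGL : ∀ i j, 0 ≤ j → j < i → i < m →
      J (wEG n h U m M.c i j) = pt n h + pt n (n - 1 - h) - pt n (2 * h - m - U + i + j * M.c) ∧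
      J (wEL n h U m M.c j i) = pt n h + pt n (n - 1 - h) - pt n (2 * h - m - U + j + i * M.c) := fun i j j0 r i1 => by
    have a1 := (hF i j (by omega) i1 j0 (by omega)).trans (FG _ _ r)
    have a2 := (hF j i j0 (by omega) (by omega) i1).trans (FL _ _ r)
    have a3 := vl i (by omega) (by omega)
    have a4 := vr i (by omega) (by omega)
    have a5 := vr j (by omega) (by omega)
    have a6 := vz j (by omega) (by omega)
    constructor
    · simp only [wEG, map_add, map_sub, a2, a3.1, a4.1, am.1, a5.2, a6.2, Jb, wEL]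
      abel
    · simp only [wEL, map_add, map_sub, a1, a5.1, a6.1, vn, a3.2, a4.2, am.2, wEG]
      abel
  have sPS : ∀ j, 0 ≤ j → j < m - 1 → j % 2 = 0 →
      J (wEP n h U m M.c j) = pt n h + pt n (n - 1 - h) - pt n (2 * h - m - U + j + j * M.c) ∧
      J (wES n h U m M.c j) = pt n h + pt n (n - 1 - h) - pt n (2 * h - m - U + (j + 1) + (j + 1) * M.c) := fun j j0 j1 r => by
    have a1 := sGL (j + 1) j j0 (by omega) (by omega)
    have a3 := (hF (j + 1) (j + 1) (by omega) (by omega) (by omega) (by omega)).trans (FS _ r)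
    have a4 := (hF j (j + 1) (by omega) (by omega) (by omega) (by omega)).trans
      (FL _ _ (by omega))
    have a5 := (hF (j + 1) j (by omega) (by omega) (by omega) (by omega)).trans
      (FG _ _ (by omega))
    have a6 := (hF j j (by omega) (by omega) (by omega) (by omega)).trans (FP _ _ rfl j1 r)
    have a7 := vl (j + 1) (by omega) (by omega)
    have a8 := vl j (by omega) (by omega)
    have a9 := ve j (by omega) (by omega)
    have a0 := vf j (by omega) (by omega)
    constructor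
    · simp only [wEP, map_add, map_sub, a1.1, a3, a4, a7.1, a8.1, a9.1, a0.1, wES]
      abel
    · simp only [wES, map_add, map_sub, a1.2, a5, a6, a7.2, a8.2, a9.2, a0.2, vp, Jb, wEP]
      abel
  refine Mdl.assemble (d0 := 2 * h - m - 2 * U) (C := pt n h + pt n (n - 1 - h)) hK hl h0 hZ hn (by omega)
    (by omega) (by omega) (by omega) hF (fun z z0 z1 hz => ?_) (fun i j i0 i1 j0 j1 => ?_)
    (fun z z0 z1 hz hz' => ?_) (fun j j0 j1 => ?_)
    (fun i j i0 i1 j0 j1 hz => ?_) (fun j j0 j1 hz => ?_) (fun j hj => ?_) (fun j hj => ?_)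
  · by_cases a1 : z = h - 1
    · simp only [a1, Jo, wEO, map_add, map_sub, aT, am.2, an.2, wET]
      abel
    by_cases a2 : z = n - 1 - h
    · rw [a2, Jb, vn]
      abel
    exact sq0 z z0 z1 hz ⟨a1, a2⟩
  · rcases (by omega : j < i ∨ i < j ∨ (i = m - 1 ∧ j = m - 1) ∨ (i = j ∧ j < m - 1 ∧ j % 2 = 0) ∨
      (i = j ∧ j % 2 = 1)) with r | r | ⟨rfl, rfl⟩ | ⟨rfl, r, r'⟩ | ⟨rfl, r⟩
    · rw [FG i j r, (sGL i j j0 r i1).1]
    · rw [FL i j r, (sGL j i i0 r j1).2]
    · rw [FT _ _ rfl rfl]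
      simp only [wET, map_add, map_sub, vp, Jb, Jo, am.1, an.1, wEO]
      abel
    · rw [FP _ _ rfl r r', (sPS i j0 r r').1]
    · obtain ⟨k, rfl⟩ : ∃ k, i = k + 1 := ⟨i - 1, by ring⟩
      rw [FS k (by omega), (sPS k (by omega) (by omega) (by omega)).2]
  · by_cases a1 : z = n - 1
    · obtain ⟨t, t0, t1, g⟩ := hz.tri
      have r0 : M.Rt 0 M.k := ⟨0, by ring⟩
      rw [a1, sub_add_cancel, pt_n, ← a1]
      rcases g with g | g
      · have g' : M.Pos 0 (n - 1 - t) := (g.rot (z' := 0) (by omega)).rot (by omega)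
        have := g'.rt.eq r0 (by omega) (by omega) (by omega) (by omega)
        rw [hJ.pos g (by omega), hJ.pos g' (by omega)]
        exact row_single hK hG c0 (by omega) (by omega) t0 t1.le
          (by rw [show t + M.c = n - 1 - t by omega])
      · have g' : M.Neg 0 (n - 1 - t) := (g.rot (z' := 0) (by omega)).rot (by omega)
        have := g'.rt.eq r0 (by omega) (by omega) (by omega) (by omega)
        rw [hJ.neg (s := t + M.c) g (by omega), hJ.neg (s := t) g' (by omega)]
        exact row_single hK hG c0 (by omega) (by omega) t0 t1.le (by abel)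
    by_cases a2 : z = h - 1 - 1
    · rw [a2, sub_add_cancel, Jo, hJ.pos (g1.sh (-1) 0 (z' := h - 1 - 1) (t' := n - 1 - h - M.c)
        (by ring) (by ring)) (by omega)]
      exact E_o1 H'
    by_cases a3 : z = h - 1
    · rw [a3, sub_add_cancel, Jo, vp]
      exact E_o2 H'
    by_cases a4 : z = n - 1 - h - 1
    · rw [a4, sub_add_cancel, Jb, hJ.neg (s := h + M.c - 1) (g2.sh (-1) 0 (z' := n - 1 - h - 1)
        (t' := n - h - M.c) (by ring) (by ring)) (by omega)]
      exact E_an H'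
    by_cases a5 : z = n - 1 - h
    · rw [a5, Jb, show (n : ℤ) - 1 - h + 1 = n - h by ring, vn]
      exact row_single (s := n - h) hK hG c0 (by omega) (by omega) (by omega) (by omega)
        (by rw [ptc (a := n - h + M.c) (b := h) 1 (by omega)])
    exact Mdl.Gen.row (p := h) (by rw [he]; exact hJ) hK hG (by rw [he]; exact hS) (by omega)
      (by omega) (by omega) (by omega) (by omega) c0 (by omega) (fun t a b => by omega) z0
      (by omega) hz (hz' (by omega)) (by omega)
  · rw [(vl j j0 (by omega)).1]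
    rcases (by omega : 1 ≤ j ∨ j = 0) with r | r
    · rw [FL 0 j (by omega)]
      exact E_l1 H' r j1
    · rw [FP 0 j (by omega) (by omega) (by omega)]
      exact E_l2 H' r
  · rcases (by omega : i + 1 < j ∨ j < i ∨ (j = i + 1 ∧ i % 2 = 0) ∨
      (i = j - 1 ∧ j < m - 1 ∧ j % 2 = 0) ∨ (i = m - 2 ∧ j = m - 1) ∨ (i = j ∧ j % 2 = 0) ∨
      (i = j ∧ j % 2 = 1)) with r | r | ⟨rfl, r⟩ | ⟨rfl, r, r'⟩ | ⟨rfl, rfl⟩ | ⟨rfl, r⟩ | ⟨rfl, r⟩
    · rw [FL _ j r, FL i j (by omega)]
      exact E_ss H' i0 r j1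
    · rw [FG _ j (by omega), FG i j r]
      exact E_gg H' j0 r i1
    · rw [FS i r, FL i _ (by omega)]
      exact E_rs H' i0 (by omega) r
    · rw [FP _ j (by omega) r r', FL _ j (by omega)]
      exact E_sp H' (by omega) r r'
    · rw [FT _ _ (by omega) rfl, FL _ _ (by omega)]
      exact E_st H'
    · rw [FG _ i (by omega), FP i i rfl (by omega) r]
      exact E_pq H' i0 (by omega) r
    · refine (hz (i - 1) (KE_mem.2 (by omega)) ?_).elim
      change _ = 2 * h - m - U + (i - 1 + 1) + (i - 1 + 1) * M.c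
      ring
  · rw [(vr j j0 (by omega)).1]
    rcases (by omega : j < m - 1 ∨ j = m - 1) with r | rfl
    · rw [FG _ j (by omega)]
      exact E_r1 H' j0 r
    · rw [FT _ _ rfl rfl]
      exact E_r2 H'
  · obtain ⟨⟨j0, j1⟩, r⟩ := KE_mem.1 hj
    change Row n M.c _ (J (pt n (2 * h - m - U + (j + 1) + (j + 1) * M.c + 1)) -
      J (pt n (2 * h - m - U + (j + 1) + (j + 1) * M.c)) +
      (J (pt n (U + j + j * M.c + M.c + 1)) - J (pt n (U + j + j * M.c + M.c)) -
        (J (pt n (U + j + j * M.c + M.c + M.c + 1 + 1)) - J (pt n (U + j + j * M.c + M.c + M.c + 1)))))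
    rw [(ve j j0 (by omega)).1, (vf j j0 (by omega)).1, (vh j j0 (by omega)).1,
      (vi j j0 (by omega)).1, hF _ _ (by omega) (by omega) (by omega) (by omega), FS j r,
      show 2 * h - m - U + (j + 1) + (j + 1) * M.c + 1 = 2 * h - m - U + (j + 1 + 1) + (j + 1) * M.c by ring,
      hF _ _ (by omega) (by omega) (by omega) (by omega), FG _ _ (by omega)]
    exact E_ra H' j0 j1 r
  · obtain ⟨⟨j0, j1⟩, r⟩ := KE_mem.1 hj
    change Row n M.c _ (J (pt n (U + j + j * M.c + M.c + M.c + 1)) - J (pt n (U + j + j * M.c + M.c + M.c)) -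
      (J (pt n (U + j + j * M.c + M.c + 1)) - J (pt n (U + j + j * M.c + M.c)) -
        (J (pt n (U + j + j * M.c + M.c + M.c + 1 + 1)) - J (pt n (U + j + j * M.c + M.c + M.c + 1)))))
    rw [(ve j j0 (by omega)).1, (vf j j0 (by omega)).1, (vg j j0 (by omega)).1,
      (vh j j0 (by omega)).1, (vi j j0 (by omega)).1]
    exact E_rb H' j0 j1 r

end Pool.Agent.P.MP_009630_co
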