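import Pool.Agent.P.MP_009630_co.Vals

set_option autoImplicit false

namespace Pool.Agent.P.MP_009630_co

theorem K_l1 {n : ℕ} {p tp m c j : ℤ}
    (H : (n : ℤ) = m * c + 2 * tp + 1 ∧ c = 2 * p + m ∧ m % 2 = 0 ∧
      4 ≤ m ∧ m ≤ tp ∧ tp + m + 1 ≤ p ∧ p + m + 1 ≤ 2 * tp)
    (r0 : 0 ≤ j) (r1 : j < m - 1) :
    Row n c (KG p tp m c) (wKL n p tp m c 0 j - pt n (n - p + tp - j)) := by
  obtain ⟨hn, hc, m2, m4, h1, h2, h3⟩ := H
  have c0 : 0 ≤ c := by omega
  have e0 : pt n (p + tp + 1 + (m - 1 - j) + (m - 1 - 0) * c) = pt n (m * c + p + tp + m - c - j) :=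
    ptc (0) (by ring)
  have e1 : pt n (p + (m - 1 - 0) * c) = pt n (m * c + p - c) :=
    ptc (0) (by ring)
  have e2 : pt n (2 * p + (m - 1 - 0) * c) = pt n (m * c + 2 * p - c) :=
    ptc (0) (by ring)
  have e3 : pt n (2 * tp + 1 + p + (m - 1) * c) = pt n (m * c + p + 2 * tp + 1 - c) :=
    ptc (0) (by ring)
  have e4 : pt n (p - tp + m - 1 - j) = pt n (p + m - tp - j - 1) :=
    ptc (0) (by ring)
  have e5 : pt n (n - p + tp - j) = pt n (n + tp - p - j) :=
    ptc (0) (by ring)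
  have bm := mle (a := 0) c0 4 (show 0 + 4 ≤ m by omega)
  refine ⟨[(0, p + m - tp - j - 1),
      (tp + m - j, p),
      (m * c + p - c, m * c + p + tp + m - c - j),
      (m * c + 2 * p - c, m * c + p + 2 * tp + 1 - c),
      (n + tp - p - j, n)],
    ?_, ?_, ?_, KG_cc c0 m2 fun b b2 d0 dm => ?_⟩
  · simp only [Srt]; omega
  · simp only [len]; omega
  · simp only [chb, pt_n, wKL, e0, e1, e2, e3, e4, e5]
    abel
  · clear e0 e1 e2 e3 e4 e5
    exact cc_out (by simp only [mem, or_false]; omega) (by simp only [mem, or_false]; omega)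

theorem K_l2 {n : ℕ} {p tp m c j : ℤ}
    (H : (n : ℤ) = m * c + 2 * tp + 1 ∧ c = 2 * p + m ∧ m % 2 = 0 ∧
      4 ≤ m ∧ m ≤ tp ∧ tp + m + 1 ≤ p ∧ p + m + 1 ≤ 2 * tp)
    (ej : j = m - 1) :
    Row n c (KG p tp m c) (wKP n p tp m c j - pt n (n - p + tp - j)) := by
  obtain ⟨hn, hc, m2, m4, h1, h2, h3⟩ := H
  have c0 : 0 ≤ c := by omega
  have e0 : pt n (p + tp + 1 + (m - 1 - j) + (m - 1 - ((m - j))) * c) = pt n (m * c + p + tp + 1 - 2 * c) :=
    ptc (0) (by linear_combination (-1 + 1 * c) * ej)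
  have e1 : pt n (p + tp + 1 + (m - 1 - j) + (j - 1) * c) = pt n (m * c + p + tp + 1 - 2 * c) :=
    ptc (0) (by linear_combination (-1 + 1 * c) * ej)
  have e2 : pt n (tp - j) = pt n (tp + 1 - m) :=
    ptc (0) (by linear_combination (-1 + 0 * c) * ej)
  have e3 : pt n (2 * tp - j) = pt n (2 * tp + 1 - m) :=
    ptc (0) (by linear_combination (-1 + 0 * c) * ej)
  have e4 : pt n (tp + m - (m - 1)) = pt n (tp + 1) :=
    ptc (0) (by ring)
  have e5 : pt n (p + tp + 1 + m + (m - 1 - ((m - j))) * c) = pt n (m * c + p + tp + m + 1 - 2 * c) :=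
    ptc (0) (by linear_combination (0 + 1 * c) * ej)
  have e6 : pt n (2 * tp + 1 + p + (m - 1 - ((m - j))) * c) = pt n (m * c + p + 2 * tp + 1 - 2 * c) :=
    ptc (0) (by linear_combination (0 + 1 * c) * ej)
  have e7 : pt n (2 * tp + 1 + p + (j - 1) * c) = pt n (m * c + p + 2 * tp + 1 - 2 * c) :=
    ptc (0) (by linear_combination (0 + 1 * c) * ej)
  have e8 : pt n (2 * tp + 1 + p + ((j + 1) - 1) * c) = pt n (m * c + p + 2 * tp + 1 - c) :=
    ptc (0) (by linear_combination (0 + 1 * c) * ej)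
  have e9 : pt n (p + j + j * c + 1) = pt n (m * c + p + m - c) :=
    ptc (0) (by linear_combination (1 + 1 * c) * ej)
  have e10 : pt n (p + j + j * c) = pt n (m * c + p + m - c - 1) :=
    ptc (0) (by linear_combination (1 + 1 * c) * ej)
  have e11 : pt n (p + tp + 1 + (m - j) + (j - 1) * c) = pt n (m * c + p + tp + 2 - 2 * c) :=
    ptc (0) (by linear_combination (-1 + 1 * c) * ej)
  have e12 : pt n (n - p + tp - j) = pt n (n + tp + 1 - p - m) :=
    ptc (0) (by linear_combination (-1 + 0 * c) * ej)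
  have bm := mle (a := 0) c0 4 (show 0 + 4 ≤ m by omega)
  refine ⟨[(0, tp + 1 - m),
      (tp + 1, 2 * tp + 1 - m),
      (m * c + p + tp + 2 - 2 * c, m * c + p + tp + m + 1 - 2 * c),
      (m * c + p + m - c - 1, m * c + p + m - c),
      (m * c + p + 2 * tp + 1 - c, n - tp),
      (n + tp + 1 - p - m, n)],
    ?_, ?_, ?_, KG_cc c0 m2 fun b b2 d0 dm => ?_⟩
  · simp only [Srt]; omega
  · simp only [len]; omega
  · simp only [chb, pt_n, wKU, wKP, e0, e1, e2, e3, e4, e5, e6, e7, e8, e9, e10, e11, e12]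
    abel
  · clear e0 e1 e2 e3 e4 e5 e6 e7 e8 e9 e10 e11 e12
    rcases d0 with d0 | d0
    · exact cc_b (Or.inr (Or.inl ⟨by omega, by omega⟩)) (Or.inr (Or.inl ⟨by omega, by omega⟩)) (by simp only [mem, or_false]; omega)
    · rcases dm with dm | dm
      · exact cc_a (Or.inr (Or.inr (Or.inl ⟨by omega, by omega⟩))) (Or.inr (Or.inr (Or.inr (Or.inl ⟨by omega, by omega⟩)))) (by simp only [mem, or_false]; omega)
      · exact cc_out (by simp only [mem, or_false]; omega) (by simp only [mem, or_false]; omega)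

theorem K_ll {n : ℕ} {p tp m c i j : ℤ}
    (H : (n : ℤ) = m * c + 2 * tp + 1 ∧ c = 2 * p + m ∧ m % 2 = 0 ∧
      4 ≤ m ∧ m ≤ tp ∧ tp + m + 1 ≤ p ∧ p + m + 1 ≤ 2 * tp)
    (r0 : 0 ≤ i) (r1 : 0 ≤ j) (r2 : i + 1 + j < m - 1) :
    Row n c (KG p tp m c) (wKL n p tp m c (i + 1) j - wKL n p tp m c i j) := by
  obtain ⟨hn, hc, m2, m4, h1, h2, h3⟩ := H
  have c0 : 0 ≤ c := by omega
  have e0 : pt n (p + tp + 1 + (m - 1 - j) + (m - 1 - ((i + 1))) * c) = pt n (m * c + p + tp + m - i * c - 2 * c - j) :=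
    ptc (0) (by ring)
  have e1 : pt n (p + (m - 1 - ((i + 1))) * c) = pt n (m * c + p - i * c - 2 * c) :=
    ptc (0) (by ring)
  have e2 : pt n (2 * p + (m - 1 - ((i + 1))) * c) = pt n (m * c + 2 * p - i * c - 2 * c) :=
    ptc (0) (by ring)
  have e3 : pt n (2 * tp + 1 + p + (m - 1) * c) = pt n (m * c + p + 2 * tp + 1 - c) :=
    ptc (0) (by ring)
  have e4 : pt n (p - tp + m - 1 - j) = pt n (p + m - tp - j - 1) :=
    ptc (0) (by ring)
  have e5 : pt n (p + tp + 1 + (m - 1 - j) + (m - 1 - i) * c) = pt n (m * c + p + tp + m - i * c - c - j) :=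
    ptc (0) (by ring)
  have e6 : pt n (p + (m - 1 - i) * c) = pt n (m * c + p - i * c - c) :=
    ptc (0) (by ring)
  have e7 : pt n (2 * p + (m - 1 - i) * c) = pt n (m * c + 2 * p - i * c - c) :=
    ptc (0) (by ring)
  have bm := mle (a := 0) c0 4 (show 0 + 4 ≤ m by omega)
  have bi := mle (a := 0) c0 0 (show 0 + 0 ≤ i by omega)
  have ci := mle c0 3 (show i + 3 ≤ m by omega)
  refine ⟨[(m * c + p - i * c - 2 * c, m * c + p + tp + m - i * c - 2 * c - j),
      (m * c + 2 * p - i * c - 2 * c, m * c + p - i * c - c),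
      (m * c + p + tp + m - i * c - c - j, m * c + 2 * p - i * c - c)],
    ?_, ?_, ?_, KG_cc c0 m2 fun b b2 d0 dm => ?_⟩
  · simp only [Srt]; omega
  · simp only [len]; omega
  · simp only [chb, pt_n, wKL, e0, e1, e2, e3, e4, e5, e6, e7]
    abel
  · clear e0 e1 e2 e3 e4 e5 e6 e7
    have d := cmp c0 b (m - i)
    rw [sub_mul] at d
    rcases d with d | d | d | d | d | d | d
    · exact cc_out (by simp only [mem, or_false]; omega) (by simp only [mem, or_false]; omega)
    · exact cc_out (by simp only [mem, or_false]; omega) (by simp only [mem, or_false]; omega)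
    · exact cc_in (Or.inl ⟨by omega, by omega⟩) (Or.inl ⟨by omega, by omega⟩)
    · exact cc_out (by simp only [mem, or_false]; omega) (by simp only [mem, or_false]; omega)
    · exact cc_out (by simp only [mem, or_false]; omega) (by simp only [mem, or_false]; omega)
    · exact cc_out (by simp only [mem, or_false]; omega) (by simp only [mem, or_false]; omega)
    · exact cc_out (by simp only [mem, or_false]; omega) (by simp only [mem, or_false]; omega)

theorem K_lp {n : ℕ} {p tp m c j : ℤ}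
    (H : (n : ℤ) = m * c + 2 * tp + 1 ∧ c = 2 * p + m ∧ m % 2 = 0 ∧
      4 ≤ m ∧ m ≤ tp ∧ tp + m + 1 ≤ p ∧ p + m + 1 ≤ 2 * tp)
    (r0 : 0 ≤ j) (r1 : j < m - 1) (r2 : j % 2 = 1) :
    Row n c (KG p tp m c) (wKP n p tp m c j - wKL n p tp m c (m - 2 - j) j) := by
  obtain ⟨hn, hc, m2, m4, h1, h2, h3⟩ := H
  have c0 : 0 ≤ c := by omega
  have e0 : pt n (p + tp + 1 + (m - 1 - j) + (m - 1 - ((m - j))) * c) = pt n (j * c + p + tp + m - c - j) :=
    ptc (0) (by ring)
  have e1 : pt n (p + tp + 1 + (m - 1 - j) + (j - 1) * c) = pt n (j * c + p + tp + m - c - j) :=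
    ptc (0) (by ring)
  have e2 : pt n (tp + m - (m - 1)) = pt n (tp + 1) :=
    ptc (0) (by ring)
  have e3 : pt n (p + tp + 1 + m + (m - 1 - ((m - j))) * c) = pt n (j * c + p + tp + m + 1 - c) :=
    ptc (0) (by ring)
  have e4 : pt n (2 * tp + 1 + p + (m - 1 - ((m - j))) * c) = pt n (j * c + p + 2 * tp + 1 - c) :=
    ptc (0) (by ring)
  have e5 : pt n (2 * tp + 1 + p + (j - 1) * c) = pt n (j * c + p + 2 * tp + 1 - c) :=
    ptc (0) (by ring)
  have e6 : pt n (2 * tp + 1 + p + ((j + 1) - 1) * c) = pt n (j * c + p + 2 * tp + 1) :=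
    ptc (0) (by ring)
  have e7 : pt n (p + j + j * c + 1) = pt n (j * c + p + j + 1) :=
    ptc (0) (by ring)
  have e8 : pt n (p + j + j * c) = pt n (j * c + p + j) :=
    ptc (0) (by ring)
  have e9 : pt n (p + tp + 1 + (m - j) + (j - 1) * c) = pt n (j * c + p + tp + m + 1 - c - j) :=
    ptc (0) (by ring)
  have e10 : pt n (p + tp + 1 + (m - 1 - j) + (m - 1 - ((m - 2 - j))) * c) = pt n (j * c + c + p + tp + m - j) :=
    ptc (0) (by ring)
  have e11 : pt n (p + (m - 1 - ((m - 2 - j))) * c) = pt n (j * c + c + p) :=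
    ptc (0) (by ring)
  have e12 : pt n (2 * p + (m - 1 - ((m - 2 - j))) * c) = pt n (j * c + c + 2 * p) :=
    ptc (0) (by ring)
  have e13 : pt n (2 * tp + 1 + p + (m - 1) * c) = pt n (m * c + p + 2 * tp + 1 - c) :=
    ptc (0) (by ring)
  have e14 : pt n (p - tp + m - 1 - j) = pt n (p + m - tp - j - 1) :=
    ptc (0) (by ring)
  have bm := mle (a := 0) c0 4 (show 0 + 4 ≤ m by omega)
  have bj := mle (a := 0) c0 1 (show 0 + 1 ≤ j by omega)
  have cj := mle c0 3 (show j + 3 ≤ m by omega)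
  refine ⟨[(p + m - tp - j - 1, tp - j),
      (tp + 1, tp + m - j),
      (p, 2 * tp - j),
      (j * c + p + tp + m + 1 - c - j, j * c + p + tp + m + 1 - c),
      (j * c + p + j, j * c + p + j + 1),
      (j * c + p + 2 * tp + 1, j * c + c + p),
      (j * c + c + p + tp + m - j, j * c + c + 2 * p),
      (m * c + p + 2 * tp + 1 - c, n - tp)],
    ?_, ?_, ?_, KG_cc c0 m2 fun b b2 d0 dm => ?_⟩
  · simp only [Srt]; omega
  · simp only [len]; omega
  · simp only [chb, pt_n, wKL, wKU, wKP, e0, e1, e2, e3, e4, e5, e6, e7, e8, e9, e10, e11, e12, e13, e14]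
    abel
  · clear e0 e1 e2 e3 e4 e5 e6 e7 e8 e9 e10 e11 e12 e13 e14
    have d := cmp2 c0 b j (by omega)
    rcases d with d | d | d | d | d
    · rcases d0 with d0 | d0
      · exact cc_b (Or.inr (Or.inr (Or.inl ⟨by omega, by omega⟩))) (Or.inr (Or.inr (Or.inl ⟨by omega, by omega⟩))) (by simp only [mem, or_false]; omega)
      · exact cc_out (by simp only [mem, or_false]; omega) (by simp only [mem, or_false]; omega)
    · rcases d0 with d0 | d0
      · exact cc_b (Or.inr (Or.inr (Or.inl ⟨by omega, by omega⟩))) (Or.inr (Or.inr (Or.inl ⟨by omega, by omega⟩))) (by simp only [mem, or_false]; omega)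
      · exact cc_out (by simp only [mem, or_false]; omega) (by simp only [mem, or_false]; omega)
    · rcases d0 with d0 | d0
      · exact cc_in (Or.inr (Or.inr (Or.inr (Or.inl ⟨by omega, by omega⟩)))) (Or.inr (Or.inr (Or.inl ⟨by omega, by omega⟩)))
      · exact cc_a (Or.inr (Or.inr (Or.inr (Or.inl ⟨by omega, by omega⟩)))) (Or.inr (Or.inr (Or.inr (Or.inr (Or.inl ⟨by omega, by omega⟩))))) (by simp only [mem, or_false]; omega)
    · exact cc_out (by simp only [mem, or_false]; omega) (by simp only [mem, or_false]; omega)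
    · exact cc_out (by simp only [mem, or_false]; omega) (by simp only [mem, or_false]; omega)

theorem K_rs {n : ℕ} {p tp m c j : ℤ}
    (H : (n : ℤ) = m * c + 2 * tp + 1 ∧ c = 2 * p + m ∧ m % 2 = 0 ∧
      4 ≤ m ∧ m ≤ tp ∧ tp + m + 1 ≤ p ∧ p + m + 1 ≤ 2 * tp)
    (r0 : 0 ≤ j) (r1 : j < m) (r2 : j % 2 = 1) :
    Row n c (KG p tp m c) (wKS n p tp m c j - wKL n p tp m c (m - 1 - j) (j - 1)) := by
  obtain ⟨hn, hc, m2, m4, h1, h2, h3⟩ := H
  have c0 : 0 ≤ c := by omega
  have e0 : pt n (p + tp + 1 + (m - 1 - ((j - 1))) + (m - 1 - ((m - 1 - j))) * c) = pt n (j * c + p + tp + m + 1 - j) :=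
    ptc (0) (by ring)
  have e1 : pt n (p + tp + 1 + (m - j) + j * c) = pt n (j * c + p + tp + m + 1 - j) :=
    ptc (0) (by ring)
  have e2 : pt n (p + (m - 1 - ((m - 1 - j))) * c) = pt n (j * c + p) :=
    ptc (0) (by ring)
  have e3 : pt n (2 * p + (m - 1 - ((m - 1 - j))) * c) = pt n (j * c + 2 * p) :=
    ptc (0) (by ring)
  have e4 : pt n (2 * tp + 1 + p + (m - 1) * c) = pt n (m * c + p + 2 * tp + 1 - c) :=
    ptc (0) (by ring)
  have e5 : pt n (p - tp + m - 1 - ((j - 1))) = pt n (p + m - tp - j) :=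
    ptc (0) (by ring)
  have e6 : pt n (tp + m - ((j - 1))) = pt n (tp + m + 1 - j) :=
    ptc (0) (by ring)
  have e7 : pt n (tp + m - (j - 1)) = pt n (tp + m + 1 - j) :=
    ptc (0) (by ring)
  have e8 : pt n (tp + m - ((j + 1) - 1)) = pt n (tp + m - j) :=
    ptc (0) (by ring)
  have e9 : pt n (tp + j * c - j + c) = pt n (j * c + c + tp - j) :=
    ptc (0) (by ring)
  have e10 : pt n (tp + j * c - j) = pt n (j * c + tp - j) :=
    ptc (0) (by ring)
  have e11 : pt n (p + tp + 1 + (m - 1 - j) + j * c) = pt n (j * c + p + tp + m - j) :=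
    ptc (0) (by ring)
  have bm := mle (a := 0) c0 4 (show 0 + 4 ≤ m by omega)
  have bj := mle (a := 0) c0 1 (show 0 + 1 ≤ j by omega)
  have cj := mle c0 1 (show j + 1 ≤ m by omega)
  refine ⟨[(tp + m - j, tp + m + 1 - j),
      (j * c + tp - j, j * c + p + tp + m - j),
      (j * c + p + tp + m + 1 - j, j * c + c + tp - j)],
    ?_, ?_, ?_, KG_cc c0 m2 fun b b2 d0 dm => ?_⟩
  · simp only [Srt]; omega
  · simp only [len]; omega
  · simp only [chb, pt_n, wKL, wKS, e0, e1, e2, e3, e4, e5, e6, e7, e8, e9, e10, e11]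
    abel
  · clear e0 e1 e2 e3 e4 e5 e6 e7 e8 e9 e10 e11
    have d := cmp2 c0 b j (by omega)
    rcases d with d | d | d | d | d
    · exact cc_out (by simp only [mem, or_false]; omega) (by simp only [mem, or_false]; omega)
    · exact cc_out (by simp only [mem, or_false]; omega) (by simp only [mem, or_false]; omega)
    · exact cc_out (by simp only [mem, or_false]; omega) (by simp only [mem, or_false]; omega)
    · exact cc_out (by simp only [mem, or_false]; omega) (by simp only [mem, or_false]; omega)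
    · exact cc_out (by simp only [mem, or_false]; omega) (by simp only [mem, or_false]; omega)

theorem K_pq {n : ℕ} {p tp m c j : ℤ}
    (H : (n : ℤ) = m * c + 2 * tp + 1 ∧ c = 2 * p + m ∧ m % 2 = 0 ∧
      4 ≤ m ∧ m ≤ tp ∧ tp + m + 1 ≤ p ∧ p + m + 1 ≤ 2 * tp)
    (r0 : 0 ≤ j) (r1 : j < m) (r2 : j % 2 = 1) :
    Row n c (KG p tp m c) (wKU n p tp m c (m - j) j - wKP n p tp m c j) := by
  obtain ⟨hn, hc, m2, m4, h1, h2, h3⟩ := H
  have c0 : 0 ≤ c := by omega
  have e0 : pt n (p + tp + 1 + (m - 1 - j) + (m - 1 - ((m - j))) * c) = pt n (j * c + p + tp + m - c - j) :=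
    ptc (0) (by ring)
  have e1 : pt n (p + tp + 1 + (m - 1 - j) + (j - 1) * c) = pt n (j * c + p + tp + m - c - j) :=
    ptc (0) (by ring)
  have e2 : pt n (tp + m - (m - 1)) = pt n (tp + 1) :=
    ptc (0) (by ring)
  have e3 : pt n (p + tp + 1 + m + (m - 1 - ((m - j))) * c) = pt n (j * c + p + tp + m + 1 - c) :=
    ptc (0) (by ring)
  have e4 : pt n (2 * tp + 1 + p + (m - 1 - ((m - j))) * c) = pt n (j * c + p + 2 * tp + 1 - c) :=
    ptc (0) (by ring)
  have e5 : pt n (2 * tp + 1 + p + (j - 1) * c) = pt n (j * c + p + 2 * tp + 1 - c) :=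
    ptc (0) (by ring)
  have e6 : pt n (2 * tp + 1 + p + ((j + 1) - 1) * c) = pt n (j * c + p + 2 * tp + 1) :=
    ptc (0) (by ring)
  have e7 : pt n (p + j + j * c + 1) = pt n (j * c + p + j + 1) :=
    ptc (0) (by ring)
  have e8 : pt n (p + j + j * c) = pt n (j * c + p + j) :=
    ptc (0) (by ring)
  have e9 : pt n (p + tp + 1 + (m - j) + (j - 1) * c) = pt n (j * c + p + tp + m + 1 - c - j) :=
    ptc (0) (by ring)
  have bm := mle (a := 0) c0 4 (show 0 + 4 ≤ m by omega)
  have bj := mle (a := 0) c0 1 (show 0 + 1 ≤ j by omega)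
  have cj := mle c0 1 (show j + 1 ≤ m by omega)
  refine ⟨[(j * c + p + tp + m - c - j, j * c + p + tp + m + 1 - c - j),
      (j * c + p + 2 * tp + 1 - c, j * c + p + j),
      (j * c + p + j + 1, j * c + p + 2 * tp + 1)],
    ?_, ?_, ?_, KG_cc c0 m2 fun b b2 d0 dm => ?_⟩
  · simp only [Srt]; omega
  · simp only [len]; omega
  · simp only [chb, pt_n, wKU, wKP, e0, e1, e2, e3, e4, e5, e6, e7, e8, e9]
    abel
  · clear e0 e1 e2 e3 e4 e5 e6 e7 e8 e9
    have d := cmp2 c0 b j (by omega)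
    rcases d with d | d | d | d | d
    · exact cc_out (by simp only [mem, or_false]; omega) (by simp only [mem, or_false]; omega)
    · exact cc_out (by simp only [mem, or_false]; omega) (by simp only [mem, or_false]; omega)
    · exact cc_out (by simp only [mem, or_false]; omega) (by simp only [mem, or_false]; omega)
    · exact cc_out (by simp only [mem, or_false]; omega) (by simp only [mem, or_false]; omega)
    · exact cc_out (by simp only [mem, or_false]; omega) (by simp only [mem, or_false]; omega)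

theorem K_uu {n : ℕ} {p tp m c i j : ℤ}
    (H : (n : ℤ) = m * c + 2 * tp + 1 ∧ c = 2 * p + m ∧ m % 2 = 0 ∧
      4 ≤ m ∧ m ≤ tp ∧ tp + m + 1 ≤ p ∧ p + m + 1 ≤ 2 * tp)
    (r0 : i + 1 < m) (r1 : j < m) (r2 : m - 1 < i + j) :
    Row n c (KG p tp m c) (wKU n p tp m c (i + 1) j - wKU n p tp m c i j) := by
  obtain ⟨hn, hc, m2, m4, h1, h2, h3⟩ := H
  have c0 : 0 ≤ c := by omega
  have e0 : pt n (p + tp + 1 + (m - 1 - j) + (m - 1 - ((i + 1))) * c) = pt n (m * c + p + tp + m - i * c - 2 * c - j) :=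
    ptc (0) (by ring)
  have e1 : pt n (tp + m - (m - 1)) = pt n (tp + 1) :=
    ptc (0) (by ring)
  have e2 : pt n (p + tp + 1 + m + (m - 1 - ((i + 1))) * c) = pt n (m * c + p + tp + m + 1 - i * c - 2 * c) :=
    ptc (0) (by ring)
  have e3 : pt n (2 * tp + 1 + p + (m - 1 - ((i + 1))) * c) = pt n (m * c + p + 2 * tp + 1 - i * c - 2 * c) :=
    ptc (0) (by ring)
  have e4 : pt n (p + tp + 1 + (m - 1 - j) + (m - 1 - i) * c) = pt n (m * c + p + tp + m - i * c - c - j) :=
    ptc (0) (by ring)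
  have e5 : pt n (p + tp + 1 + m + (m - 1 - i) * c) = pt n (m * c + p + tp + m + 1 - i * c - c) :=
    ptc (0) (by ring)
  have e6 : pt n (2 * tp + 1 + p + (m - 1 - i) * c) = pt n (m * c + p + 2 * tp + 1 - i * c - c) :=
    ptc (0) (by ring)
  have bm := mle (a := 0) c0 4 (show 0 + 4 ≤ m by omega)
  have bi := mle (a := 0) c0 1 (show 0 + 1 ≤ i by omega)
  have ci := mle c0 2 (show i + 2 ≤ m by omega)
  refine ⟨[(m * c + p + tp + m - i * c - 2 * c - j, m * c + p + tp + m + 1 - i * c - 2 * c),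
      (m * c + p + 2 * tp + 1 - i * c - 2 * c, m * c + p + tp + m - i * c - c - j),
      (m * c + p + tp + m + 1 - i * c - c, m * c + p + 2 * tp + 1 - i * c - c)],
    ?_, ?_, ?_, KG_cc c0 m2 fun b b2 d0 dm => ?_⟩
  · simp only [Srt]; omega
  · simp only [len]; omega
  · simp only [chb, pt_n, wKU, e0, e1, e2, e3, e4, e5, e6]
    abel
  · clear e0 e1 e2 e3 e4 e5 e6
    have d := cmp c0 b (m - i)
    rw [sub_mul] at d
    rcases d with d | d | d | d | d | d | d
    · exact cc_out (by simp only [mem, or_false]; omega) (by simp only [mem, or_false]; omega)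
    · exact cc_out (by simp only [mem, or_false]; omega) (by simp only [mem, or_false]; omega)
    · exact cc_a (Or.inl ⟨by omega, by omega⟩) (Or.inr (Or.inl ⟨by omega, by omega⟩)) (by simp only [mem, or_false]; omega)
    · exact cc_b (Or.inr (Or.inl ⟨by omega, by omega⟩)) (Or.inr (Or.inl ⟨by omega, by omega⟩)) (by simp only [mem, or_false]; omega)
    · exact cc_out (by simp only [mem, or_false]; omega) (by simp only [mem, or_false]; omega)
    · exact cc_out (by simp only [mem, or_false]; omega) (by simp only [mem, or_false]; omega)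
    · exact cc_out (by simp only [mem, or_false]; omega) (by simp only [mem, or_false]; omega)

theorem K_r1 {n : ℕ} {p tp m c j : ℤ}
    (H : (n : ℤ) = m * c + 2 * tp + 1 ∧ c = 2 * p + m ∧ m % 2 = 0 ∧
      4 ≤ m ∧ m ≤ tp ∧ tp + m + 1 ≤ p ∧ p + m + 1 ≤ 2 * tp)
    (r0 : 1 ≤ j) (r1 : j < m) :
    Row n c (KG p tp m c) (pt n (p - tp + m - 1 - j) - wKU n p tp m c (m - 1) j) := by
  obtain ⟨hn, hc, m2, m4, h1, h2, h3⟩ := H
  have c0 : 0 ≤ c := by omega
  have e0 : pt n (p - tp + m - 1 - j) = pt n (p + m - tp - j - 1) :=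
    ptc (0) (by ring)
  have e1 : pt n (p + tp + 1 + (m - 1 - j) + (m - 1 - ((m - 1))) * c) = pt n (p + tp + m - j) :=
    ptc (0) (by ring)
  have e2 : pt n (tp + m - (m - 1)) = pt n (tp + 1) :=
    ptc (0) (by ring)
  have e3 : pt n (p + tp + 1 + m + (m - 1 - ((m - 1))) * c) = pt n (p + tp + m + 1) :=
    ptc (0) (by ring)
  have e4 : pt n (2 * tp + 1 + p + (m - 1 - ((m - 1))) * c) = pt n (p + 2 * tp + 1) :=
    ptc (0) (by ring)
  have bm := mle (a := 0) c0 4 (show 0 + 4 ≤ m by omega)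
  refine ⟨[(0, p + m - tp - j - 1),
      (tp - j, tp + 1),
      (2 * tp - j, p + tp + m - j),
      (p + tp + m + 1, p + 2 * tp + 1),
      (n - tp, n)],
    ?_, ?_, ?_, KG_cc c0 m2 fun b b2 d0 dm => ?_⟩
  · simp only [Srt]; omega
  · simp only [len]; omega
  · simp only [chb, pt_n, wKU, e0, e1, e2, e3, e4]
    abel
  · clear e0 e1 e2 e3 e4
    exact cc_out (by simp only [mem, or_false]; omega) (by simp only [mem, or_false]; omega)

theorem K_ra {n : ℕ} {p tp m c j : ℤ}
    (H : (n : ℤ) = m * c + 2 * tp + 1 ∧ c = 2 * p + m ∧ m % 2 = 0 ∧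
      4 ≤ m ∧ m ≤ tp ∧ tp + m + 1 ≤ p ∧ p + m + 1 ≤ 2 * tp)
    (r0 : 3 ≤ j) (r1 : j < m) (r2 : j % 2 = 1) :
    Row n c (KG p tp m c) (wKU n p tp m c (m - j + 1) (j - 1) - wKS n p tp m c j + (pt n (tp + j * c - j + c)
      - pt n (tp + j * c - j) - (pt n (tp + j * c - j + 1) - pt n (tp + j * c - j + 1 - c)))) := by
  obtain ⟨hn, hc, m2, m4, h1, h2, h3⟩ := H
  have c0 : 0 ≤ c := by omega
  have e0 : pt n (p + tp + 1 + (m - 1 - ((j - 1))) + (m - 1 - ((m - j + 1))) * c) = pt n (j * c + p + tp + m + 1 - 2 * c - j) :=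
    ptc (0) (by ring)
  have e1 : pt n (tp - ((j - 1))) = pt n (tp + 1 - j) :=
    ptc (0) (by ring)
  have e2 : pt n (2 * tp - ((j - 1))) = pt n (2 * tp + 1 - j) :=
    ptc (0) (by ring)
  have e3 : pt n (tp + m - (m - 1)) = pt n (tp + 1) :=
    ptc (0) (by ring)
  have e4 : pt n (p + tp + 1 + m + (m - 1 - ((m - j + 1))) * c) = pt n (j * c + p + tp + m + 1 - 2 * c) :=
    ptc (0) (by ring)
  have e5 : pt n (2 * tp + 1 + p + (m - 1 - ((m - j + 1))) * c) = pt n (j * c + p + 2 * tp + 1 - 2 * c) :=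
    ptc (0) (by ring)
  have e6 : pt n (p + tp + 1 + (m - 1 - ((j - 1))) + (m - 1 - ((m - 1 - j))) * c) = pt n (j * c + p + tp + m + 1 - j) :=
    ptc (0) (by ring)
  have e7 : pt n (p + tp + 1 + (m - j) + j * c) = pt n (j * c + p + tp + m + 1 - j) :=
    ptc (0) (by ring)
  have e8 : pt n (p + (m - 1 - ((m - 1 - j))) * c) = pt n (j * c + p) :=
    ptc (0) (by ring)
  have e9 : pt n (2 * p + (m - 1 - ((m - 1 - j))) * c) = pt n (j * c + 2 * p) :=
    ptc (0) (by ring)
  have e10 : pt n (2 * tp + 1 + p + (m - 1) * c) = pt n (m * c + p + 2 * tp + 1 - c) :=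
    ptc (0) (by ring)
  have e11 : pt n (p - tp + m - 1 - ((j - 1))) = pt n (p + m - tp - j) :=
    ptc (0) (by ring)
  have e12 : pt n (tp + m - ((j - 1))) = pt n (tp + m + 1 - j) :=
    ptc (0) (by ring)
  have e13 : pt n (tp + m - (j - 1)) = pt n (tp + m + 1 - j) :=
    ptc (0) (by ring)
  have e14 : pt n (tp + m - ((j + 1) - 1)) = pt n (tp + m - j) :=
    ptc (0) (by ring)
  have e15 : pt n (tp + j * c - j + c) = pt n (j * c + c + tp - j) :=
    ptc (0) (by ring)
  have e16 : pt n (tp + j * c - j) = pt n (j * c + tp - j) :=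
    ptc (0) (by ring)
  have e17 : pt n (p + tp + 1 + (m - 1 - j) + j * c) = pt n (j * c + p + tp + m - j) :=
    ptc (0) (by ring)
  have e18 : pt n (tp + j * c - j + 1) = pt n (j * c + tp + 1 - j) :=
    ptc (0) (by ring)
  have e19 : pt n (tp + j * c - j + 1 - c) = pt n (j * c + tp + 1 - c - j) :=
    ptc (0) (by ring)
  have bm := mle (a := 0) c0 4 (show 0 + 4 ≤ m by omega)
  have bj := mle (a := 0) c0 3 (show 0 + 3 ≤ j by omega)
  have cj := mle c0 1 (show j + 1 ≤ m by omega)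
  refine ⟨[(p + m - tp - j, tp + 1 - j),
      (tp + 1, tp + m - j),
      (p, 2 * tp + 1 - j),
      (j * c + p + tp + m + 1 - 2 * c - j, j * c + p + tp + m + 1 - 2 * c),
      (j * c + p + 2 * tp + 1 - 2 * c, j * c + tp + 1 - c - j),
      (j * c + tp + 1 - j, j * c + p),
      (j * c + p + tp + m - j, j * c + 2 * p),
      (m * c + p + 2 * tp + 1 - c, n - tp)],
    ?_, ?_, ?_, KG_cc c0 m2 fun b b2 d0 dm => ?_⟩
  · simp only [Srt]; omega
  · simp only [len]; omega
  · simp only [chb, pt_n, wKL, wKU, wKS, e0, e1, e2, e3, e4, e5, e6, e7, e8, e9, e10, e11, e12, e13, e14, e15, e16, e17, e18, e19]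
    abel
  · clear e0 e1 e2 e3 e4 e5 e6 e7 e8 e9 e10 e11 e12 e13 e14 e15 e16 e17 e18 e19
    have d := cmp2 c0 b j (by omega)
    rcases d with d | d | d | d | d
    · rcases d0 with d0 | d0
      · exact cc_b (Or.inr (Or.inr (Or.inl ⟨by omega, by omega⟩))) (Or.inr (Or.inr (Or.inl ⟨by omega, by omega⟩))) (by simp only [mem, or_false]; omega)
      · exact cc_out (by simp only [mem, or_false]; omega) (by simp only [mem, or_false]; omega)
    · rcases d0 with d0 | d0
      · exact cc_b (Or.inr (Or.inr (Or.inl ⟨by omega, by omega⟩))) (Or.inr (Or.inr (Or.inl ⟨by omega, by omega⟩))) (by simp only [mem, or_false]; omega)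
      · exact cc_out (by simp only [mem, or_false]; omega) (by simp only [mem, or_false]; omega)
    · exact cc_out (by simp only [mem, or_false]; omega) (by simp only [mem, or_false]; omega)
    · exact cc_out (by simp only [mem, or_false]; omega) (by simp only [mem, or_false]; omega)
    · exact cc_out (by simp only [mem, or_false]; omega) (by simp only [mem, or_false]; omega)

theorem K_ra1 {n : ℕ} {p tp m c j : ℤ}
    (H : (n : ℤ) = m * c + 2 * tp + 1 ∧ c = 2 * p + m ∧ m % 2 = 0 ∧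
      4 ≤ m ∧ m ≤ tp ∧ tp + m + 1 ≤ p ∧ p + m + 1 ≤ 2 * tp)
    (ej : j = 1) :
    Row n c (KG p tp m c) (pt n (p - tp + m - 1 - (j - 1)) - wKS n p tp m c j + (pt n (tp + j * c - j + c)
      - pt n (tp + j * c - j) - (pt n (tp + j * c - j + 1) - (pt n p + pt n (n - p)
      - pt n (n - tp))))) := by
  obtain ⟨hn, hc, m2, m4, h1, h2, h3⟩ := H
  have c0 : 0 ≤ c := by omega
  have e0 : pt n (p - tp + m - 1 - (j - 1)) = pt n (p + m - tp - 1) :=
    ptc (0) (by linear_combination (-1 + 0 * c) * ej)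
  have e1 : pt n (p - tp + m - 1 - ((j - 1))) = pt n (p + m - tp - 1) :=
    ptc (0) (by linear_combination (-1 + 0 * c) * ej)
  have e2 : pt n (p + tp + 1 + (m - 1 - ((j - 1))) + (m - 1 - ((m - 1 - j))) * c) = pt n (c + p + tp + m) :=
    ptc (0) (by linear_combination (-1 + 1 * c) * ej)
  have e3 : pt n (p + tp + 1 + (m - j) + j * c) = pt n (c + p + tp + m) :=
    ptc (0) (by linear_combination (-1 + 1 * c) * ej)
  have e4 : pt n (p + (m - 1 - ((m - 1 - j))) * c) = pt n (c + p) :=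
    ptc (0) (by linear_combination (0 + 1 * c) * ej)
  have e5 : pt n (2 * p + (m - 1 - ((m - 1 - j))) * c) = pt n (c + 2 * p) :=
    ptc (0) (by linear_combination (0 + 1 * c) * ej)
  have e6 : pt n (2 * tp + 1 + p + (m - 1) * c) = pt n (m * c + p + 2 * tp + 1 - c) :=
    ptc (0) (by ring)
  have e7 : pt n (tp + m - ((j - 1))) = pt n (tp + m) :=
    ptc (0) (by linear_combination (-1 + 0 * c) * ej)
  have e8 : pt n (tp + m - (j - 1)) = pt n (tp + m) :=
    ptc (0) (by linear_combination (-1 + 0 * c) * ej)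
  have e9 : pt n (tp + m - ((j + 1) - 1)) = pt n (tp + m - 1) :=
    ptc (0) (by linear_combination (-1 + 0 * c) * ej)
  have e10 : pt n (tp + j * c - j + c) = pt n (2 * c + tp - 1) :=
    ptc (0) (by linear_combination (-1 + 1 * c) * ej)
  have e11 : pt n (tp + j * c - j) = pt n (c + tp - 1) :=
    ptc (0) (by linear_combination (-1 + 1 * c) * ej)
  have e12 : pt n (p + tp + 1 + (m - 1 - j) + j * c) = pt n (c + p + tp + m - 1) :=
    ptc (0) (by linear_combination (-1 + 1 * c) * ej)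
  have e13 : pt n (tp + j * c - j + 1) = pt n (c + tp) :=
    ptc (0) (by linear_combination (-1 + 1 * c) * ej)
  have bm := mle (a := 0) c0 4 (show 0 + 4 ≤ m by omega)
  refine ⟨[(0, tp + m - 1),
      (c + tp, c + p),
      (c + p + tp + m - 1, c + 2 * p),
      (m * c + p + 2 * tp + 1 - c, n - p),
      (n - tp, n)],
    ?_, ?_, ?_, KG_cc c0 m2 fun b b2 d0 dm => ?_⟩
  · simp only [Srt]; omega
  · simp only [len]; omega
  · simp only [chb, pt_n, wKL, wKS, e0, e1, e2, e3, e4, e5, e6, e7, e8, e9, e10, e11, e12, e13]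
    abel
  · clear e0 e1 e2 e3 e4 e5 e6 e7 e8 e9 e10 e11 e12 e13
    exact cc_out (by simp only [mem, or_false]; omega) (by simp only [mem, or_false]; omega)

end Pool.Agent.P.MP_009630_co
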