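import Pool.Agent.P.MP_009630_co.RowG
import Pool.Agent.P.MP_009630_co.RowK

set_option autoImplicit false

namespace Pool.Agent.P.MP_009630_co

/-- The values on the fixed class. -/
def wKF (n : ℕ) (p tp m c i j : ℤ) : V n :=
  if i + j < m - 1 then wKL n p tp m c i j else if m - 1 < i + j then wKU n p tp m c i j
  else if j % 2 = 1 then wKP n p tp m c j else wKS n p tp m c (j + 1)

theorem main_K {n : ℕ} [NeZero n] (M : Mdl n) {p tp m : ℤ} (hk : M.k = 0) (he : M.e = 0)
    (hl : M.lam ≠ 0)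
    (H : (n : ℤ) = m * M.c + 2 * tp + 1 ∧ M.c = 2 * p + m ∧ m % 2 = 0 ∧
      4 ≤ m ∧ m ≤ tp ∧ tp + m + 1 ≤ p ∧ p + m + 1 ≤ 2 * tp)
    (hp : M.Pos p tp) (g0 : M.Neg 1 M.c) (hr : M.Pos (p + tp + 1 + m) (p - tp + m - 1))
    (h0 : M.Zer (p + tp + 1) (p + tp + 1 + m - 1))
    (hZ : ∀ q q', M.Z q → M.Z q' → M.lam ∣ q - q') : Sol n M.c (-1) M.lam := by
  have H' := H
  obtain ⟨hn, hc, m2, m4, h1, h2, h3⟩ := H
  have c0 : 0 ≤ M.c := by omega
  have bm := mle (a := 0) c0 4 (show 0 + 4 ≤ m by omega)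
  obtain ⟨J, Jp, Jo, J0, hJ⟩ := M.exists_J (pt n p + pt n (n - p)) p tp 0
    (pt n p + pt n (n - p) - pt n (n - tp))
    (-pt n 0 + pt n M.c + (pt n p + pt n (n - p)) - pt n (p + M.c))
    (pt n tp + pt n (n - 1) - pt n (tp - 1)) (by omega) (by omega) (by omega)
    fun z => wKF n p tp m M.c ((z - (p + tp + 1)) % M.c) ((z - (p + tp + 1)) / M.c)
  replace hJ : M.Gen J (pt n p + pt n (n - p)) p tp 0
    fun z => wKF n p tp m M.c ((z - (p + tp + 1)) % M.c) ((z - (p + tp + 1)) / M.c) := hJ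
  replace Jp := Jp (by omega) (by omega)
  have g1 : M.Neg tp (n - p) := hp.rot (by omega)
  have g2 : M.Pos (n - p) (n - tp) := g1.rot (by omega)
  have g3 : M.Neg (n - tp) p := g2.rot (by omega)
  have g4 : M.Pos (n - (p + tp + 1 + m)) (n - (p - tp + m - 1)) :=
    (hr.rot (z' := n - (p + tp + 1 + m)) (by omega)).rot (by omega)
  have g5 : M.Pos M.c (n - 1) := g0.rot (by omega)
  obtain ⟨hK, hG, hS⟩ := KG_facts hn hc m2 m4 h1 h2
  obtain ⟨hC, sqN, rowN⟩ := Mdl.base_un hk he hJ (J0 le_rfl (by omega)) (Jo (by omega) (by omega))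
    Jp hp g0 (Or.inr (g3.sh 0 (-m) (by linear_combination (-1) * hn) (by omega))) hK hG hS
    (by omega) fun t t0 t1 => by
      have b1 := mle (a := 0) c0 1 (show 0 + 1 ≤ t - p by omega)
      have b2 := mle c0 1 (show t - p + 1 ≤ m by omega)
      exact ⟨tp + (t - p) * M.c, by omega, by omega, hp.sh (t - p) 0 (by ring) (by ring)⟩
  have hF : ∀ i j, 0 ≤ i → i < m → 0 ≤ j → j < m →
      J (pt n (p + tp + 1 + i + j * M.c)) = wKF n p tp m M.c i j := fun i j =>
    Mdl.Gen.grid (d0 := 2 * tp + 1) hJ h0 (by omega) (by omega) (by omega) (by omega)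
      (hp.nz (by omega) (by omega)) (g1.nz (by omega) (by omega)) le_rfl
  have FL : ∀ i j, i + j < m - 1 → wKF n p tp m M.c i j = wKL n p tp m M.c i j := fun i j h => by
    rw [wKF, if_pos h]
  have FU : ∀ i j, m - 1 < i + j → wKF n p tp m M.c i j = wKU n p tp m M.c i j := fun i j h => by
    rw [wKF, if_neg (by omega), if_pos h]
  have FP : ∀ i j, i + j = m - 1 → j % 2 = 1 → wKF n p tp m M.c i j = wKP n p tp m M.c j :=
    fun i j h h' => by rw [wKF, if_neg (by omega), if_neg (by omega), if_pos h']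
  have FS : ∀ i j, i + j = m → j % 2 = 1 → wKF n p tp m M.c i (j - 1) = wKS n p tp m M.c j :=
    fun i j h h' => by
      rw [wKF, if_neg (by omega), if_neg (by omega), if_neg (by omega), sub_add_cancel]
  have vn := hJ.pos g2 (by omega)
  have vt := hJ.neg (s := n - p) g3 (by omega)
  have vr : ∀ k : ℤ, 0 ≤ k → k + 1 ≤ m →
      J (pt n (p + tp + 1 + m + k * M.c)) = pt n (p - tp + m - 1 - k) ∧
      J (pt n (p - tp + m - 1 - k)) = pt n p + pt n (n - p) - pt n (p + tp + 1 + m + k * M.c) := fun k k0 k1 => by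
    have b1 := mle (a := 0) c0 0 (show 0 + 0 ≤ k by omega)
    have b2 := mle c0 1 k1
    have g : M.Pos (p + tp + 1 + m + k * M.c) (p - tp + m - 1 - k) :=
      hr.sh (0) (k) (by ring) (by ring)
    have v := hJ.pos g (by omega)
    exact ⟨v, (congrArg J v).symm.trans (sqN _ (by omega) (by omega) (g.nz (by omega) (by omega)))⟩
  have vl : ∀ k : ℤ, 0 ≤ k → k + 1 ≤ m →
      J (pt n (p + tp + 1 - 1 + k * M.c)) = pt n (n - p + tp - k) ∧
      J (pt n (n - p + tp - k)) = pt n p + pt n (n - p) - pt n (p + tp + 1 - 1 + k * M.c) := fun k k0 k1 => by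
    have b1 := mle (a := 0) c0 0 (show 0 + 0 ≤ k by omega)
    have b2 := mle c0 1 k1
    have g : M.Pos (p + tp + 1 - 1 + k * M.c) (n - p + tp - k) :=
      g4.sh (0) (k + 1 - m) (by linear_combination (-1) * hn + (-1) * hc) (by ring)
    have v := hJ.pos g (by omega)
    exact ⟨v, (congrArg J v).symm.trans (sqN _ (by omega) (by omega) (g.nz (by omega) (by omega)))⟩
  have ve : ∀ k : ℤ, 1 ≤ k → k + 1 ≤ m →
      J (pt n (p + k + k * M.c)) = pt n (tp + k * M.c - k) ∧
      J (pt n (tp + k * M.c - k)) = pt n p + pt n (n - p) - pt n (p + k + k * M.c) := fun k k0 k1 => by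
    have b1 := mle (a := 0) c0 1 (show 0 + 1 ≤ k by omega)
    have b2 := mle c0 1 k1
    have g : M.Pos (p + k + k * M.c) (tp + k * M.c - k) :=
      hp.sh (k) (k) (by ring) (by ring)
    have v := hJ.pos g (by omega)
    exact ⟨v, (congrArg J v).symm.trans (sqN _ (by omega) (by omega) (g.nz (by omega) (by omega)))⟩
  have vf : ∀ k : ℤ, 1 ≤ k → k + 1 ≤ m →
      J (pt n (p + k + k * M.c + 1)) = pt n (tp + k * M.c - k + M.c) ∧
      J (pt n (tp + k * M.c - k + M.c)) = pt n p + pt n (n - p) - pt n (p + k + k * M.c + 1) := fun k k0 k1 => by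
    have b1 := mle (a := 0) c0 1 (show 0 + 1 ≤ k by omega)
    have b2 := mle c0 1 k1
    have g : M.Pos (p + k + k * M.c + 1) (tp + k * M.c - k + M.c) :=
      hp.sh (k + 1) (k) (by ring) (by ring)
    have v := hJ.pos g (by omega)
    exact ⟨v, (congrArg J v).symm.trans (sqN _ (by omega) (by omega) (g.nz (by omega) (by omega)))⟩
  have vg : ∀ k : ℤ, 1 ≤ k → k + 1 ≤ m →
      J (pt n (p + k + k * M.c - M.c)) = pt n (tp + k * M.c - k + 1) ∧
      J (pt n (tp + k * M.c - k + 1)) = pt n p + pt n (n - p) - pt n (p + k + k * M.c - M.c) := fun k k0 k1 => by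
    have b1 := mle (a := 0) c0 1 (show 0 + 1 ≤ k by omega)
    have b2 := mle c0 1 k1
    have g : M.Pos (p + k + k * M.c - M.c) (tp + k * M.c - k + 1) :=
      hp.sh (k) (k - 1) (by ring) (by ring)
    have v := hJ.pos g (by omega)
    exact ⟨v, (congrArg J v).symm.trans (sqN _ (by omega) (by omega) (g.nz (by omega) (by omega)))⟩
  have vh : ∀ k : ℤ, 1 ≤ k → k + 1 ≤ m →
      J (pt n (p + k + k * M.c - M.c + 1)) = pt n (tp + k * M.c - k + 1 + M.c) ∧
      J (pt n (tp + k * M.c - k + 1 + M.c)) = pt n p + pt n (n - p) - pt n (p + k + k * M.c - M.c + 1) := fun k k0 k1 => by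
    have b1 := mle (a := 0) c0 1 (show 0 + 1 ≤ k by omega)
    have b2 := mle c0 1 k1
    have g : M.Pos (p + k + k * M.c - M.c + 1) (tp + k * M.c - k + 1 + M.c) :=
      hp.sh (k + 1) (k - 1) (by ring) (by ring)
    have v := hJ.pos g (by omega)
    exact ⟨v, (congrArg J v).symm.trans (sqN _ (by omega) (by omega) (g.nz (by omega) (by omega)))⟩
  have vi : ∀ k : ℤ, 2 ≤ k → k + 1 ≤ m →
      J (pt n (p + k + k * M.c - M.c - 1)) = pt n (tp + k * M.c - k + 1 - M.c) ∧
      J (pt n (tp + k * M.c - k + 1 - M.c)) = pt n p + pt n (n - p) - pt n (p + k + k * M.c - M.c - 1) := fun k k0 k1 => by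
    have b1 := mle (a := 0) c0 2 (show 0 + 2 ≤ k by omega)
    have b2 := mle c0 1 k1
    have g : M.Pos (p + k + k * M.c - M.c - 1) (tp + k * M.c - k + 1 - M.c) :=
      hp.sh (k - 1) (k - 1) (by ring) (by ring)
    have v := hJ.pos g (by omega)
    exact ⟨v, (congrArg J v).symm.trans (sqN _ (by omega) (by omega) (g.nz (by omega) (by omega)))⟩
  have vx : ∀ k : ℤ, 1 ≤ k → k + 1 ≤ m →
      J (pt n (p + k * M.c)) = pt n (tp - k) ∧
      J (pt n (tp - k)) = pt n p + pt n (n - p) - pt n (p + k * M.c) := fun k k0 k1 => by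
    have b1 := mle (a := 0) c0 1 (show 0 + 1 ≤ k by omega)
    have b2 := mle c0 1 k1
    have g : M.Pos (p + k * M.c) (tp - k) :=
      hp.sh (0) (k) (by ring) (by ring)
    have v := hJ.pos g (by omega)
    exact ⟨v, (congrArg J v).symm.trans (sqN _ (by omega) (by omega) (g.nz (by omega) (by omega)))⟩
  have vb : ∀ k : ℤ, 1 ≤ k → k + 1 ≤ m →
      J (pt n (2 * p + k * M.c)) = pt n (2 * tp - k) ∧
      J (pt n (2 * tp - k)) = pt n p + pt n (n - p) - pt n (2 * p + k * M.c) := fun k k0 k1 => by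
    have b1 := mle (a := 0) c0 1 (show 0 + 1 ≤ k by omega)
    have b2 := mle c0 1 k1
    have g : M.Pos (2 * p + k * M.c) (2 * tp - k) :=
      g5.sh (-m) (k) (by linear_combination (-1) * hc) (by linear_combination (-1) * hn)
    have v := hJ.pos g (by omega)
    exact ⟨v, (congrArg J v).symm.trans (sqN _ (by omega) (by omega) (g.nz (by omega) (by omega)))⟩
  have vz : ∀ k : ℤ, 0 ≤ k → k + 1 ≤ m →
      J (pt n (2 * tp + 1 + p + k * M.c)) = pt n (tp + m - k) ∧
      J (pt n (tp + m - k)) = pt n p + pt n (n - p) - pt n (2 * tp + 1 + p + k * M.c) := fun k k0 k1 => by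
    have b1 := mle (a := 0) c0 0 (show 0 + 0 ≤ k by omega)
    have b2 := mle c0 1 k1
    have g : M.Pos (2 * tp + 1 + p + k * M.c) (tp + m - k) :=
      g2.sh (-m) (k + 1 - m) (by linear_combination (-1) * hn + (-1) * hc) (by linear_combination (-1) * hn)
    have v := hJ.pos g (by omega)
    exact ⟨v, (congrArg J v).symm.trans (sqN _ (by omega) (by omega) (g.nz (by omega) (by omega)))⟩
  have sLU : ∀ i j, 0 ≤ i → 0 ≤ j → i + j < m - 1 →
      J (wKL n p tp m M.c i j) = pt n p + pt n (n - p) - pt n (p + tp + 1 + i + j * M.c) ∧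
      J (wKU n p tp m M.c (m - 1 - j) (m - 1 - i)) = pt n p + pt n (n - p) -
        pt n (p + tp + 1 + (m - 1 - j) + (m - 1 - i) * M.c) := fun i j i0 j0 h => by
    have a1 := (hF (m - 1 - j) (m - 1 - i) (by omega) (by omega) (by omega) (by omega)).trans
      (FU _ _ (by omega))
    have a2 := (hF i j i0 (by omega) j0 (by omega)).trans (FL _ _ h)
    have a3 := vx (m - 1 - i) (by omega) (by omega)
    have a4 := vb (m - 1 - i) (by omega) (by omega)
    have a5 := vz (m - 1) (by omega) (by omega)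
    have a6 := vr j (by omega) (by omega)
    have a7 := vz j (by omega) (by omega)
    constructor
    · simp only [wKL, map_add, map_sub, a1, a3.1, a4.1, a5.1, a6.2, a7.2, Jp, vn, wKU,
        sub_sub_cancel]
      abel
    · simp only [wKU, sub_sub_cancel, map_add, map_sub, map_neg, a2, a3.2, a4.2, a5.2, a6.1,
        a7.1, Jp, vn, vt, wKL]
      abel
  have sU : ∀ i j, i < m → j < m → m - 1 < i + j →
      J (wKU n p tp m M.c i j) = pt n p + pt n (n - p) - pt n (p + tp + 1 + i + j * M.c) := fun i j i1 j1 h => by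
    have := (sLU (m - 1 - j) (m - 1 - i) (by omega) (by omega) (by omega)).2
    simpa only [sub_sub_cancel] using this
  have sPS : ∀ j, 0 ≤ j → j < m → j % 2 = 1 →
      J (wKP n p tp m M.c j) = pt n p + pt n (n - p) - pt n (p + tp + 1 + (m - 1 - j) + j * M.c) ∧
      J (wKS n p tp m M.c j) = pt n p + pt n (n - p) - pt n (p + tp + 1 + (m - j) + (j - 1) * M.c) := fun j j0 j1 h => by
    have a1 := sU (m - j) j (by omega) j1 (by omega)
    have a2 := (sLU (m - 1 - j) (j - 1) (by omega) (by omega) (by omega)).1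
    have a3 := (hF (m - j) (j - 1) (by omega) (by omega) (by omega) (by omega)).trans
      (FS _ _ (by omega) h)
    have a4 := (hF (m - 1 - j) (j - 1) (by omega) (by omega) (by omega) (by omega)).trans
      (FL _ _ (by omega))
    have a5 := (hF (m - j) j (by omega) (by omega) (by omega) (by omega)).trans
      (FU _ _ (by omega))
    have a6 := (hF (m - 1 - j) j (by omega) (by omega) (by omega) (by omega)).trans
      (FP _ _ (by omega) h)
    have a7 := vz (j + 1 - 1) (by omega) (by omega)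
    have a8 := vz (j - 1) (by omega) (by omega)
    have a9 := ve j (by omega) (by omega)
    have a0 := vf j (by omega) (by omega)
    constructor
    · simp only [wKP, map_add, map_sub, a1, a3, a4, a7.1, a8.1, a9.1, a0.1, wKS]
      abel
    · simp only [wKS, map_add, map_sub, a2, a5, a6, a7.2, a8.2, a9.2, a0.2, wKP]
      abel
  refine Mdl.assemble (d0 := 2 * tp + 1) hK hl h0 hZ (by omega) (by omega) (by omega) (by omega)
    (by omega) hF sqN (fun i j i0 i1 j0 j1 => ?_) rowN (fun j j0 j1 => ?_)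
    (fun i j i0 i1 j0 j1 hz => ?_) (fun j j0 j1 hz => ?_) (fun j hj => ?_) (fun j hj => ?_)
  · rcases (by omega : i + j < m - 1 ∨ m - 1 < i + j ∨ (i = m - 1 - j ∧ j % 2 = 1) ∨
      (i + j = m - 1 ∧ j % 2 = 0)) with h | h | ⟨rfl, h⟩ | ⟨h, h'⟩
    · rw [FL i j h, (sLU i j i0 j0 h).1]
    · rw [FU i j h, sU i j i1 j1 h]
    · rw [FP _ j (by omega) h, (sPS j j0 j1 h).1]
    · obtain ⟨k, rfl⟩ : ∃ k, j = k - 1 := ⟨j + 1, by ring⟩
      obtain rfl : i = m - k := by omega
      rw [FS _ k (by omega) (by omega), (sPS k (by omega) (by omega) (by omega)).2]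
  · rw [(vl j j0 (by omega)).1]
    rcases (by omega : j < m - 1 ∨ j = m - 1) with h | h
    · rw [FL 0 j (by omega)]
      exact K_l1 H' j0 h
    · rw [FP 0 j (by omega) (by omega)]
      exact K_l2 H' h
  · rcases (by omega : i + 1 + j < m - 1 ∨ m - 1 < i + j ∨ (i = m - 2 - j ∧ j % 2 = 1) ∨
      (i + 1 + j = m - 1 ∧ j % 2 = 0) ∨ (i + j = m - 1 ∧ j % 2 = 1) ∨
      (i + j = m - 1 ∧ j % 2 = 0)) with h | h | ⟨rfl, h⟩ | ⟨h, h'⟩ | ⟨h, h'⟩ | ⟨h, h'⟩
    · rw [FL _ j h, FL i j (by omega)]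
      exact K_ll H' i0 j0 h
    · rw [FU _ j (by omega), FU i j h]
      exact K_uu H' i1 j1 h
    · rw [FP _ j (by omega) h, FL _ j (by omega)]
      exact K_lp H' j0 (by omega) h
    · obtain ⟨k, rfl⟩ : ∃ k, j = k - 1 := ⟨j + 1, by ring⟩
      obtain rfl : i = m - 1 - k := by omega
      rw [FS _ k (by omega) (by omega), FL _ _ (by omega)]
      exact K_rs H' (by omega) (by omega) (by omega)
    · rw [FU _ j (by omega), FP i j h h', show i + 1 = m - j by omega]
      exact K_pq H' j0 j1 h'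
    · refine (hz (j + 1) (KG_mem.2 (by omega)) ?_).elim
      change _ = p + tp + 1 + (m - (j + 1)) + (j + 1 - 1) * M.c
      linear_combination h
  · rcases (by omega : 1 ≤ j ∨ j = 0) with h | h
    · rw [(vr j j0 (by omega)).1, FU _ j (by omega)]
      exact K_r1 H' h j1
    · refine (hz 1 (KG_mem.2 (by omega)) ?_).elim
      change _ = p + tp + 1 + (m - 1) + (1 - 1) * M.c
      linear_combination M.c * h
  · obtain ⟨⟨j0, j1⟩, h⟩ := KG_mem.1 hj
    change Row n M.c _ (J (pt n (p + tp + 1 + (m - j) + (j - 1) * M.c + 1)) -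
      J (pt n (p + tp + 1 + (m - j) + (j - 1) * M.c)) +
      (J (pt n (p + j + j * M.c + 1)) - J (pt n (p + j + j * M.c)) -
        (J (pt n (p + j + j * M.c - M.c - 1 + 1)) - J (pt n (p + j + j * M.c - M.c - 1)))))
    rw [sub_add_cancel, (ve j (by omega) (by omega)).1, (vf j (by omega) (by omega)).1,
      (vg j (by omega) (by omega)).1, hF _ _ (by omega) (by omega) (by omega) (by omega),
      FS _ _ (by omega) h]
    rcases (by omega : 3 ≤ j ∨ j = 1) with h' | h'
    · rw [(vi j (by omega) (by omega)).1, show p + tp + 1 + (m - j) + (j - 1) * M.c + 1 =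
        p + tp + 1 + (m - j + 1) + (j - 1) * M.c by ring,
        hF _ _ (by omega) (by omega) (by omega) (by omega), FU _ _ (by omega)]
      exact K_ra H' h' j1 h
    · rw [show p + j + j * M.c - M.c - 1 = p by linear_combination (1 + M.c) * h', Jp,
        show p + tp + 1 + (m - j) + (j - 1) * M.c + 1 = p + tp + 1 + m + (j - 1) * M.c by linear_combination (-1) * h',
        (vr (j - 1) (by omega) (by omega)).1]
      exact K_ra1 H' h'
  · obtain ⟨⟨j0, j1⟩, h⟩ := KG_mem.1 hj
    change Row n M.c _ (J (pt n (p + j + j * M.c - M.c + 1)) - J (pt n (p + j + j * M.c - M.c)) -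
      (J (pt n (p + j + j * M.c + 1)) - J (pt n (p + j + j * M.c)) -
        (J (pt n (p + j + j * M.c - M.c - 1 + 1)) - J (pt n (p + j + j * M.c - M.c - 1)))))
    rw [sub_add_cancel, (ve j (by omega) (by omega)).1, (vf j (by omega) (by omega)).1,
      (vg j (by omega) (by omega)).1, (vh j (by omega) (by omega)).1]
    rcases (by omega : 3 ≤ j ∨ j = 1) with h' | h'
    · rw [(vi j (by omega) (by omega)).1]
      exact G_rb ⟨hn, hc, m2, m4, h1, h2⟩ h' j1 h
    · rw [show p + j + j * M.c - M.c - 1 = p by linear_combination (1 + M.c) * h', Jp]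
      exact G_rb1 ⟨hn, hc, m2, m4, h1, h2⟩ h'

end Pool.Agent.P.MP_009630_co
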