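import Mathlib

set_option autoImplicit false

namespace Pool.Agent.P.MP_009630_co

section Ring

variable {R : Type} [CommRing R] {i : R}

theorem sign_diag (hi : i * i = -1) (h2 : ∀ a : R, 2 * a = 0 → a = 0) {a : R} (ha : a ≠ 0) :
    a ≠ i * a ∧ a ≠ -(i * a) := by
  constructor
  · intro h
    exact ha (h2 a (by linear_combination (1 + i) * h + a * hi))
  · intro h
    exact ha (h2 a (by linear_combination (1 - i) * h + a * hi))

theorem sign_symm (hi : i * i = -1) {a b : R} (h : a ≠ i * b ∧ a ≠ -(i * b)) :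
    b ≠ i * a ∧ b ≠ -(i * a) := by
  constructor
  · intro h'
    exact h.2 (by linear_combination i * h' + a * hi)
  · intro h'
    exact h.1 (by linear_combination (-i) * h' + a * hi)

theorem sign_base (v : R → ℕ) (hv : Function.Injective v) (hi : i * i = -1)
    (h2 : ∀ a : R, 2 * a = 0 → a = 0) :
    ∃ f : R → Prop, ∀ a, a ≠ 0 → (f (i * a) ↔ ¬ f a) := by
  refine ⟨fun a => min (v a) (v (-a)) < min (v (i * a)) (v (-(i * a))), fun a ha => ?_⟩
  obtain ⟨h3, h4⟩ := sign_diag hi h2 ha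
  have e1 : i * (i * a) = -a := by linear_combination a * hi
  have n1 : v a ≠ v (i * a) := fun h => h3 (hv h)
  have n2 : v a ≠ v (-(i * a)) := fun h => h4 (hv h)
  have n3 : v (-a) ≠ v (i * a) := fun h => h4 (by rw [← hv h, neg_neg])
  have n4 : v (-a) ≠ v (-(i * a)) := fun h => h3 (neg_injective (hv h))
  simp only [e1, neg_neg]
  omega

theorem sign_set (v : R → ℕ) (hv : Function.Injective v) (hi : i * i = -1)
    (h2 : ∀ a : R, 2 * a = 0 → a = 0) (T : Set R)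
    (hT : ∀ s ∈ T, ∀ t ∈ T, s ≠ i * t ∧ s ≠ -(i * t)) :
    ∃ f : R → Prop, (∀ a, a ≠ 0 → (f (i * a) ↔ ¬ f a)) ∧ ∀ t ∈ T, f t := by
  obtain ⟨f, hf⟩ := sign_base v hv hi h2
  refine ⟨fun a => (a ∈ T ∨ -a ∈ T) ∨ (¬ (i * a ∈ T ∨ -(i * a) ∈ T) ∧ f a), fun a ha => ?_,
    fun t ht => Or.inl (Or.inl ht)⟩
  have e1 : i * (i * a) = -a := by linear_combination a * hi
  have h3 : (a ∈ T ∨ -a ∈ T) → ¬ (i * a ∈ T ∨ -(i * a) ∈ T) := by
    rintro (h | h) (h' | h')
    · exact (hT _ h' _ h).1 rfl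
    · exact (hT _ h' _ h).2 rfl
    · exact (hT _ h' _ h).2 (by ring)
    · exact (hT _ h' _ h).1 (by ring)
  have h4 := hf a ha
  simp only [e1, neg_neg]
  tauto

theorem sign_ring_G (v : R → ℕ) (hv : Function.Injective v) (hi : i * i = -1)
    (h2 : ∀ a : R, 2 * a = 0 → a = 0) (h1 : (1 : R) ≠ 0) (h3 : (3 : R) ≠ 0)
    (h5 : (5 : R) = 0 → i = -2) :
    ∃ f : R → Prop, (∀ a, a ≠ 0 → (f (i * a) ↔ ¬ f a)) ∧ f 2 ∧ ¬ f (1 + i) ∧ f i := by
  have z2 : (2 : R) ≠ 0 := fun h => h1 (h2 1 (by rw [h, zero_mul]))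
  have za : (1 + i : R) ≠ 0 := fun h => z2 (by linear_combination (1 - i) * h + hi)
  have zb : i * (1 + i) ≠ 0 := fun h => za (by linear_combination (-i) * h + (1 + i) * hi)
  have zi : i ≠ 0 := fun h => h1 (by linear_combination (-i) * h + hi)
  have p1 : (2 : R) ≠ i * (i * (1 + i)) ∧ (2 : R) ≠ -(i * (i * (1 + i))) := by
    constructor
    · intro h
      have e : i = -3 := by linear_combination h + (1 + i) * hi
      have e5 := h5 (h2 5 (by linear_combination hi + (3 - i) * e))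
      exact h1 (by linear_combination e - e5)
    · intro h
      have e : i = 1 := by linear_combination -h + (1 + i) * hi
      exact z2 (by linear_combination hi - (1 + i) * e)
  have p2 : (2 : R) ≠ i * i ∧ (2 : R) ≠ -(i * i) :=
    ⟨fun h => h3 (by linear_combination h + hi), fun h => h1 (by linear_combination h - hi)⟩
  have p3 : i * (1 + i) ≠ i * i ∧ i * (1 + i) ≠ -(i * i) := by
    constructor
    · intro h
      exact zi (by linear_combination h)
    · intro h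
      have e : i = 2 := by linear_combination h - 2 * hi
      have e5 := h5 (by linear_combination hi - (i + 2) * e)
      exact z2 (h2 2 (by linear_combination e5 - e))
  obtain ⟨f, hf, hT⟩ := sign_set v hv hi h2 {2, i * (1 + i), i} (by
    rintro s (rfl | rfl | rfl) t (rfl | rfl | rfl)
    exacts [sign_diag hi h2 z2, p1, p2, sign_symm hi p1, sign_diag hi h2 zb, p3, sign_symm hi p2,
      sign_symm hi p3, sign_diag hi h2 zi])
  exact ⟨f, hf, hT _ (by simp), (hf _ za).1 (hT _ (by simp)), hT _ (by simp)⟩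

theorem sign_ring_E (v : R → ℕ) (hv : Function.Injective v) (hi : i * i = -1)
    (h2 : ∀ a : R, 2 * a = 0 → a = 0) (h1 : (1 : R) ≠ 0) (h5 : (5 : R) = 0 → i = -3) :
    ∃ f : R → Prop, (∀ a, a ≠ 0 → (f (i * a) ↔ ¬ f a)) ∧ ¬ f 2 ∧ ¬ f (1 + i) := by
  have z2 : (2 : R) ≠ 0 := fun h => h1 (h2 1 (by rw [h, zero_mul]))
  have za : (1 + i : R) ≠ 0 := fun h => z2 (by linear_combination (1 - i) * h + hi)
  have zb : i * (1 + i) ≠ 0 := fun h => za (by linear_combination (-i) * h + (1 + i) * hi)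
  have zc : i * 2 ≠ 0 := fun h => z2 (by linear_combination (-i) * h + 2 * hi)
  have p1 : i * 2 ≠ i * (i * (1 + i)) ∧ i * 2 ≠ -(i * (i * (1 + i))) := by
    constructor
    · intro h
      have e : 3 * i = -1 := by linear_combination h + (1 + i) * hi
      have e0 : (5 : R) = 0 := h2 5 (by linear_combination 9 * hi + (1 - 3 * i) * e)
      have e5 := h5 e0
      exact h1 (by linear_combination 6 * e5 - 2 * e - 3 * e0)
    · intro h
      have e : i = 1 := by linear_combination h - (1 + i) * hi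
      exact z2 (by linear_combination hi - (1 + i) * e)
  obtain ⟨f, hf, hT⟩ := sign_set v hv hi h2 {i * 2, i * (1 + i)} (by
    rintro s (rfl | rfl) t (rfl | rfl)
    exacts [sign_diag hi h2 zc, p1, sign_symm hi p1, sign_diag hi h2 zb])
  exact ⟨f, hf, (hf _ z2).1 (hT _ (by simp)), (hf _ za).1 (hT _ (by simp))⟩

end Ring

theorem sign_facts {n : ℕ} {c : ℤ} (ho : Odd (n : ℤ)) (h3 : 3 ≤ (n : ℤ))
    (hd : (n : ℤ) ∣ c * c + 1) :
    (-(c : ZMod n)) * (-(c : ZMod n)) = -1 ∧ (∀ a : ZMod n, 2 * a = 0 → a = 0) ∧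
      (1 : ZMod n) ≠ 0 ∧ (3 : ZMod n) ≠ 0 ∧ ((5 : ZMod n) = 0 → (n : ℤ) = 5) := by
  have key : ∀ k : ℕ, (k : ZMod n) = 0 → 0 < k → n ∣ k ∧ n ≤ k := fun k hk h0 =>
    ⟨(ZMod.natCast_eq_zero_iff k n).1 hk, Nat.le_of_dvd h0 ((ZMod.natCast_eq_zero_iff k n).1 hk)⟩
  refine ⟨?_, fun a ha => ?_, fun h => ?_, fun h => ?_, fun h => ?_⟩
  · have := (ZMod.intCast_zmod_eq_zero_iff_dvd _ n).2 hd
    push_cast at this
    linear_combination this
  · obtain ⟨m, hm⟩ := ho
    have h1 : ((n : ℤ) : ZMod n) = 0 := by simp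
    rw [hm] at h1
    push_cast at h1
    linear_combination a * h1 - (m : ZMod n) * ha
  · have := (key 1 (by simpa using h) one_pos).2
    omega
  · have h4 := (key 3 (by simpa using h) (by norm_num)).2
    obtain rfl : n = 3 := by omega
    have h5 : c % 3 = 0 ∨ c % 3 = 1 ∨ c % 3 = 2 := by omega
    have h6 : (c * c + 1) % 3 = 0 := Int.emod_eq_zero_of_dvd hd
    rcases h5 with h | h | h <;> simp [Int.add_emod, Int.mul_emod, h] at h6
  · obtain ⟨h4, h5⟩ := key 5 (by simpa using h) (by norm_num)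
    have h6 : n = 3 ∨ n = 4 ∨ n = 5 := by omega
    rcases h6 with rfl | rfl | rfl
    · omega
    · omega
    · rfl

theorem sign_G {lam c : ℤ} (ho : Odd lam) (h3 : 3 ≤ lam) (hd : lam ∣ c * c + 1)
    (h5 : lam = 5 → (5:ℤ) ∣ c - 2) :
    ∃ sg : ℤ → Prop, (∀ a j, sg (a + lam * j) ↔ sg a) ∧
      (∀ a, ¬ lam ∣ a → (sg (-c * a) ↔ ¬ sg a)) ∧ sg 2 ∧ ¬ sg (1 - c) ∧ sg (-c) := by
  obtain ⟨n, rfl⟩ := Int.eq_ofNat_of_zero_le (by omega : 0 ≤ lam)
  have : NeZero n := ⟨by omega⟩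
  obtain ⟨f1, f2, f3, f4, f5⟩ := sign_facts ho h3 hd
  obtain ⟨f, g1, g2, g3, g4⟩ := sign_ring_G ZMod.val (ZMod.val_injective n) f1 f2 f3 f4 fun h => by
    have h6 := h5 (f5 h)
    rw [← f5 h] at h6
    have h7 := (ZMod.intCast_zmod_eq_zero_iff_dvd _ n).2 h6
    push_cast at h7
    linear_combination -h7
  refine ⟨fun a => f (a : ZMod n), fun a j => by simp, fun a ha => ?_, by simpa using g2,
    by simpa [sub_eq_add_neg] using g3, by simpa using g4⟩
  have := g1 a (fun h => ha ((ZMod.intCast_zmod_eq_zero_iff_dvd _ n).1 h))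
  simpa using this

theorem sign_E {lam c : ℤ} (ho : Odd lam) (h3 : 3 ≤ lam) (hd : lam ∣ c * c + 1)
    (h5 : lam = 5 → (5:ℤ) ∣ c - 3) :
    ∃ sg : ℤ → Prop, (∀ a j, sg (a + lam * j) ↔ sg a) ∧
      (∀ a, ¬ lam ∣ a → (sg (-c * a) ↔ ¬ sg a)) ∧ ¬ sg 2 ∧ ¬ sg (1 - c) := by
  obtain ⟨n, rfl⟩ := Int.eq_ofNat_of_zero_le (by omega : 0 ≤ lam)
  have : NeZero n := ⟨by omega⟩
  obtain ⟨f1, f2, f3, -, f5⟩ := sign_facts ho h3 hd
  obtain ⟨f, g1, g2, g3⟩ := sign_ring_E ZMod.val (ZMod.val_injective n) f1 f2 f3 fun h => by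
    have h6 := h5 (f5 h)
    rw [← f5 h] at h6
    have h7 := (ZMod.intCast_zmod_eq_zero_iff_dvd _ n).2 h6
    push_cast at h7
    linear_combination -h7
  refine ⟨fun a => f (a : ZMod n), fun a j => by simp, fun a ha => ?_, by simpa using g2,
    by simpa [sub_eq_add_neg] using g3⟩
  have := g1 a (fun h => ha ((ZMod.intCast_zmod_eq_zero_iff_dvd _ n).1 h))
  simpa using this

end Pool.Agent.P.MP_009630_co
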