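import Pool.Agent.P.MP_009630_co.MainG
import Pool.Agent.P.MP_009630_co.MainK
import Pool.Agent.P.MP_009630_co.MainE
import Pool.Agent.P.MP_009630_co.Sign
import Pool.Agent.P.MP_009630_co.Arith

set_option autoImplicit false

namespace Pool.Agent.P.MP_009630_co

theorem dvd_half {l L a : ℤ} (hl : l = 2 * L + 1) (h : l ∣ 2 * a) : l ∣ a := by
  obtain ⟨w, hw⟩ := h
  exact ⟨a - L * w, by linear_combination (-a) * hl - L * hw⟩

/-- The model for even slope, with one fixed class. -/
def evenM (n : ℕ) (c l L k e r q0 w : ℤ) (σ : ℤ → Prop) (hc : c * c + 1 = l * n)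
    (hk : (c + 1) * k + e = n * (r + 1)) (hl : l = 2 * L + 1) (hw : r - (c + 1) * q0 = l * w)
    (s1 : ∀ a j, σ (a + l * j) ↔ σ a) (s2 : ∀ a, ¬ l ∣ a → (σ (-c * a) ↔ ¬ σ a)) : Mdl n where
  c := c
  lam := l
  k := k
  e := e
  r := r
  sg := fun q => σ (2 * (q - q0))
  Z := fun q => l ∣ q - q0
  hc := hc
  hk := hk
  sper := fun q j => by
    rw [show 2 * (q + l * j - q0) = 2 * (q - q0) + l * (2 * j) by ring, s1]
  zper := fun q j => by
    rw [show q + l * j - q0 = q - q0 + l * j by ring]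
    exact dvd_add_left (Dvd.intro _ rfl)
  rot := fun q hq => by
    refine ⟨fun ⟨u, hu⟩ => hq ⟨n * (q - q0) + c * u - c * w, ?_⟩, ?_⟩
    · linear_combination (q - q0) * hc + c * hu - c * hw
    · rw [show 2 * (r - c * q - q0) = -c * (2 * (q - q0)) + l * (2 * w) by
        linear_combination 2 * hw, s1]
      exact s2 _ fun h => hq (dvd_half hl h)

theorem not_dvd_small {l a : ℤ} (h3 : 3 ≤ l) (ha : a = 1 ∨ a = 2) : ¬ l ∣ a := fun h => by
  have := Int.le_of_dvd (by omega) h
  omega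

theorem sol_even (n : ℕ) (c l : ℤ) (hc : c * c + 1 = l * n) (c0 : 0 < c) (ce : c % 2 = 0)
    (l2 : 2 ≤ l) (h3 : 3 * c < n) : Sol n c (-1) l := by
  have : NeZero n := ⟨by omega⟩
  obtain ⟨⟨l3, lo⟩, H⟩ := params_even hc c0 ce l2 h3
  have hd : l ∣ c * c + 1 := ⟨n, hc⟩
  obtain ⟨L, hL⟩ := id lo
  have n2 : ∀ a j, 2 * a = 1 - c + l * j ∨ 2 * a = -c + l * j → ¬ l ∣ a := fun a j ha g => by
    have g1 : l ∣ 2 * a - l * j := dvd_sub (g.mul_left _) (Dvd.intro _ rfl)
    rcases ha with ha | ha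
    · refine not_dvd_small l3 (Or.inr rfl) ?_
      rw [show (2 : ℤ) = c * c + 1 + (2 * a - l * j) * (c + 1) by
        linear_combination (-(c + 1)) * ha]
      exact dvd_add hd (g1.mul_right _)
    · refine not_dvd_small l3 (Or.inl rfl) ?_
      rw [show (1 : ℤ) = c * c + 1 + (2 * a - l * j) * c by linear_combination (-c) * ha]
      exact dvd_add hd (g1.mul_right _)
  have hZ : ∀ q0 q q' : ℤ, l ∣ q - q0 → l ∣ q' - q0 → l ∣ q - q' := fun q0 q q' a b => by
    rw [show q - q' = q - q0 - (q' - q0) by ring]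
    exact dvd_sub a b
  rcases H with ⟨p, tp, m, h5, hn, hp, m2, m4, h1, h2, h3⟩ | ⟨h, U, m, h5, hn, hp, m2, m3, h1, h2⟩
  · obtain ⟨σ, s1, s2, s3, s4, s5⟩ := sign_G lo l3 hd h5
    set M := evenM n c l L 0 0 (-1) (p - (m - 1) * L) (-(p + tp + 1)) σ hc (by ring) hL
      (by
        have : 2 * (-1 - (c + 1) * (p - (m - 1) * L)) = 2 * (l * -(p + tp + 1)) := by
          linear_combination (-1) * hc - l * hn + (c + 1 - l) * hp - (c + 1) * (m - 1) * hL
        omega) s1 s2 with hM
    have e0 : c * (p + tp + 1) + 0 = n * (p - (m - 1) * L) + (p + tp + 1 + m - 1) := by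
      have : 2 * (c * (p + tp + 1) + 0) =
          2 * (n * (p - (m - 1) * L) + (p + tp + 1 + m - 1)) := by
        linear_combination (1 - m) * hc + (1 - c) * hn + (n + 1 - c) * hp - (m - 1) * n * hL
      omega
    have a1 : M.Pos p tp := ⟨L, by
      change c * p + 0 = _
      have : 2 * (c * p + 0) = 2 * (n * L + tp) := by
        linear_combination hc + hn - c * hp + n * hL
      omega, n2 _ m (Or.inr (by linear_combination hp - m * hL)), by
      change σ (2 * (L - (p - (m - 1) * L)))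
      rw [show 2 * (L - (p - (m - 1) * L)) = -c + l * m by linear_combination hp - m * hL, s1]
      exact s5⟩
    have a2 : M.Neg 1 M.c := ⟨0, by change c * 1 + 0 = n * 0 + c; ring,
      n2 _ (m - 1) (Or.inl (by linear_combination hp - (m - 1) * hL)), by
      change ¬ σ (2 * (0 - (p - (m - 1) * L)))
      rw [show 2 * (0 - (p - (m - 1) * L)) = 1 - c + l * (m - 1) by
        linear_combination hp - (m - 1) * hL, s1]
      exact s4⟩
    have a3 : M.Pos (p + tp + 1 + m) (p - tp + m - 1) := ⟨p - (m - 1) * L + 1, by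
      change c * (p + tp + 1 + m) + 0 = _
      linear_combination e0 - hn, not_dvd_small l3 (Or.inl (by ring)), by
      change σ (2 * (p - (m - 1) * L + 1 - (p - (m - 1) * L)))
      rw [show 2 * (p - (m - 1) * L + 1 - (p - (m - 1) * L)) = 2 by ring]
      exact s3⟩
    have a4 : M.Zer (p + tp + 1) (p + tp + 1 + m - 1) :=
      ⟨p - (m - 1) * L, e0, by change l ∣ _; simp⟩
    rcases h3 with h3 | h3
    · exact main_G M rfl rfl (by change l ≠ 0; omega) ⟨hn, hp, m2, m4, h1, h2, h3⟩ a1 a2 a3 a4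
        (hZ _)
    · exact main_K M rfl rfl (by change l ≠ 0; omega) ⟨hn, hp, m2, m4, h1, h2, h3⟩ a1 a2 a3 a4
        (hZ _)
  · obtain ⟨σ, s1, s2, s3, s4⟩ := sign_E lo l3 hd h5
    obtain ⟨μ, rfl⟩ : ∃ μ, m = 2 * μ + 1 := ⟨m / 2, by omega⟩
    obtain ⟨q, hq⟩ : ∃ q : ℤ, (n : ℤ) = 2 * q + 1 :=
      ⟨(2 * μ + 1) * h + h - μ - 1 - U, by linear_combination hn + (2 * μ + 1) * hp⟩
    set M := evenM n c l L (h + q) 1 (L + h) h (-q) σ hc
      (by
        have : 2 * ((c + 1) * (h + q) + 1) = 2 * (n * (L + h + 1)) := by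
          linear_combination hc + n * hL + (n - c - 1) * hp - (c + 1) * hq
        omega) hL
      (by
        have : 2 * (L + h - (c + 1) * h) = 2 * (l * -q) := by
          linear_combination (-1) * hc - hL + c * hp - l * hq
        omega) s1 s2 with hM
    have e0 : c * (2 * h - (2 * μ + 1) - U) + (h + q) =
        n * (h - l * μ) + (2 * h - (2 * μ + 1) - U + (2 * μ + 1) - 1) := by
      have : 2 * (c * (2 * h - (2 * μ + 1) - U) + (h + q)) =
          2 * (n * (h - l * μ) + (2 * h - (2 * μ + 1) - U + (2 * μ + 1) - 1)) := by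
        linear_combination (-2 * μ) * hc + (1 - c) * hn + (n - c) * hp - hq
      omega
    have a1 : M.Neg h (h - 1) := ⟨L + 1, by
      change c * h + (h + q) = _
      have : 2 * (c * h + (h + q)) = 2 * (n * (L + 1) + (h - 1)) := by
        linear_combination hc - c * hp + n * hL - hq
      omega, n2 _ 1 (Or.inl (by linear_combination hp - hL)), by
      change ¬ σ (2 * (L + 1 - h))
      rw [show 2 * (L + 1 - h) = 1 - c + l * 1 by linear_combination hp - hL, s1]
      exact s4⟩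
    have a2 : M.Neg (2 * h - (2 * μ + 1) - U + (2 * μ + 1)) (U + (2 * μ + 1) - 1) :=
      ⟨h - l * μ + 1, by
      change c * (2 * h - (2 * μ + 1) - U + (2 * μ + 1)) + (h + q) = _
      linear_combination e0 - hn, fun g => not_dvd_small l3 (Or.inl rfl) (by
        rw [show (1 : ℤ) = h - l * μ + 1 - h + l * μ by ring]
        exact dvd_add g (Dvd.intro _ rfl)), by
      change ¬ σ (2 * (h - l * μ + 1 - h))
      rw [show 2 * (h - l * μ + 1 - h) = 2 + l * (-2 * μ) by ring, s1]
      exact s3⟩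
    have a3 : M.Zer (2 * h - (2 * μ + 1) - U) (2 * h - (2 * μ + 1) - U + (2 * μ + 1) - 1) :=
      ⟨h - l * μ, e0, ⟨-μ, by ring⟩⟩
    exact main_E M (by change 2 * (h + q) = c + n - 1; omega) rfl (by change l ≠ 0; omega)
      ⟨hn, hp, m2, m3, h1, h2⟩ a1 a2 a3 (hZ _)

end Pool.Agent.P.MP_009630_co
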