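import Pool.Agent.P.MP_009630_co.Frame

set_option autoImplicit false

open Finset Matrix

namespace Pool.Agent.P.MP_009630_co

variable {n : ℕ} [NeZero n]

omit [NeZero n] in
theorem single_eq_pt (z : ℤ) : (Pi.single (z : ZMod n) 1 : V n) = pt n z := by
  funext y
  simp [pt, Pi.single_apply]

theorem const_of_bd {f : V n} (h : bd n f = 0) (y : ZMod n) : f y = f 0 := by
  have h1 : ∀ k : ℕ, f (k : ZMod n) = f 0 := by
    intro k
    induction k with
    | zero => simp
    | succ k ih =>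
      have := congrFun h ((k + 1 : ℕ) : ZMod n)
      simp only [bd, LinearMap.coe_mk, AddHom.coe_mk, Nat.cast_add, Nat.cast_one,
        add_sub_cancel_right, Pi.zero_apply] at this
      rw [Nat.cast_add, Nat.cast_one, ← ih]
      linarith
  have := h1 y.val
  rwa [ZMod.natCast_zmod_val] at this

/-- A matrix that represents `J` on boundaries has square `l J - I`. -/
theorem sq_of_bd (J : V n →ₗ[ℤ] V n) (C : V n) {c l : ℤ} (hc : c * c + 1 = l * n)
    (hJ : ∀ z : ℤ, J (J (pt n z)) = C - pt n z) (G : Matrix (ZMod n) (ZMod n) ℤ)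
    (hG : ∀ z : ℤ, bd n (G z) = J (pt n (z + 1)) - J (pt n z)) (hs : ∀ r, ∑ s, G r s = c) :
    G * G = -1 + l • Matrix.of (fun _ _ => (1 : ℤ)) := by
  have h1 : ∀ f : V n, bd n (f ᵥ* G) = J (bd n f) := by
    intro f
    have e : (bd n).comp (Matrix.vecMulLinear G) = J.comp (bd n) := by
      refine LinearMap.pi_ext fun r a => ?_
      obtain ⟨z, -, -, rfl⟩ := exists_rep r
      have e1 : (Pi.single (z : ZMod n) a : V n) = a • pt n z := by
        rw [← single_eq_pt, ← Pi.single_smul, smul_eq_mul, mul_one]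
      rw [e1, map_smul, map_smul]
      congr 1
      simp only [LinearMap.comp_apply, Matrix.vecMulLinear_apply]
      rw [bd_pt, map_sub, ← hG, ← single_eq_pt, Matrix.single_one_vecMul]
      rfl
    exact LinearMap.congr_fun e f
  ext r s
  obtain ⟨z, -, -, rfl⟩ := exists_rep r
  have h2 : bd n (G z ᵥ* G + pt n z) = 0 := by
    rw [map_add, h1, hG, map_sub, hJ, hJ, bd_pt]
    abel
  have h3 := const_of_bd h2
  have h4 : ∑ y, (G z ᵥ* G + pt n z) y = c * c + 1 := by
    simp only [Pi.add_apply, sum_add_distrib, sum_pt, Matrix.vecMul, dotProduct]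
    rw [sum_comm]
    simp only [← mul_sum, hs, ← sum_mul]
  rw [sum_congr rfl fun y _ => h3 y, sum_const, card_univ, ZMod.card, nsmul_eq_mul, hc,
    mul_comm] at h4
  have h5 := mul_right_cancel₀ (show (n : ℤ) ≠ 0 by exact_mod_cast NeZero.ne n) h4
  have h6 := h3 s
  rw [h5] at h6
  simp only [Pi.add_apply, pt] at h6
  have e : (G * G) z s = (G z ᵥ* G) s := rfl
  simp only [e, Matrix.add_apply, Matrix.neg_apply, Matrix.one_apply, Matrix.smul_apply,
    Matrix.of_apply, smul_eq_mul, mul_one, eq_comm (a := (z : ZMod n))]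
  linarith

theorem sol_of_mat {c l : ℤ} (hl : l ≠ 0) (A : Matrix (ZMod n) (ZMod n) ℤ)
    (h01 : ∀ r s, A r s = 0 ∨ A r s = 1) (hs : ∀ r, ∑ s, A r s = c)
    (hA : A * A = -1 + l • Matrix.of (fun _ _ => (1 : ℤ))) : Sol n c (-1) l := by
  have hcol : ∀ s, ∑ r, A r s = c := by
    intro s
    have e : A * (A * A) = (A * A) * A := (Matrix.mul_assoc _ _ _).symm
    rw [hA, Matrix.mul_add, Matrix.add_mul, Matrix.mul_neg, Matrix.neg_mul, Matrix.mul_one,
      Matrix.one_mul, Matrix.mul_smul, Matrix.smul_mul] at e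
    have e1 := add_left_cancel e
    have e2 := congrFun (congrFun e1 s) s
    simp only [Matrix.smul_apply, Matrix.mul_apply, Matrix.of_apply, mul_one, one_mul,
      smul_eq_mul, hs] at e2
    exact (mul_left_cancel₀ hl e2).symm
  let e := (ZMod.finEquiv n).toEquiv
  refine ⟨Matrix.of fun i k => A (e i) (e k), fun i k => h01 _ _, fun i => ?_, fun k => ?_, ?_⟩
  · simp only [Matrix.of_apply]
    rw [e.sum_comp (fun s => A (e i) s), hs]
  · simp only [Matrix.of_apply]
    rw [e.sum_comp (fun r => A r (e k)), hcol]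
  · ext i k
    have e2 := congrFun (congrFun hA (e i)) (e k)
    simp only [Matrix.mul_apply, Matrix.of_apply, Matrix.add_apply, Matrix.smul_apply,
      Matrix.neg_apply, Matrix.one_apply, smul_eq_mul, mul_one, EmbeddingLike.apply_eq_iff_eq]
      at e2 ⊢
    rw [e.sum_comp (fun s => A (e i) s * A s (e k)), e2]
    split_ifs <;> ring

theorem sum_mul_pt (f : V n) (z : ℤ) : ∑ y, f y * pt n z y = f z := by
  simp [pt]

open Classical in
theorem sol_of (J : V n →ₗ[ℤ] V n) (C : V n) {c l : ℤ} (hc : c * c + 1 = l * n) (hl : l ≠ 0)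
    (K : Blk) (hK : K.Ok n) (hJ : ∀ z : ℤ, 0 ≤ z → z < n → J (J (pt n z)) = C - pt n z)
    (h0 : ∀ z : ℤ, 0 ≤ z → z < n → (∀ j ∈ K.B, z ≠ K.a j) →
      Row n c K (J (pt n (z + 1)) - J (pt n z)))
    (ha : ∀ j ∈ K.B, Row n c K (J (pt n (K.a j + 1)) - J (pt n (K.a j)) +
      (J (pt n (K.e j + 1)) - J (pt n (K.e j)) - (J (pt n (K.x j + 1)) - J (pt n (K.x j))))))
    (hb : ∀ j ∈ K.B, Row n c K (J (pt n (K.b j + 1)) - J (pt n (K.b j)) -
      (J (pt n (K.e j + 1)) - J (pt n (K.e j)) - (J (pt n (K.x j + 1)) - J (pt n (K.x j)))))) :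
    Sol n c (-1) l := by
  obtain ⟨hw, hd⟩ := hK
  have hn : (0 : ℤ) < n := by exact_mod_cast Nat.pos_of_ne_zero (NeZero.ne n)
  have win : ∀ {y z : ℤ}, 0 ≤ y ∧ y < n → 0 ≤ z ∧ z < n →
      pt n y (z : ZMod n) = if z = y then 1 else 0 := fun hy hz =>
    pt_win (w := 0) hy.1 (by omega) hz.1 (by omega)
  have red : ∀ z : ℤ, pt n z = pt n (z % n) := fun z =>
    ptc (z / n) (by rw [mul_comm]; exact (Int.emod_add_mul_ediv z n).symm)
  have hJ' : ∀ z : ℤ, J (J (pt n z)) = C - pt n z := fun z => by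
    rw [red z]
    exact hJ _ (Int.emod_nonneg _ hn.ne') (Int.emod_lt_of_pos _ hn)
  set Δ : ℤ → V n := fun z => J (pt n (z + 1)) - J (pt n z) with hΔ
  have Δc : ∀ y z : ℤ, (y : ZMod n) = z → Δ y = Δ z := by
    intro y z h
    have e1 : pt n y = pt n z := by unfold pt; rw [h]
    have e2 : pt n (y + 1) = pt n (z + 1) := by unfold pt; push_cast; rw [h]
    simp only [hΔ, e1, e2]
  set φ : ℤ → V n := fun j => pt n (K.a j) - pt n (K.b j) with hφ
  set τ : ℤ → V n := fun j => pt n (K.e j) - pt n (K.x j) with hτ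
  have φv : ∀ j ∈ K.B, ∀ z : ℤ, 0 ≤ z ∧ z < n →
      φ j z = (if z = K.a j then 1 else 0) - if z = K.b j then 1 else 0 := fun j hj z hz => by
    simp only [hφ, Pi.sub_apply]
    rw [win (hw j hj).1 hz, win (hw j hj).2.1 hz]
  have τv : ∀ j ∈ K.B, ∀ z : ℤ, 0 ≤ z ∧ z < n →
      τ j z = (if z = K.e j then 1 else 0) - if z = K.x j then 1 else 0 := fun j hj z hz => by
    simp only [hτ, Pi.sub_apply]
    rw [win (hw j hj).2.2.1 hz, win (hw j hj).2.2.2 hz]
  have hrow : ∀ r : ZMod n, ∃ z : ℤ, (z : ZMod n) = r ∧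
      Row n c K (Δ z + ∑ j ∈ K.B, φ j r • (Δ (K.e j) - Δ (K.x j))) := by
    intro r
    obtain ⟨z, z0, z1, rfl⟩ := exists_rep r
    refine ⟨z, rfl, ?_⟩
    by_cases h1 : ∃ j ∈ K.B, z = K.a j
    · obtain ⟨j, hj, rfl⟩ := h1
      rw [sum_eq_single_of_mem j hj, φv j hj _ ⟨z0, z1⟩, if_pos rfl,
        if_neg (hd j hj j hj).2.2.2.2.1, sub_zero, one_smul]
      · exact ha j hj
      · intro k hk hkj
        rw [φv k hk _ ⟨z0, z1⟩, if_neg fun h => hkj ((hd j hj k hk).2.2.2.2.2.2.1 h).symm,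
          if_neg (hd j hj k hk).2.2.2.2.1, sub_zero, zero_smul]
    · by_cases h2 : ∃ j ∈ K.B, z = K.b j
      · obtain ⟨j, hj, rfl⟩ := h2
        rw [sum_eq_single_of_mem j hj, φv j hj _ ⟨z0, z1⟩, if_pos rfl,
          if_neg (hd j hj j hj).2.2.2.2.1.symm, zero_sub, neg_one_smul, ← sub_eq_add_neg]
        · exact hb j hj
        · intro k hk hkj
          rw [φv k hk _ ⟨z0, z1⟩, if_neg (hd k hk j hj).2.2.2.2.1.symm,
            if_neg fun h => hkj ((hd j hj k hk).2.2.2.2.2.2.2.1 h).symm, sub_zero, zero_smul]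
      · rw [sum_eq_zero, add_zero]
        · exact h0 z z0 z1 fun j hj h => h1 ⟨j, hj, h⟩
        · intro k hk
          rw [φv k hk _ ⟨z0, z1⟩, if_neg fun h => h1 ⟨k, hk, h⟩, if_neg fun h => h2 ⟨k, hk, h⟩,
            sub_zero, zero_smul]
  choose zr hzr L hL1 hL2 hL3 hL4 using hrow
  set H : Matrix (ZMod n) (ZMod n) ℤ := Matrix.of fun r => ch n (L r) with hH
  set N : Matrix (ZMod n) (ZMod n) ℤ := Matrix.of fun r s => ∑ j ∈ K.B, φ j r * τ j s with hN
  set E : Matrix (ZMod n) (ZMod n) ℤ := Matrix.of fun _ _ => (1 : ℤ) with hE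
  have NM : ∀ (M : Matrix (ZMod n) (ZMod n) ℤ) r,
      (N * M) r = ∑ j ∈ K.B, φ j r • (M (K.e j) - M (K.x j)) := by
    intro M r
    funext s
    simp only [hN, Matrix.mul_apply, Matrix.of_apply, sum_mul, Finset.sum_apply, Pi.smul_apply,
      Pi.sub_apply, smul_eq_mul]
    rw [sum_comm]
    refine sum_congr rfl fun j _ => ?_
    simp only [hτ, Pi.sub_apply, mul_assoc, ← mul_sum, sub_mul, sum_sub_distrib]
    simp only [mul_comm (pt n _ _), sum_mul_pt (fun y => M y s)]
  have MN : ∀ (M : Matrix (ZMod n) (ZMod n) ℤ) r s,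
      (M * N) r s = ∑ j ∈ K.B, (M r (K.a j) - M r (K.b j)) * τ j s := by
    intro M r s
    simp only [hN, Matrix.mul_apply, Matrix.of_apply, mul_sum]
    rw [sum_comm]
    refine sum_congr rfl fun j _ => ?_
    simp only [hφ, Pi.sub_apply, ← mul_assoc, ← sum_mul, mul_sub, sum_sub_distrib,
      sum_mul_pt (M r)]
  have φe : ∀ j ∈ K.B, ∀ k ∈ K.B, φ k (K.e j) = 0 ∧ φ k (K.x j) = 0 := fun j hj k hk => by
    rw [φv k hk _ (hw j hj).2.2.1, φv k hk _ (hw j hj).2.2.2, if_neg (hd k hk j hj).1.symm,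
      if_neg (hd k hk j hj).2.2.1.symm, if_neg (hd k hk j hj).2.1.symm,
      if_neg (hd k hk j hj).2.2.2.1.symm]
    simp
  have NN : N * N = 0 := by
    funext r
    rw [NM, sum_eq_zero]
    · rfl
    · intro j hj
      have e1 : N (K.e j) = 0 := by
        funext s
        simp only [hN, Matrix.of_apply, Pi.zero_apply]
        exact sum_eq_zero fun k hk => by rw [(φe j hj k hk).1, zero_mul]
      have e2 : N (K.x j) = 0 := by
        funext s
        simp only [hN, Matrix.of_apply, Pi.zero_apply]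
        exact sum_eq_zero fun k hk => by rw [(φe j hj k hk).2, zero_mul]
      rw [e1, e2, sub_zero, smul_zero]
  have NE : N * E = 0 := by
    funext r
    rw [NM, sum_eq_zero]
    · rfl
    · intro j _
      have : E (K.e j) - E (K.x j) = 0 := by funext s; simp [hE]
      rw [this, smul_zero]
  have EN : E * N = 0 := by
    ext r s
    rw [MN, sum_eq_zero]
    · rfl
    · intro j _
      simp [hE]
  have Hs : ∀ r, ∑ s, H r s = c := fun r => by
    simp only [hH, Matrix.of_apply]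
    rw [(hL1 r).sum_ch n, hL2]
  have HE : H * E = c • E := by
    ext r s
    simp [hE, Matrix.mul_apply, Hs]
  have Hb : ∀ z : ℤ, bd n (H z) = Δ z + ∑ j ∈ K.B, φ j z • (Δ (K.e j) - Δ (K.x j)) := fun z => by
    have e : H z = ch n (L z) := rfl
    rw [e, (hL1 _).bd_ch n, hL3, Δc _ _ (hzr _)]
  have GG := sq_of_bd J C hc hJ' ((1 - N) * H) (fun z => by
    have e0 : (H - N * H) z = H z - (N * H) z := rfl
    have e1 : ∑ j ∈ K.B, bd n (φ j z • (H (K.e j) - H (K.x j))) =
        ∑ j ∈ K.B, φ j z • (Δ (K.e j) - Δ (K.x j)) := sum_congr rfl fun j hj => by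
      rw [map_smul, map_sub, Hb, Hb, sum_eq_zero fun k hk => by rw [(φe j hj k hk).1, zero_smul],
        sum_eq_zero fun k hk => by rw [(φe j hj k hk).2, zero_smul], add_zero, add_zero]
    rw [Matrix.sub_mul, Matrix.one_mul, e0, map_sub, NM, map_sum, Hb, e1]
    simp [hΔ]) (fun r => by
    have e : (1 - N) * H * E = c • E := by
      rw [Matrix.mul_assoc, HE, Matrix.mul_smul, Matrix.sub_mul, Matrix.one_mul, NE, sub_zero]
    have := congrFun (congrFun e r) r
    simpa [hE, Matrix.mul_apply (M := (1 - N) * H)] using this)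
  have i1 : (1 + N) * (1 - N) = 1 := by
    rw [Matrix.add_mul, Matrix.one_mul, Matrix.mul_sub, Matrix.mul_one, NN]
    abel
  refine sol_of_mat hl (H * (1 - N)) (fun r s => ?_) (fun r => ?_) ?_
  · have hv : ∀ z : ℤ, 0 ≤ z ∧ z < n → H r z = if mem z (L r) then 1 else 0 := fun z hz =>
      Srt.ch_win (w := 0) hz.1 (by omega) le_rfl (by simpa using hL1 r)
    obtain ⟨z, z0, z1, rfl⟩ := exists_rep s
    rw [Matrix.mul_sub, Matrix.mul_one, Matrix.sub_apply, MN]
    by_cases h1 : ∃ j ∈ K.B, z = K.e j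
    · obtain ⟨j, hj, rfl⟩ := h1
      rw [sum_eq_single_of_mem j hj, τv j hj _ ⟨z0, z1⟩, if_pos rfl,
        if_neg (hd j hj j hj).2.2.2.2.2.1, hv _ ⟨z0, z1⟩, hv _ (hw j hj).1, hv _ (hw j hj).2.1]
      · obtain ⟨c1, c2⟩ := hL4 r j hj
        split_ifs with g1 g2 g3 g4 g5 g6 g7 <;> first | omega | exact absurd (c2 g2 g4).1 (not_not.2 g1) | exact absurd (c1 g5 g6).1 g1
      · intro k hk hkj
        rw [τv k hk _ ⟨z0, z1⟩, if_neg fun h => hkj ((hd j hj k hk).2.2.2.2.2.2.2.2.1 h).symm,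
          if_neg (hd j hj k hk).2.2.2.2.2.1, sub_zero, mul_zero]
    · by_cases h2 : ∃ j ∈ K.B, z = K.x j
      · obtain ⟨j, hj, rfl⟩ := h2
        rw [sum_eq_single_of_mem j hj, τv j hj _ ⟨z0, z1⟩, if_pos rfl,
          if_neg (hd j hj j hj).2.2.2.2.2.1.symm, hv _ ⟨z0, z1⟩, hv _ (hw j hj).1,
          hv _ (hw j hj).2.1]
        · obtain ⟨c1, c2⟩ := hL4 r j hj
          split_ifs with g1 g2 g3 g4 g5 g6 g7 <;> first | omega | exact absurd g1 (c1 g2 g3).2 | exact absurd (c2 g5 g7).2 g1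
        · intro k hk hkj
          rw [τv k hk _ ⟨z0, z1⟩, if_neg (hd k hk j hj).2.2.2.2.2.1.symm,
            if_neg fun h => hkj ((hd j hj k hk).2.2.2.2.2.2.2.2.2 h).symm, sub_zero, mul_zero]
      · rw [sum_eq_zero, sub_zero, hv _ ⟨z0, z1⟩]
        · split_ifs <;> simp
        · intro k hk
          rw [τv k hk _ ⟨z0, z1⟩, if_neg fun h => h1 ⟨k, hk, h⟩, if_neg fun h => h2 ⟨k, hk, h⟩,
            sub_zero, mul_zero]
  · have e : H * (1 - N) * E = c • E := by
      rw [Matrix.mul_assoc, Matrix.sub_mul, Matrix.one_mul, NE, sub_zero, HE]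
    have := congrFun (congrFun e r) r
    simpa [hE, Matrix.mul_apply (M := H * (1 - N))] using this
  · have e1 : H * (1 - N) * (H * (1 - N)) =
        (1 + N) * ((1 - N) * H * ((1 - N) * H)) * (1 - N) := by
      simp only [← Matrix.mul_assoc, i1, Matrix.one_mul]
    rw [e1, GG, Matrix.mul_add, Matrix.add_mul, Matrix.mul_neg, Matrix.mul_one, Matrix.neg_mul,
      i1, Matrix.mul_smul, Matrix.smul_mul, Matrix.add_mul, Matrix.one_mul, NE, add_zero,
      Matrix.mul_sub, Matrix.mul_one, EN, sub_zero]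

end Pool.Agent.P.MP_009630_co
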