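import Pool.Agent.P.MP_009630_co.Switch

set_option autoImplicit false

open Finset

namespace Pool.Agent.P.MP_009630_co

theorem count_one {N : ℕ} [NeZero N] (a : ZMod N) :
    ∑ m ∈ range N, (if (m : ZMod N) = a then (1 : ℤ) else 0) = 1 := by
  rw [sum_eq_single a.val]
  · simp
  · intro m hm hne
    rw [if_neg]
    intro h
    apply hne
    rw [← h, ZMod.val_natCast, Nat.mod_eq_of_lt (mem_range.1 hm)]
  · intro h
    exact absurd (mem_range.2 (ZMod.val_lt a)) h

theorem count_mul {N : ℕ} [NeZero N] (a : ZMod N) (u : ℕ) :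
    ∑ m ∈ range (u * N), (if (m : ZMod N) = a then (1 : ℤ) else 0) = u := by
  induction u with
  | zero => simp
  | succ u ih =>
    rw [Nat.succ_mul, sum_range_add, ih]
    have : ∀ m : ℕ, ((u * N + m : ℕ) : ZMod N) = m := by
      intro m
      push_cast
      simp
    simp only [this, count_one]
    push_cast
    ring

theorem sum_range_sq (c d : ℕ) (f : ℕ → ℤ) :
    ∑ j ∈ range d, ∑ j' ∈ range c, f (c * j + j') = ∑ m ∈ range (c * d), f m := by
  induction d with
  | zero => simp
  | succ d ih => rw [sum_range_succ, ih, Nat.mul_succ, sum_range_add]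

theorem count_sq {N c u : ℕ} [NeZero N] (h : c * c + 1 = u * N) (a : ZMod N) :
    ∑ j ∈ range c, ∑ j' ∈ range c,
      (if ((c : ZMod N) * j + j') = a then (1 : ℤ) else 0) = u - if a = -1 then 1 else 0 := by
  have e1 := sum_range_sq c c (fun m => if (m : ZMod N) = a then (1 : ℤ) else 0)
  have e2 := count_mul a u
  rw [← h, sum_range_succ] at e2
  have e3 : ((c * c : ℕ) : ZMod N) = -1 := by
    have : ((c * c + 1 : ℕ) : ZMod N) = 0 := by rw [h]; push_cast; simp
    push_cast at this ⊢
    linear_combination this
  rw [e3] at e2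
  push_cast at e1
  rw [e1]
  have : (if (-1 : ZMod N) = a then (1 : ℤ) else 0) = if a = -1 then 1 else 0 := by
    simp only [eq_comm]
  linarith

/-- The folded interval with start `t`, read at `k`. -/
def gf (N c : ℕ) (t k : ZMod N) : ℤ :=
  ∑ j ∈ range c, ((if k = t + j then (1 : ℤ) else 0) + (if -1 - k = t + j then 1 else 0))

theorem gf_refl (N c : ℕ) (t k : ZMod N) : gf N c (-c - t) k = gf N c t k := by
  unfold gf
  rw [← sum_range_reflect]
  refine sum_congr rfl fun j hj => ?_
  have hj' := mem_range.1 hj
  have e : ((c - 1 - j : ℕ) : ZMod N) = c - 1 - j := by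
    rw [Nat.cast_sub (by omega), Nat.cast_sub (by omega), Nat.cast_one]
  rw [e, add_comm]
  congr 1
  · apply if_congr _ rfl rfl
    constructor <;> intro h <;> linear_combination -h
  · apply if_congr _ rfl rfl
    constructor <;> intro h <;> linear_combination -h

theorem fold_sum {N n : ℕ} [NeZero N] (hN : n + n = N) (φ : ZMod N → ℤ)
    (hφ : ∀ k, φ (-1 - k) = φ k) (t : ZMod N) :
    ∑ k ∈ range n, ((if (k : ZMod N) = t then (1 : ℤ) else 0)
      + (if -1 - (k : ZMod N) = t then 1 else 0)) * φ k = φ t := by
  have e1 : ∀ k : ℕ, ((if (k : ZMod N) = t then (1 : ℤ) else 0)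
      + (if -1 - (k : ZMod N) = t then 1 else 0)) * φ k =
      ((if (k : ZMod N) = t then (1 : ℤ) else 0)
      + (if -1 - (k : ZMod N) = t then 1 else 0)) * φ t := by
    intro k
    rw [add_mul, add_mul]
    congr 1
    · split_ifs with h
      · rw [h]
      · simp
    · split_ifs with h
      · rw [← h, hφ]
      · simp
  simp only [e1, ← sum_mul]
  have e2 : ∑ m ∈ range (n + n), (if (m : ZMod N) = t then (1 : ℤ) else 0) = 1 := by
    rw [hN]; exact count_one t
  rw [sum_range_add] at e2
  have e3 : ∑ k ∈ range n, (if -1 - (k : ZMod N) = t then (1 : ℤ) else 0) =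
      ∑ k ∈ range n, (if ((n + k : ℕ) : ZMod N) = t then (1 : ℤ) else 0) := by
    rw [← sum_range_reflect]
    refine sum_congr rfl fun j hj => ?_
    have hj' := mem_range.1 hj
    have e : ((n - 1 - j : ℕ) : ZMod N) = n - 1 - j := by
      rw [Nat.cast_sub (by omega), Nat.cast_sub (by omega), Nat.cast_one]
    have z : ((n + n : ℕ) : ZMod N) = 0 := by rw [hN]; exact ZMod.natCast_self _
    push_cast at z
    rw [e]
    apply if_congr _ rfl rfl
    push_cast
    constructor
    · intro h; linear_combination h + z
    · intro h; linear_combination h - z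
  rw [sum_add_distrib, e3, e2, one_mul]

theorem gf_sum {N n : ℕ} [NeZero N] (hN : n + n = N) (c : ℕ) (φ : ZMod N → ℤ)
    (hφ : ∀ k, φ (-1 - k) = φ k) (t : ZMod N) :
    ∑ k ∈ range n, gf N c t k * φ k = ∑ j ∈ range c, φ (t + j) := by
  simp only [gf, sum_mul]
  rw [sum_comm]
  exact sum_congr rfl fun j _ => fold_sum hN φ hφ (t + j)

/-- The folded matrix. -/
def A0 (N c : ℕ) (i k : ℕ) : ℤ := gf N c (c * i) k

theorem good_A0 {N n c u : ℕ} [NeZero N] (hN : n + n = N) (h : c * c + 1 = u * N) :
    Good n c (2 * u) (A0 N c) := by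
  have hc : (c : ZMod N) * c = -1 := by
    have : ((c * c + 1 : ℕ) : ZMod N) = 0 := by rw [h]; push_cast; simp
    push_cast at this
    linear_combination this
  constructor
  · intro i _
    have := gf_sum hN c (fun _ => 1) (fun _ => rfl) (c * i)
    simpa [A0] using this
  · intro i hi k hk
    have e1 := gf_sum hN c (fun m => gf N c (c * m) k) (fun m => by
      have : (c : ZMod N) * (-1 - m) = -c - c * m := by ring
      simp only [this, gf_refl]) (c * i)
    unfold A0
    rw [e1]
    simp only [gf, sum_add_distrib]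
    have a1 := count_sq h ((k : ZMod N) + i)
    have a2 := count_sq h (-1 - (k : ZMod N) + i)
    have b1 : ∀ j j' : ℕ, ((k : ZMod N) = c * (c * i + j) + j') ↔
        ((c : ZMod N) * j + j' = k + i) := by
      intro j j'
      constructor
      · intro h; linear_combination -h - hc * i
      · intro h; linear_combination -h - hc * i
    have b2 : ∀ j j' : ℕ, (-1 - (k : ZMod N) = c * (c * i + j) + j') ↔
        ((c : ZMod N) * j + j' = -1 - k + i) := by
      intro j j'
      constructor
      · intro h; linear_combination -h - hc * i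
      · intro h; linear_combination -h - hc * i
    simp only [b1, b2]
    rw [a1, a2]
    have c1 : ¬ ((k : ZMod N) + i = -1) := by
      intro h
      have : ((k + i + 1 : ℕ) : ZMod N) = 0 := by push_cast; linear_combination h
      rw [ZMod.natCast_eq_zero_iff] at this
      have := Nat.le_of_dvd (by omega) this
      omega
    have c2 : (-1 - (k : ZMod N) + i = -1) ↔ i = k := by
      constructor
      · intro h
        have : (i : ZMod N) = k := by linear_combination h
        rw [ZMod.natCast_eq_natCast_iff', Nat.mod_eq_of_lt (by omega),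
          Nat.mod_eq_of_lt (by omega)] at this
        exact this
      · rintro rfl; ring
    simp only [c1, c2, if_false]
    ring

/-- The folded interval in closed form. -/
def F (n c j k : ℤ) : ℤ :=
  (if j ≤ k ∧ k < j + c then 1 else 0) + (if k < -j then 1 else 0)
    + (if 2 * n - j - c ≤ k then 1 else 0)

theorem sum_ite_int (c : ℕ) (a : ℤ) :
    ∑ j ∈ range c, (if (j : ℤ) = a then (1 : ℤ) else 0) = if 0 ≤ a ∧ a < c then 1 else 0 := by
  split_ifs with h
  · rw [sum_eq_single a.toNat]
    · rw [if_pos]; omega
    · intro b _ hb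
      rw [if_neg]; omega
    · intro hb
      exact absurd (mem_range.2 (by omega)) hb
  · refine sum_eq_zero fun j hj => ?_
    have := mem_range.1 hj
    rw [if_neg]; omega

theorem gf_eq {N n c h : ℕ} (hN : n + n = N) (hc : c = 2 * h + 1) (hcn : c < n) {j : ℤ}
    (h1 : -(h : ℤ) ≤ j) (h2 : j < n - h) {k : ℕ} (hk : k < n) :
    gf N c (j : ZMod N) k = F n c j k := by
  have e : ∀ m ∈ range c, ((if (k : ZMod N) = j + m then (1 : ℤ) else 0)
      + (if -1 - (k : ZMod N) = j + m then 1 else 0)) =
      (if (m : ℤ) = k - j then (1 : ℤ) else 0) + (if (m : ℤ) = -1 - k - j then 1 else 0)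
        + (if (m : ℤ) = N - 1 - k - j then 1 else 0) := by
    intro m hm
    have hm' := mem_range.1 hm
    have p1 : ((k : ZMod N) = j + m) ↔ (N : ℤ) ∣ j + m - k := by
      rw [← ZMod.intCast_eq_intCast_iff_dvd_sub]
      push_cast
      rfl
    have p2 : (-1 - (k : ZMod N) = j + m) ↔ (N : ℤ) ∣ j + m - (-1 - k) := by
      rw [← ZMod.intCast_eq_intCast_iff_dvd_sub]
      push_cast
      rfl
    have q1 : (N : ℤ) ∣ j + m - k ↔ (m : ℤ) = k - j := by
      constructor
      · intro hd
        have := Int.eq_zero_of_abs_lt_dvd hd (by rw [abs_lt]; constructor <;> omega)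
        omega
      · intro hd
        have : j + m - k = 0 := by omega
        rw [this]; exact dvd_zero _
    have q2 : (N : ℤ) ∣ j + m - (-1 - k) ↔ ((m : ℤ) = -1 - k - j ∨ (m : ℤ) = N - 1 - k - j) := by
      constructor
      · intro hd
        by_cases hlt : j + m - (-1 - k) < N
        · have := Int.eq_zero_of_abs_lt_dvd hd (by rw [abs_lt]; constructor <;> omega)
          omega
        · have hd' : (N : ℤ) ∣ j + m - (-1 - k) - N := dvd_sub hd dvd_rfl
          have := Int.eq_zero_of_abs_lt_dvd hd' (by rw [abs_lt]; constructor <;> omega)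
          omega
      · rintro (hd | hd)
        · have : j + m - (-1 - k) = 0 := by omega
          rw [this]; exact dvd_zero _
        · have : j + m - (-1 - k) = N := by omega
          rw [this]
    simp only [p1, p2, q1, q2]
    split_ifs <;> omega
  unfold gf F
  rw [sum_congr rfl e]
  simp only [sum_add_distrib, sum_ite_int]
  split_ifs <;> omega

theorem exists_start {N n c h : ℕ} [NeZero N] (hN : n + n = N) (hc : c = 2 * h + 1) (hcn : c < n)
    (t : ZMod N) : ∃ j : ℤ, -(h : ℤ) ≤ j ∧ j < n - h ∧ ∀ k < n, gf N c t k = F n c j k := by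
  have hv := ZMod.val_lt (t + (h : ZMod N))
  have hv2 : (((t + (h : ZMod N)).val : ℕ) : ZMod N) = t + h := ZMod.natCast_zmod_val _
  generalize (t + (h : ZMod N)).val = v at hv hv2
  by_cases hlt : v < n
  · refine ⟨v - h, by omega, by omega, fun k hk => ?_⟩
    rw [← gf_eq hN hc hcn (by omega) (by omega) hk]
    congr 1
    push_cast
    linear_combination -hv2
  · refine ⟨N - 1 - v - h, by omega, by omega, fun k hk => ?_⟩
    rw [← gf_eq hN hc hcn (by omega) (by omega) hk, ← gf_refl]
    congr 1
    subst hc
    push_cast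
    rw [ZMod.natCast_self]
    linear_combination hv2

end Pool.Agent.P.MP_009630_co
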