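import Pool.Agent.P.MP_009630_co.Switch

set_option autoImplicit false

open Finset

namespace Pool.Agent.P.MP_009630_co

/-- Integer functions on the residues modulo `n`. -/
abbrev V (n : ℕ) := ZMod n → ℤ

/-- The indicator of the residue of `a`. -/
def pt (n : ℕ) (a : ℤ) : V n := fun y => if y = (a : ZMod n) then 1 else 0

theorem ptc {n : ℕ} {a b : ℤ} (k : ℤ) (h : a = b + k * n) : pt n a = pt n b := by
  have e : (a : ZMod n) = b := by rw [h]; push_cast; simp
  unfold pt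
  rw [e]

/-- The boundary of a function on edges. -/
def bd (n : ℕ) : V n →ₗ[ℤ] V n where
  toFun f := fun y => f (y - 1) - f y
  map_add' f g := by funext y; simp only [Pi.add_apply]; ring
  map_smul' a f := by funext y; simp only [Pi.smul_apply, smul_eq_mul, RingHom.id_apply]; ring

theorem bd_pt (n : ℕ) (z : ℤ) : bd n (pt n z) = pt n (z + 1) - pt n z := by
  funext y
  simp only [bd, pt, LinearMap.coe_mk, AddHom.coe_mk, Pi.sub_apply, Int.cast_add, Int.cast_one,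
    sub_eq_iff_eq_add]

/-- The indicator of an interval of edges. -/
noncomputable def iv (n : ℕ) (a b : ℤ) : V n := ∑ z ∈ Ico a b, pt n z

theorem bd_iv (n : ℕ) {a b : ℤ} (h : a ≤ b) : bd n (iv n a b) = pt n b - pt n a := by
  induction b, h using Int.leInduction with
  | base => simp [iv]
  | succ b hb ih =>
    have e : iv n a (b + 1) = iv n a b + pt n b := by
      unfold iv
      rw [← Finset.insert_Ico_right_eq_Ico_add_one hb, sum_insert (by simp), add_comm]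
    rw [e, map_add, ih, bd_pt]
    abel

theorem cast_inj {n : ℕ} {w y z : ℤ} (h1 : w ≤ y) (h2 : y < w + n) (h3 : w ≤ z) (h4 : z < w + n)
    (h : (y : ZMod n) = z) : y = z := by
  have hd := (ZMod.intCast_eq_intCast_iff_dvd_sub y z n).1 h
  have := Int.eq_zero_of_abs_lt_dvd hd (by rw [abs_lt]; constructor <;> omega)
  omega

theorem pt_win {n : ℕ} {w y z : ℤ} (h1 : w ≤ y) (h2 : y < w + n) (h3 : w ≤ z) (h4 : z < w + n) :
    pt n y (z : ZMod n) = if z = y then 1 else 0 := by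
  unfold pt
  by_cases h : z = y
  · simp [h]
  · rw [if_neg h, if_neg fun e => h (cast_inj h3 h4 h1 h2 e)]

theorem iv_win {n : ℕ} {w a b z : ℤ} (h1 : w ≤ a) (h2 : b ≤ w + n) (h3 : w ≤ z) (h4 : z < w + n) :
    iv n a b (z : ZMod n) = if a ≤ z ∧ z < b then 1 else 0 := by
  unfold iv
  rw [Finset.sum_apply, sum_congr rfl fun y hy => pt_win (w := w)
    (by have := (mem_Ico.1 hy).1; omega) (by have := (mem_Ico.1 hy).2; omega) h3 h4]
  simp only [sum_ite_eq, mem_Ico]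

theorem sum_pt (n : ℕ) [NeZero n] (z : ℤ) : ∑ y, pt n z y = 1 := by
  simp [pt]

theorem sum_iv (n : ℕ) [NeZero n] {a b : ℤ} (h : a ≤ b) : ∑ y, iv n a b y = b - a := by
  unfold iv
  simp only [Finset.sum_apply]
  rw [sum_comm]
  simp only [sum_pt, sum_const, Int.card_Ico, nsmul_eq_mul, mul_one]
  omega

/-- The indicator of a list of intervals. -/
noncomputable def ch (n : ℕ) : List (ℤ × ℤ) → V n
  | [] => 0
  | p :: l => iv n p.1 p.2 + ch n l

/-- The boundary of a list of intervals. -/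
def chb (n : ℕ) : List (ℤ × ℤ) → V n
  | [] => 0
  | p :: l => pt n p.2 - pt n p.1 + chb n l

/-- The total length of a list of intervals. -/
def len : List (ℤ × ℤ) → ℤ
  | [] => 0
  | p :: l => p.2 - p.1 + len l

/-- The intervals follow one another between `lo` and `hi`. -/
def Srt (hi : ℤ) : ℤ → List (ℤ × ℤ) → Prop
  | lo, [] => lo ≤ hi
  | lo, p :: l => lo ≤ p.1 ∧ p.1 ≤ p.2 ∧ Srt hi p.2 l

/-- Membership in one of the intervals. -/
def mem (z : ℤ) : List (ℤ × ℤ) → Prop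
  | [] => False
  | p :: l => (p.1 ≤ z ∧ z < p.2) ∨ mem z l

theorem Srt.le {hi : ℤ} : ∀ {l : List (ℤ × ℤ)} {lo : ℤ}, Srt hi lo l → lo ≤ hi
  | [], _, h => h
  | _ :: _, _, h => h.1.trans (h.2.1.trans h.2.2.le)

theorem Srt.mem_le {hi z : ℤ} : ∀ {l : List (ℤ × ℤ)} {lo : ℤ}, Srt hi lo l → mem z l → lo ≤ z
  | [], _, _, h => h.elim
  | _ :: _, _, h, hm => by
    rcases hm with hm | hm
    · exact h.1.trans hm.1
    · exact h.1.trans (h.2.1.trans (h.2.2.mem_le hm))

theorem Srt.bd_ch (n : ℕ) {hi : ℤ} :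
    ∀ {l : List (ℤ × ℤ)} {lo : ℤ}, Srt hi lo l → bd n (ch n l) = chb n l
  | [], _, _ => by simp [ch, chb]
  | _ :: _, _, h => by rw [ch, chb, map_add, bd_iv n h.2.1, h.2.2.bd_ch n]

theorem Srt.sum_ch (n : ℕ) [NeZero n] {hi : ℤ} :
    ∀ {l : List (ℤ × ℤ)} {lo : ℤ}, Srt hi lo l → ∑ y, ch n l y = len l
  | [], _, _ => by simp [ch, len]
  | _ :: _, _, h => by
    simp only [ch, len, Pi.add_apply, sum_add_distrib]
    rw [sum_iv n h.2.1, h.2.2.sum_ch n]

open Classical in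
theorem Srt.ch_win {n : ℕ} {w z : ℤ} (h3 : w ≤ z) (h4 : z < w + n) :
    ∀ {l : List (ℤ × ℤ)} {lo : ℤ}, w ≤ lo → Srt (w + n) lo l →
      ch n l (z : ZMod n) = if mem z l then 1 else 0
  | [], _, _, _ => by simp [ch, mem]
  | p :: l, lo, hw, h => by
    have e1 := h.1
    have e2 := h.2.1
    have e3 := h.2.2.le
    rw [ch, Pi.add_apply, iv_win (w := w) (by omega) e3 h3 h4,
      Srt.ch_win h3 h4 (by omega) h.2.2]
    by_cases hm : mem z l
    · have := h.2.2.mem_le hm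
      rw [if_pos hm, if_neg (by omega), if_pos (show mem z (p :: l) from Or.inr hm)]
      rfl
    · by_cases hp : p.1 ≤ z ∧ z < p.2
      · rw [if_pos hp, if_neg hm, if_pos (show mem z (p :: l) from Or.inl hp)]
        rfl
      · rw [if_neg hp, if_neg hm, if_neg (show ¬ mem z (p :: l) from fun h => h.elim hp hm)]
        rfl

/-- The column condition of an exchange. -/
def CC (l : List (ℤ × ℤ)) (a b e x : ℤ) : Prop :=
  (mem a l → ¬ mem b l → mem e l ∧ ¬ mem x l) ∧ (¬ mem a l → mem b l → ¬ mem e l ∧ mem x l)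

/-- The data of a family of exchanges. -/
structure Blk where
  /-- index set -/
  B : Finset ℤ
  /-- first changed row -/
  a : ℤ → ℤ
  /-- second changed row -/
  b : ℤ → ℤ
  /-- first changed column -/
  e : ℤ → ℤ
  /-- second changed column -/
  x : ℤ → ℤ

/-- `v` is the boundary of an admissible row. -/
def Row (n : ℕ) (c : ℤ) (K : Blk) (v : V n) : Prop :=
  ∃ l, Srt n 0 l ∧ len l = c ∧ chb n l = v ∧ ∀ j ∈ K.B, CC l (K.a j) (K.b j) (K.e j) (K.x j)

/-- The exchanges take place in the window and are independent. -/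
def Blk.Ok (K : Blk) (n : ℕ) : Prop :=
  (∀ j ∈ K.B, (0 ≤ K.a j ∧ K.a j < n) ∧ (0 ≤ K.b j ∧ K.b j < n) ∧ (0 ≤ K.e j ∧ K.e j < n) ∧
    (0 ≤ K.x j ∧ K.x j < n)) ∧
  ∀ j ∈ K.B, ∀ k ∈ K.B, K.a j ≠ K.e k ∧ K.a j ≠ K.x k ∧ K.b j ≠ K.e k ∧ K.b j ≠ K.x k ∧
    K.a j ≠ K.b k ∧ K.e j ≠ K.x k ∧ (K.a j = K.a k → j = k) ∧ (K.b j = K.b k → j = k) ∧
    (K.e j = K.e k → j = k) ∧ (K.x j = K.x k → j = k)

theorem exists_rep {n : ℕ} [NeZero n] (r : ZMod n) : ∃ z : ℤ, 0 ≤ z ∧ z < n ∧ (z : ZMod n) = r :=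
  ⟨r.val, by positivity, by exact_mod_cast ZMod.val_lt r, by simp⟩

theorem exists_lin {n : ℕ} [NeZero n] (D : ℤ → V n) :
    ∃ J : V n →ₗ[ℤ] V n, ∀ z : ℤ, 0 ≤ z → z < n → J (pt n z) = D z := by
  refine ⟨∑ r : ZMod n, (LinearMap.proj r).smulRight (D r.val), fun z h0 h1 => ?_⟩
  rw [LinearMap.sum_apply, sum_eq_single (z : ZMod n)]
  · have e : (((z : ZMod n).val : ℕ) : ℤ) = z := by
      rw [ZMod.val_intCast, Int.emod_eq_of_lt h0 h1]
    simp [pt, e]
  · intro r _ hr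
    simp [pt, hr]
  · simp

end Pool.Agent.P.MP_009630_co
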