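import Pool.Agent.P.MP_009630_co.Exch

set_option autoImplicit false

namespace Pool.Agent.P.MP_009630_co

/-- The rotation `z ↦ c z + k` of the residues with a sign on its wrapping classes. -/
structure Mdl (n : ℕ) where
  /-- slope -/
  c : ℤ
  /-- the multiplicity -/
  lam : ℤ
  /-- offset of the rotation -/
  k : ℤ
  /-- offset of the reflection -/
  e : ℤ
  /-- offset of the rotation on classes -/
  r : ℤ
  /-- positive classes -/
  sg : ℤ → Prop
  /-- fixed classes -/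
  Z : ℤ → Prop
  hc : c * c + 1 = lam * n
  hk : (c + 1) * k + e = n * (r + 1)
  sper : ∀ q j, sg (q + lam * j) ↔ sg q
  zper : ∀ q j, Z (q + lam * j) ↔ Z q
  rot : ∀ q, ¬ Z q → ¬ Z (r - c * q) ∧ (sg (r - c * q) ↔ ¬ sg q)

namespace Mdl

variable {n : ℕ} (M : Mdl n)

/-- `z` has rotation `t` in a positive class. -/
def Pos (z t : ℤ) : Prop := ∃ q, M.c * z + M.k = n * q + t ∧ ¬ M.Z q ∧ M.sg q

/-- `z` has rotation `t` in a negative class. -/
def Neg (z t : ℤ) : Prop := ∃ q, M.c * z + M.k = n * q + t ∧ ¬ M.Z q ∧ ¬ M.sg q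

/-- `z` has rotation `t` in a fixed class. -/
def Zer (z t : ℤ) : Prop := ∃ q, M.c * z + M.k = n * q + t ∧ M.Z q

variable {M}

theorem Pos.sh {z t z' t' : ℤ} (h : M.Pos z t) (a j : ℤ) (hz : z' = z + a + j * M.c)
    (ht : t' = t + a * M.c - j) : M.Pos z' t' := by
  obtain ⟨q, h1, h2, h3⟩ := h
  refine ⟨q + M.lam * j, ?_, by rwa [M.zper], by rwa [M.sper]⟩
  rw [hz, ht]
  linear_combination h1 + j * M.hc

theorem Neg.sh {z t z' t' : ℤ} (h : M.Neg z t) (a j : ℤ) (hz : z' = z + a + j * M.c)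
    (ht : t' = t + a * M.c - j) : M.Neg z' t' := by
  obtain ⟨q, h1, h2, h3⟩ := h
  refine ⟨q + M.lam * j, ?_, by rwa [M.zper], by rwa [M.sper]⟩
  rw [hz, ht]
  linear_combination h1 + j * M.hc

theorem Zer.sh {z t z' t' : ℤ} (h : M.Zer z t) (a j : ℤ) (hz : z' = z + a + j * M.c)
    (ht : t' = t + a * M.c - j) : M.Zer z' t' := by
  obtain ⟨q, h1, h2⟩ := h
  refine ⟨q + M.lam * j, ?_, by rwa [M.zper]⟩
  rw [hz, ht]
  linear_combination h1 + j * M.hc

theorem Pos.rot {z t z' : ℤ} (h : M.Pos z t) (hz : z' = n - M.e - z) : M.Neg t z' := by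
  obtain ⟨q, h1, h2, h3⟩ := h
  refine ⟨M.r - M.c * q + M.lam * z, ?_, by rw [M.zper]; exact (M.rot q h2).1,
    by rw [M.sper, (M.rot q h2).2]; exact not_not.2 h3⟩
  rw [hz]
  linear_combination (-M.c) * h1 + z * M.hc + M.hk

theorem Neg.rot {z t z' : ℤ} (h : M.Neg z t) (hz : z' = n - M.e - z) : M.Pos t z' := by
  obtain ⟨q, h1, h2, h3⟩ := h
  refine ⟨M.r - M.c * q + M.lam * z, ?_, by rw [M.zper]; exact (M.rot q h2).1,
    by rw [M.sper, (M.rot q h2).2]; exact h3⟩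
  rw [hz]
  linear_combination (-M.c) * h1 + z * M.hc + M.hk

theorem uniq {q q' t t' : ℤ} (h : (n : ℤ) * q + t = n * q' + t') (h0 : 0 ≤ t) (h1 : t < n)
    (h2 : 0 ≤ t') (h3 : t' < n) : q = q' ∧ t = t' := by
  have e : q = q' := by
    by_contra hne
    rcases lt_or_gt_of_ne hne with g | g <;> nlinarith
  subst e
  exact ⟨rfl, by linarith⟩

theorem tri (hn : 0 < n) (z : ℤ) :
    ∃ t : ℤ, 0 ≤ t ∧ t < n ∧ (M.Pos z t ∨ M.Neg z t ∨ M.Zer z t) := by
  have hn' : (0 : ℤ) < n := by exact_mod_cast hn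
  refine ⟨(M.c * z + M.k) % n, Int.emod_nonneg _ hn'.ne', Int.emod_lt_of_pos _ hn', ?_⟩
  have e := (Int.mul_ediv_add_emod (M.c * z + M.k) n).symm
  by_cases h1 : M.Z ((M.c * z + M.k) / n)
  · exact Or.inr (Or.inr ⟨_, e, h1⟩)
  · by_cases h2 : M.sg ((M.c * z + M.k) / n)
    · exact Or.inl ⟨_, e, h1, h2⟩
    · exact Or.inr (Or.inl ⟨_, e, h1, h2⟩)

theorem Pos.not_neg {z t t' : ℤ} (h : M.Pos z t) (g : M.Neg z t') (h0 : 0 ≤ t) (h1 : t < n)
    (h2 : 0 ≤ t') (h3 : t' < n) : False := by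
  obtain ⟨q, e, -, s⟩ := h
  obtain ⟨q', e', -, s'⟩ := g
  exact s' ((uniq (e.symm.trans e') h0 h1 h2 h3).1 ▸ s)

theorem Pos.not_zer {z t t' : ℤ} (h : M.Pos z t) (g : M.Zer z t') (h0 : 0 ≤ t) (h1 : t < n)
    (h2 : 0 ≤ t') (h3 : t' < n) : False := by
  obtain ⟨q, e, s, -⟩ := h
  obtain ⟨q', e', s'⟩ := g
  exact s ((uniq (e.symm.trans e') h0 h1 h2 h3).1 ▸ s')

theorem Neg.not_zer {z t t' : ℤ} (h : M.Neg z t) (g : M.Zer z t') (h0 : 0 ≤ t) (h1 : t < n)
    (h2 : 0 ≤ t') (h3 : t' < n) : False := by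
  obtain ⟨q, e, s, -⟩ := h
  obtain ⟨q', e', s'⟩ := g
  exact s ((uniq (e.symm.trans e') h0 h1 h2 h3).1 ▸ s')

/-- `z` has rotation `t`. -/
def Rt (M : Mdl n) (z t : ℤ) : Prop := ∃ q, M.c * z + M.k = n * q + t

theorem Pos.rt {z t : ℤ} (h : M.Pos z t) : M.Rt z t := h.imp fun _ h => h.1

theorem Neg.rt {z t : ℤ} (h : M.Neg z t) : M.Rt z t := h.imp fun _ h => h.1

theorem Zer.rt {z t : ℤ} (h : M.Zer z t) : M.Rt z t := h.imp fun _ h => h.1

theorem Rt.eq {z t t' : ℤ} (h : M.Rt z t) (g : M.Rt z t') (h0 : 0 ≤ t) (h1 : t < n)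
    (h2 : 0 ≤ t') (h3 : t' < n) : t = t' := by
  obtain ⟨q, e⟩ := h
  obtain ⟨q', e'⟩ := g
  exact (uniq (e.symm.trans e') h0 h1 h2 h3).2

theorem Rt.step {z t t' : ℤ} (h : M.Rt z t) (g : M.Rt (z + 1) t') (h0 : 0 ≤ t) (h1 : t < n)
    (h2 : 0 ≤ t') (h3 : t' < n) (c0 : 0 ≤ M.c) (c1 : M.c < n) :
    t' = t + M.c ∨ t' = t + M.c - n := by
  obtain ⟨q, e⟩ := h
  by_cases hh : t + M.c < n
  · exact Or.inl (g.eq ⟨q, by linear_combination e⟩ h2 h3 (by omega) hh)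
  · exact Or.inr (g.eq ⟨q + 1, by linear_combination e⟩ h2 h3 (by omega) (by omega))

open Classical in
/-- A linear map with the base values outside three special points and the fixed classes. -/
theorem exists_J [NeZero n] (M : Mdl n) (C : V n) (a b d : ℤ) (va vb vd : V n) (hab : a ≠ b)
    (had : a ≠ d) (hbd : b ≠ d) (G : ℤ → V n) :
    ∃ J : V n →ₗ[ℤ] V n,
      (0 ≤ a → a < n → J (pt n a) = va) ∧ (0 ≤ b → b < n → J (pt n b) = vb) ∧
      (0 ≤ d → d < n → J (pt n d) = vd) ∧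
      (∀ z t : ℤ, 0 ≤ z → z < n → 0 ≤ t → t < n → z ≠ a → z ≠ b → z ≠ d →
        (M.Pos z t → J (pt n z) = pt n t) ∧
        (M.Neg z t → J (pt n z) = C - pt n (n - M.e - t)) ∧
        (M.Zer z t → J (pt n z) = G z)) := by
  obtain ⟨J, hJ⟩ := exists_lin (n := n) fun z =>
    if z = a then va else if z = b then vb else if z = d then vd else
    if M.Z ((M.c * z + M.k) / n) then G z else
    if M.sg ((M.c * z + M.k) / n) then pt n ((M.c * z + M.k) % n)
    else C - pt n (n - M.e - (M.c * z + M.k) % n)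
  have hn : (0 : ℤ) < n := by exact_mod_cast Nat.pos_of_ne_zero (NeZero.ne n)
  refine ⟨J, fun h0 h1 => by rw [hJ a h0 h1, if_pos rfl],
    fun h0 h1 => by rw [hJ b h0 h1, if_neg hab.symm, if_pos rfl],
    fun h0 h1 => by rw [hJ d h0 h1, if_neg had.symm, if_neg hbd.symm, if_pos rfl],
    fun z t h0 h1 h2 h3 ha hb hd => ?_⟩
  have key : ∀ q, M.c * z + M.k = n * q + t →
      (M.c * z + M.k) / n = q ∧ (M.c * z + M.k) % n = t := fun q e =>
    uniq ((Int.mul_ediv_add_emod _ _).trans e) (Int.emod_nonneg _ hn.ne')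
      (Int.emod_lt_of_pos _ hn) h2 h3
  rw [hJ z h0 h1, if_neg ha, if_neg hb, if_neg hd]
  refine ⟨?_, ?_, ?_⟩
  · rintro ⟨q, e, s1, s2⟩
    rw [(key q e).1, (key q e).2, if_neg s1, if_pos s2]
  · rintro ⟨q, e, s1, s2⟩
    rw [(key q e).1, (key q e).2, if_neg s1, if_neg s2]
  · rintro ⟨q, e, s1⟩
    rw [(key q e).1, if_pos s1]

end Mdl

/-- The shape of the exchanges for which every single interval is an admissible row. -/
def Blk.Geo (K : Blk) (c : ℤ) : Prop :=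
  ∀ j ∈ K.B, (K.e j < K.a j ∧ K.a j < K.b j ∧ K.b j = K.e j + c ∧ K.x j = K.b j + 1 ∧
      K.x j ≤ K.a j + c) ∨
    (K.x j + 1 = K.b j ∧ K.b j < K.a j ∧ K.a j < K.e j ∧ K.e j = K.b j + c ∧ K.a j ≤ K.x j + c)

theorem row_single {n : ℕ} {c : ℤ} {K : Blk} (hK : K.Ok n) (hG : K.Geo c) (c0 : 0 ≤ c)
    (hc : 2 * c ≤ n ∨ K.B = ∅) (c1 : c < n) {s : ℤ} (s0 : 0 ≤ s) (s1 : s ≤ n) {v : V n}
    (hv : v = pt n (s + c) - pt n s) : Row n c K v := by
  by_cases h : s + c ≤ n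
  · refine ⟨[(s, s + c)], ?_, ?_, ?_, fun j hj => ?_⟩
    · simp only [Srt]; omega
    · simp only [len]; omega
    · simp only [chb, hv, add_zero]
    · have g1 := hK.1 j hj
      have g2 := hG j hj
      have g3 : 2 * c ≤ n := hc.resolve_right (Finset.ne_empty_of_mem hj)
      simp only [CC, mem, or_false]
      omega
  · refine ⟨[(0, s + c - n), (s, n)], ?_, ?_, ?_, fun j hj => ?_⟩
    · simp only [Srt]; omega
    · simp only [len]; omega
    · have e1 : pt n (s + c - n) = pt n (s + c) := ptc (-1) (by ring)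
      have e2 : pt n n = pt n 0 := ptc 1 (by ring)
      simp only [chb, hv, e1, e2]
      abel
    · have g1 := hK.1 j hj
      have g2 := hG j hj
      have g3 : 2 * c ≤ n := hc.resolve_right (Finset.ne_empty_of_mem hj)
      simp only [CC, mem, or_false]
      omega

end Pool.Agent.P.MP_009630_co
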