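import Pool.Agent.P.MP_009630_co.Switch

set_option autoImplicit false

open Finset

namespace Pool.Agent.P.MP_009630_co

theorem not_sol_even {n : ℕ} {c l : ℤ} (h0 : 0 < n) (hn : Even n) (hc : c * c + 1 = l * n) :
    ¬ Sol n c (-1) l := by
  rintro ⟨A, -, -, -, hs⟩
  have h1 : (-1 : ℤ) • (1 : Matrix (Fin n) (Fin n) ℤ) + l • Matrix.of (fun _ _ => (1 : ℤ)) =
      -(1 + Matrix.replicateCol Unit (fun _ : Fin n => -l) *
        Matrix.replicateRow Unit (fun _ : Fin n => (1 : ℤ))) := by
    ext i k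
    simp [Matrix.mul_apply]
    ring
  have h2 := congrArg Matrix.det hs
  rw [Matrix.det_mul, h1, Matrix.det_neg, Matrix.det_one_add_replicateCol_mul_replicateRow,
    Fintype.card_fin, hn.neg_one_pow] at h2
  simp only [dotProduct, one_mul, sum_const, card_univ, Fintype.card_fin, nsmul_eq_mul] at h2
  have h3 : c * c = 0 := by nlinarith [mul_self_nonneg A.det, mul_self_nonneg c]
  obtain ⟨m, rfl⟩ := hn
  rw [h3] at hc
  push_cast at hc
  have h4 : (1 : ℤ) = 2 * (l * m) := by linarith
  omega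

theorem nonex_trace_nat {n : ℕ} (E : Matrix (Fin n) (Fin n) ℂ) (h : E * E = E) :
    ∃ k : ℕ, E.trace = k := by
  have h1 : IsIdempotentElem (Matrix.toLin' E) := by
    show Matrix.toLin' E * Matrix.toLin' E = _
    rw [Module.End.mul_eq_comp, ← Matrix.toLin'_mul, h]
  exact ⟨_, by rw [← Matrix.trace_toLin'_eq, (LinearMap.IsIdempotentElem.isProj_range _ h1).trace]⟩

theorem not_sol_one {n : ℕ} {c : ℤ} (hn : 1 < n) (hc : c * c + 1 = n) : ¬ Sol n c (-1) 1 := by
  rintro ⟨A, h01, hr, hcol, hs⟩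
  have hd : ∀ i, A i i = 0 := by
    intro i
    have h1 := congrFun (congrFun hs i) i
    simp only [Matrix.mul_apply, Matrix.add_apply, Matrix.smul_apply, Matrix.one_apply_eq,
      Matrix.of_apply, smul_eq_mul] at h1
    have h2 : ∀ j ∈ (univ : Finset (Fin n)), 0 ≤ A i j * A j i := by
      intro j _
      rcases h01 i j with h | h <;> rcases h01 j i with h' | h' <;> simp [h, h']
    have h3 := (sum_eq_zero_iff_of_nonneg h2).1 (by rw [h1]; norm_num) i (mem_univ i)
    exact mul_self_eq_zero.1 h3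
  set B : Matrix (Fin n) (Fin n) ℂ := A.map (Int.castRingHom ℂ) with hB
  set J : Matrix (Fin n) (Fin n) ℂ := Matrix.of fun _ _ => 1 with hJ
  have hBJ : B * J = (c : ℂ) • J := by
    ext i k
    have := congrArg (Int.cast : ℤ → ℂ) (hr i)
    push_cast at this
    simp [Matrix.mul_apply, hB, hJ, this]
  have hJB : J * B = (c : ℂ) • J := by
    ext i k
    have := congrArg (Int.cast : ℤ → ℂ) (hcol k)
    push_cast at this
    simp [Matrix.mul_apply, hB, hJ, this]
  have hJJ : J * J = (n : ℂ) • J := by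
    ext i k
    simp [Matrix.mul_apply, hJ]
  have hBB : B * B = -1 + J := by
    rw [hB, ← Matrix.map_mul, hs]
    ext i k
    by_cases h : i = k <;> simp [hJ, h]
  have hn0 : (n : ℂ) ≠ 0 := by exact_mod_cast (by omega : n ≠ 0)
  have hc' : (n : ℂ) = c * c + 1 := by exact_mod_cast hc.symm
  set X : Matrix (Fin n) (Fin n) ℂ :=
    (n : ℂ) • 1 - J + Complex.I • ((n : ℂ) • B - (c : ℂ) • J) with hX
  have hXX : X * X = (2 * n : ℂ) • X := by
    simp only [hX, mul_add, mul_sub, add_mul, sub_mul, smul_mul_assoc, mul_smul_comm, one_mul,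
      mul_one, hBJ, hJB, hJJ, hBB]
    match_scalars
    · linear_combination (-(n : ℂ) ^ 2) * Complex.I_mul_I
    · linear_combination ((n : ℂ) ^ 2 - (n : ℂ) * c ^ 2) * Complex.I_mul_I - (n : ℂ) * hc'
    · ring
  obtain ⟨k, hk⟩ := nonex_trace_nat ((2 * n : ℂ)⁻¹ • X) (by
    rw [smul_mul_assoc, mul_smul_comm, hXX, smul_smul, smul_smul]
    congr 1
    field_simp)
  have tB : B.trace = 0 := by simp [Matrix.trace, hB, hd]
  have tJ : J.trace = n := by simp [Matrix.trace, hJ]
  have tX : X.trace = n * n - n - Complex.I * (c * n) := by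
    simp only [hX, Matrix.trace_add, Matrix.trace_sub, Matrix.trace_smul, Matrix.trace_one, tB, tJ,
      Fintype.card_fin, smul_eq_mul]
    ring
  rw [Matrix.trace_smul, tX, smul_eq_mul, inv_mul_eq_iff_eq_mul₀ (by simpa using hn0)] at hk
  have h5 := congrArg Complex.im hk
  simp at h5
  rcases h5 with h | h
  · rw [h] at hc
    omega
  · omega

end Pool.Agent.P.MP_009630_co
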