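import Pool.Agent.P.MP_009630_co.Base

set_option autoImplicit false

namespace Pool.Agent.P.MP_009630_co

/-- No exchange. -/
def K0 : Blk := ⟨∅, id, id, id, id⟩

theorem K0_ok (n : ℕ) : K0.Ok n :=
  ⟨fun _ h => absurd h (Finset.notMem_empty _), fun _ h => absurd h (Finset.notMem_empty _)⟩

theorem K0_geo (c : ℤ) : K0.Geo c := fun _ h => absurd h (Finset.notMem_empty _)

theorem K0_sh (n c p e : ℤ) : K0.Sh n c p e := fun _ h => absurd h (Finset.notMem_empty _)

/-- The model for odd slope, with the parity of the class as sign. -/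
def oddM (n : ℕ) (h u ε : ℤ) (hc : (2 * h + 1) * (2 * h + 1) + 1 = 2 * u * n)
    (he : ε = 0 ∨ ε = 1) : Mdl n where
  c := 2 * h + 1
  lam := 2 * u
  k := 0
  e := 0
  r := -1
  sg := fun q => q % 2 = ε
  Z := fun _ => False
  hc := hc
  hk := by ring
  sper := fun q j => by
    have e : q + 2 * u * j = q + 2 * (u * j) := by ring
    rw [e]
    omega
  zper := fun _ _ => Iff.rfl
  rot := fun q _ => ⟨not_false, by
    have e : -1 - (2 * h + 1) * q = -1 - q - 2 * (h * q) := by ring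
    rw [e]
    omega⟩

theorem odd_lam {n h l : ℤ} (hc : (2 * h + 1) * (2 * h + 1) + 1 = l * n) (hn : n % 2 = 1) :
    ∃ u, l = 2 * u ∧ u % 2 = 1 := by
  obtain ⟨k, rfl⟩ : ∃ k, n = 2 * k + 1 := ⟨n / 2, by omega⟩
  have e : l = 2 * (2 * (h * h) + 2 * h + 1 - l * k) := by linear_combination -hc
  refine ⟨_, e, ?_⟩
  have e2 : l * k = 2 * ((2 * (h * h) + 2 * h + 1 - l * k) * k) := by linear_combination k * e
  omega

theorem sol_Ia (n : ℕ) (h l : ℤ) (hc : (2 * h + 1) * (2 * h + 1) + 1 = l * n)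
    (hn : (n : ℤ) % 2 = 1) (h2 : 2 ≤ h) (h3 : 2 * (2 * h + 1) ≤ n) :
    Sol n (2 * h + 1) (-1) l := by
  obtain ⟨u, rfl, hu⟩ := odd_lam hc hn
  have : NeZero n := ⟨by omega⟩
  set M := oddM n h u 1 hc (Or.inr rfl) with hM
  have Mc : M.c = 2 * h + 1 := rfl
  obtain ⟨J, Jp, Jo, J0, hJ⟩ := M.exists_J (pt n (h + 1) + pt n (n - (h + 1))) (h + 1) h 0
    (pt n (h + 1) + pt n (n - (h + 1)) - pt n (n - h))
    (-pt n 0 + pt n M.c + (pt n (h + 1) + pt n (n - (h + 1))) - pt n (h + 1 + M.c))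
    (pt n h + pt n (n - 1) - pt n (h - 1)) (by omega) (by omega) (by omega) 0
  have hp : M.Pos (h + 1) h := ⟨u, by
    change (2 * h + 1) * (h + 1) + 0 = _
    have : 2 * ((2 * h + 1) * (h + 1) + 0) = 2 * (n * u + h) := by linear_combination hc
    omega, not_false, hu⟩
  have h1 : M.Neg 1 M.c := ⟨0, by simp [hM, oddM], not_false, by simp [hM, oddM]⟩
  obtain ⟨-, a, b⟩ := Mdl.base_un (K := K0) rfl rfl hJ (J0 le_rfl (by omega))
    (Jo (by omega) (by omega)) (Jp (by omega) (by omega)) hp h1 (Or.inl (by omega)) (K0_ok n)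
    (K0_geo _) (K0_sh _ _ _ _) (by omega) (fun t a b => by omega)
  have nz : ∀ z, M.NZ z := fun z t _ _ g => g.elim fun _ g => g.2
  exact sol_of J _ hc (by omega) K0 (K0_ok n) (fun z z0 z1 => a z z0 z1 (nz z))
    (fun z z0 z1 _ => b z z0 z1 (nz z) fun _ => nz _)
    (fun _ h => absurd h (Finset.notMem_empty _)) (fun _ h => absurd h (Finset.notMem_empty _))

theorem sol_Ib (n : ℕ) (h l : ℤ) (hc : (2 * h + 1) * (2 * h + 1) + 1 = l * n)
    (hn : (n : ℤ) % 2 = 1) (h2 : 2 ≤ h) (h3 : 3 * h + 2 ≤ n) (h4 : (n : ℤ) ≤ 2 * (2 * h + 1)) :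
    Sol n (2 * h + 1) (-1) l := by
  obtain ⟨u, rfl, hu⟩ := odd_lam hc hn
  have : NeZero n := ⟨by omega⟩
  set M := oddM n h u 0 hc (Or.inl rfl) with hM
  have Mc : M.c = 2 * h + 1 := rfl
  have Me : M.e = 0 := rfl
  have Mk : M.k = 0 := rfl
  obtain ⟨J, Jp, Jo, J0, hJ⟩ := M.exists_J (pt n h + pt n (n - h)) h (n - h - 1) 0
    (pt n h + pt n (n - h) - pt n (h + 1))
    (-pt n 0 + (pt n h + pt n (n - h)) - pt n (2 * h + 1) + pt n (h + 1))
    (pt n (n - h - 1) + pt n 1 - pt n (n - h)) (by omega) (by omega) (by omega) 0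
  replace hJ : M.Gen J (pt n h + pt n (n - h)) h (n - h - 1) 0 0 := hJ
  replace Jp := Jp (by omega) (by omega)
  replace Jo := Jo (by omega) (by omega)
  replace J0 := J0 le_rfl (by omega)
  have hp : M.Pos h (n - h - 1) := ⟨u - 1, by
    change (2 * h + 1) * h + 0 = _
    have : 2 * ((2 * h + 1) * h + 0) = 2 * (n * (u - 1) + (n - h - 1)) := by
      linear_combination hc
    omega, not_false, by change (u - 1) % 2 = 0; omega⟩
  have h1 : M.Pos 1 (2 * h + 1) := ⟨0, by simp [hM, oddM], not_false, by simp [hM, oddM]⟩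
  have nz : ∀ z, M.NZ z := fun z t _ _ g => g.elim fun _ g => g.2
  have g1 : M.Neg (n - h - 1) (n - h) := hp.rot (by omega)
  have g2 : M.Pos (n - h) (h + 1) := g1.rot (by omega)
  have g3 : M.Neg (h + 1) h := g2.rot (by omega)
  have g4 : M.Neg (2 * h + 1) (n - 1) := h1.rot (by omega)
  have g5 : M.Pos (n - 1) (n - (2 * h + 1)) := g4.rot (by omega)
  have v1 := hJ.pos h1 (by omega)
  have v2 := hJ.pos g2 (by omega)
  have v3 := hJ.neg (s := n - h) g3 (by omega)
  have ne : 2 * h + 1 ≠ n - h - 1 := fun e => by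
    have := (e ▸ g4).rt.eq g1.rt (by omega) (by omega) (by omega) (by omega)
    omega
  have v4 := hJ.neg (s := 1) g4 (by omega)
  have v5 := hJ.pos g5 (by omega)
  have v6 := hJ.neg (s := 3 * h + 1) (g1.sh (-1) 0 (z' := n - h - 1 - 1) (t' := n - 3 * h - 1)
    (by ring) (by omega)) (by omega)
  have v7 := hJ.pos (hp.sh (-1) 0 (z' := h - 1) (t' := n - 3 * h - 2) (by ring) (by omega))
    (by omega)
  have hC : J (pt n h + pt n (n - h)) = pt n h + pt n (n - h) := by
    rw [map_add, Jp, v2]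
    abel
  have em : ∀ {P : ℤ → Prop}, ∀ j ∈ K0.B, P j := fun _ h => absurd h (Finset.notMem_empty _)
  refine sol_of J (pt n h + pt n (n - h)) hc (by omega) K0 (K0_ok n) (fun z z0 z1 => ?_)
    (fun z z0 z1 _ => ?_) em em
  · by_cases a1 : z = 0
    · rw [a1, J0, map_sub, map_add, Jo, v1, v2]
      abel
    by_cases a2 : z = n - h - 1
    · rw [a2, Jo, map_add, map_sub, map_add, map_neg, hC, J0, v3, v4]
      abel
    by_cases a3 : z = h
    · rw [a3, Jp, map_sub, hC, v3]
      abel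
    exact hJ.sq hC hp (by omega) (by omega) (by omega) (by omega) (by omega) (by omega) z0 z1
      (nz z) a3 a2 a1
  · by_cases a1 : z = 0
    · rw [a1, zero_add, J0, v1]
      refine ⟨[(1, 2 * h + 1), (n - h - 1, n - h)], ?_, ?_, ?_, em⟩
      · simp only [Srt]; omega
      · simp only [len]; omega
      · simp only [chb]
        abel
    by_cases a2 : z = n - 1
    · rw [a2, sub_add_cancel, pt_n, J0, v5]
      refine ⟨[(0, 1), (n - (2 * h + 1), n - h - 1), (n - h, n)], ?_, ?_, ?_, em⟩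
      · simp only [Srt]; omega
      · simp only [len]; omega
      · simp only [chb, pt_n]
        abel
    by_cases a3 : z = n - h - 1
    · rw [a3, show (n : ℤ) - h - 1 + 1 = n - h by ring, Jo, v2]
      refine ⟨[(0, 0), (h, 2 * h + 1), (n - h, n)], ?_, ?_, ?_, em⟩
      · simp only [Srt]; omega
      · simp only [len]; omega
      · simp only [chb, pt_n]
        abel
    by_cases a4 : z = n - h - 1 - 1
    · rw [a4, sub_add_cancel, Jo, v6]
      refine ⟨[(0, h + 1), (2 * h + 1, 3 * h + 1)], ?_, ?_, ?_, em⟩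
      · simp only [Srt]; omega
      · simp only [len]; omega
      · simp only [chb]
        abel
    by_cases a5 : z = h
    · rw [a5, Jp, v3]
      refine ⟨[(0, h + 1), (n - h, n)], ?_, ?_, ?_, em⟩
      · simp only [Srt]; omega
      · simp only [len]; omega
      · simp only [chb, pt_n]
        abel
    by_cases a6 : z = h - 1
    · rw [a6, sub_add_cancel, Jp, v7]
      refine ⟨[(n - 3 * h - 2, h), (h + 1, n - h)], ?_, ?_, ?_, em⟩
      · simp only [Srt]; omega
      · simp only [len]; omega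
      · simp only [chb]
        abel
    exact Mdl.Gen.row (M := M) (p := h) (by rw [Me, sub_zero]; exact hJ) (K0_ok n) (K0_geo _)
      (K0_sh _ _ _ _) (Or.inr rfl) (by omega) (by omega) (by omega) (by omega) (by omega)
      (by omega) (fun t a b => by omega) z0 (by omega) (nz _) (nz _) (by omega)

end Pool.Agent.P.MP_009630_co
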