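import Pool.Agent.P.MP_009630_co.Vals

set_option autoImplicit false

namespace Pool.Agent.P.MP_009630_co

theorem E_l1 {n : ℕ} {h U m c j : ℤ}
    (H : (n : ℤ) = m * c + (2 * h - m - 2 * U) ∧ c = 2 * h ∧ m % 2 = 1 ∧
      3 ≤ m ∧ m + 1 ≤ 2 * U ∧ 3 * m + 2 ≤ 2 * h - m - 2 * U)
    (r0 : 1 ≤ j) (r1 : j < m) :
    Row n c (KE h U m c) (wEL n h U m c 0 j - (pt n h + pt n (n - 1 - h) - pt n (U + j))) := by
  obtain ⟨hn, hc, m2, m3, h1, h2⟩ := H
  have c0 : 0 ≤ c := by omega
  have e0 : pt n (2 * h - m - U + j + 0 * c) = pt n (2 * h + j - U - m) :=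
    ptc (0) (by ring)
  have e1 : pt n (2 * h - m - U + m + 0 * c) = pt n (2 * h - U) :=
    ptc (0) (by ring)
  have e2 : pt n (h + c + 0 * c) = pt n (c + h) :=
    ptc (0) (by ring)
  have e3 : pt n (n - U - m + j) = pt n (n + j - U - m) :=
    ptc (0) (by ring)
  have e4 : pt n (n - U - m + (m - 1)) = pt n (n - U - 1) :=
    ptc (0) (by ring)
  have e5 : pt n (n - 1 - h) = pt n (n - h - 1) :=
    ptc (0) (by ring)
  have bm := mle (a := 0) c0 3 (show 0 + 3 ≤ m by omega)
  refine ⟨[(h, 2 * h + j - U - m),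
      (2 * h - U, c + h),
      (n - h - 1, n - h),
      (n + j - U - m, n - U - 1)],
    ?_, ?_, ?_, KE_cc c0 m2 fun b b2 d0 dm => ?_⟩
  · simp only [Srt]; omega
  · simp only [len]; omega
  · simp only [chb, pt_n, wEL, e0, e1, e2, e3, e4, e5]
    abel
  · clear e0 e1 e2 e3 e4 e5
    exact cc_out (by simp only [mem, or_false]; omega) (by simp only [mem, or_false]; omega)

theorem E_l2 {n : ℕ} {h U m c j : ℤ}
    (H : (n : ℤ) = m * c + (2 * h - m - 2 * U) ∧ c = 2 * h ∧ m % 2 = 1 ∧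
      3 ≤ m ∧ m + 1 ≤ 2 * U ∧ 3 * m + 2 ≤ 2 * h - m - 2 * U)
    (ej : j = 0) :
    Row n c (KE h U m c) (wEP n h U m c j - (pt n h + pt n (n - 1 - h) - pt n (U + j))) := by
  obtain ⟨hn, hc, m2, m3, h1, h2⟩ := H
  have c0 : 0 ≤ c := by omega
  have e0 : pt n (2 * h - m - U - 1 + ((j + 1)) * c) = pt n (c + 2 * h - U - m - 1) :=
    ptc (0) (by linear_combination (0 + 1 * c) * ej)
  have e1 : pt n (2 * h - m - U - 1 + (j + 1) * c) = pt n (c + 2 * h - U - m - 1) :=
    ptc (0) (by linear_combination (0 + 1 * c) * ej)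
  have e2 : pt n (2 * h - m - U + m + ((j + 1)) * c) = pt n (c + 2 * h - U) :=
    ptc (0) (by linear_combination (0 + 1 * c) * ej)
  have e3 : pt n (n - 1 - h) = pt n (n - h - 1) :=
    ptc (0) (by ring)
  have e4 : pt n (2 * h - m - U + m + (m - 1) * c) = pt n (m * c + 2 * h - c - U) :=
    ptc (0) (by ring)
  have e5 : pt n (2 * h - m - U + j + ((j + 1)) * c) = pt n (c + 2 * h - U - m) :=
    ptc (0) (by linear_combination (1 + 1 * c) * ej)
  have e6 : pt n (2 * h - m - U + j + (j + 1) * c) = pt n (c + 2 * h - U - m) :=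
    ptc (0) (by linear_combination (1 + 1 * c) * ej)
  have e7 : pt n (n - U - m + j) = pt n (n - U - m) :=
    ptc (0) (by linear_combination (1 + 0 * c) * ej)
  have e8 : pt n (n - h + 1 + j) = pt n (n + 1 - h) :=
    ptc (0) (by linear_combination (1 + 0 * c) * ej)
  have e9 : pt n (2 * h - m - U - 1 + j * c) = pt n (2 * h - U - m - 1) :=
    ptc (0) (by linear_combination (0 + 1 * c) * ej)
  have e10 : pt n (U + j + j * c + c + 1) = pt n (c + U + 1) :=
    ptc (0) (by linear_combination (1 + 1 * c) * ej)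
  have e11 : pt n (U + j + j * c + c) = pt n (c + U) :=
    ptc (0) (by linear_combination (1 + 1 * c) * ej)
  have e12 : pt n (2 * h - m - U + (j + 1) + (j + 1) * c) = pt n (c + 2 * h + 1 - U - m) :=
    ptc (0) (by linear_combination (1 + 1 * c) * ej)
  have e13 : pt n (U + j) = pt n (U) :=
    ptc (0) (by linear_combination (1 + 0 * c) * ej)
  have bm := mle (a := 0) c0 3 (show 0 + 3 ≤ m by omega)
  refine ⟨[(0, U),
      (h, 2 * h - U - m - 1),
      (c + U, c + U + 1),
      (c + 2 * h + 1 - U - m, c + 2 * h - U),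
      (m * c + 2 * h - c - U, n + 1 - h),
      (n - U - m, n)],
    ?_, ?_, ?_, KE_cc c0 m2 fun b b2 d0 dm => ?_⟩
  · simp only [Srt]; omega
  · simp only [len]; omega
  · simp only [chb, pt_n, wEG, wEP, e0, e1, e2, e3, e4, e5, e6, e7, e8, e9, e10, e11, e12, e13]
    abel
  · clear e0 e1 e2 e3 e4 e5 e6 e7 e8 e9 e10 e11 e12 e13
    rcases d0 with d0 | d0
    · exact cc_a (Or.inr (Or.inr (Or.inr (Or.inl ⟨by omega, by omega⟩)))) (Or.inr (Or.inr (Or.inl ⟨by omega, by omega⟩))) (by simp only [mem, or_false]; omega)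
    · exact cc_out (by simp only [mem, or_false]; omega) (by simp only [mem, or_false]; omega)

theorem E_ss {n : ℕ} {h U m c i j : ℤ}
    (H : (n : ℤ) = m * c + (2 * h - m - 2 * U) ∧ c = 2 * h ∧ m % 2 = 1 ∧
      3 ≤ m ∧ m + 1 ≤ 2 * U ∧ 3 * m + 2 ≤ 2 * h - m - 2 * U)
    (r0 : 0 ≤ i) (r1 : i + 1 < j) (r2 : j < m) :
    Row n c (KE h U m c) (wEL n h U m c (i + 1) j - wEL n h U m c i j) := by
  obtain ⟨hn, hc, m2, m3, h1, h2⟩ := H
  have c0 : 0 ≤ c := by omega
  have e0 : pt n (2 * h - m - U + j + ((i + 1)) * c) = pt n (i * c + c + 2 * h + j - U - m) :=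
    ptc (0) (by ring)
  have e1 : pt n (2 * h - m - U + m + ((i + 1)) * c) = pt n (i * c + c + 2 * h - U) :=
    ptc (0) (by ring)
  have e2 : pt n (h + c + ((i + 1)) * c) = pt n (i * c + 2 * c + h) :=
    ptc (0) (by ring)
  have e3 : pt n (n - U - m + j) = pt n (n + j - U - m) :=
    ptc (0) (by ring)
  have e4 : pt n (n - U - m + (m - 1)) = pt n (n - U - 1) :=
    ptc (0) (by ring)
  have e5 : pt n (2 * h - m - U + j + i * c) = pt n (i * c + 2 * h + j - U - m) :=
    ptc (0) (by ring)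
  have e6 : pt n (2 * h - m - U + m + i * c) = pt n (i * c + 2 * h - U) :=
    ptc (0) (by ring)
  have e7 : pt n (h + c + i * c) = pt n (i * c + c + h) :=
    ptc (0) (by ring)
  have bm := mle (a := 0) c0 3 (show 0 + 3 ≤ m by omega)
  have bi := mle (a := 0) c0 0 (show 0 + 0 ≤ i by omega)
  have ci := mle c0 3 (show i + 3 ≤ m by omega)
  refine ⟨[(i * c + 2 * h + j - U - m, i * c + 2 * h - U),
      (i * c + c + h, i * c + c + 2 * h + j - U - m),
      (i * c + c + 2 * h - U, i * c + 2 * c + h)],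
    ?_, ?_, ?_, KE_cc c0 m2 fun b b2 d0 dm => ?_⟩
  · simp only [Srt]; omega
  · simp only [len]; omega
  · simp only [chb, pt_n, wEL, e0, e1, e2, e3, e4, e5, e6, e7]
    abel
  · clear e0 e1 e2 e3 e4 e5 e6 e7
    have d := cmp c0 b i
    rcases d with d | d | d | d | d | d | d
    · exact cc_out (by simp only [mem, or_false]; omega) (by simp only [mem, or_false]; omega)
    · exact cc_out (by simp only [mem, or_false]; omega) (by simp only [mem, or_false]; omega)
    · exact cc_out (by simp only [mem, or_false]; omega) (by simp only [mem, or_false]; omega)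
    · exact cc_in (Or.inr (Or.inl ⟨by omega, by omega⟩)) (Or.inr (Or.inr (Or.inl ⟨by omega, by omega⟩)))
    · exact cc_out (by simp only [mem, or_false]; omega) (by simp only [mem, or_false]; omega)
    · exact cc_out (by simp only [mem, or_false]; omega) (by simp only [mem, or_false]; omega)
    · exact cc_out (by simp only [mem, or_false]; omega) (by simp only [mem, or_false]; omega)

theorem E_sp {n : ℕ} {h U m c j : ℤ}
    (H : (n : ℤ) = m * c + (2 * h - m - 2 * U) ∧ c = 2 * h ∧ m % 2 = 1 ∧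
      3 ≤ m ∧ m + 1 ≤ 2 * U ∧ 3 * m + 2 ≤ 2 * h - m - 2 * U)
    (r0 : 2 ≤ j) (r1 : j < m - 1) (r2 : j % 2 = 0) :
    Row n c (KE h U m c) (wEP n h U m c j - wEL n h U m c (j - 1) j) := by
  obtain ⟨hn, hc, m2, m3, h1, h2⟩ := H
  have c0 : 0 ≤ c := by omega
  have e0 : pt n (2 * h - m - U - 1 + ((j + 1)) * c) = pt n (j * c + c + 2 * h - U - m - 1) :=
    ptc (0) (by ring)
  have e1 : pt n (2 * h - m - U - 1 + (j + 1) * c) = pt n (j * c + c + 2 * h - U - m - 1) :=
    ptc (0) (by ring)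
  have e2 : pt n (2 * h - m - U + m + ((j + 1)) * c) = pt n (j * c + c + 2 * h - U) :=
    ptc (0) (by ring)
  have e3 : pt n (n - 1 - h) = pt n (n - h - 1) :=
    ptc (0) (by ring)
  have e4 : pt n (2 * h - m - U + m + (m - 1) * c) = pt n (m * c + 2 * h - c - U) :=
    ptc (0) (by ring)
  have e5 : pt n (2 * h - m - U + j + ((j + 1)) * c) = pt n (j * c + c + 2 * h + j - U - m) :=
    ptc (0) (by ring)
  have e6 : pt n (2 * h - m - U + j + (j + 1) * c) = pt n (j * c + c + 2 * h + j - U - m) :=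
    ptc (0) (by ring)
  have e7 : pt n (n - U - m + j) = pt n (n + j - U - m) :=
    ptc (0) (by ring)
  have e8 : pt n (n - h + 1 + j) = pt n (n + j + 1 - h) :=
    ptc (0) (by ring)
  have e9 : pt n (2 * h - m - U - 1 + j * c) = pt n (j * c + 2 * h - U - m - 1) :=
    ptc (0) (by ring)
  have e10 : pt n (U + j + j * c + c + 1) = pt n (j * c + c + U + j + 1) :=
    ptc (0) (by ring)
  have e11 : pt n (U + j + j * c + c) = pt n (j * c + c + U + j) :=
    ptc (0) (by ring)
  have e12 : pt n (2 * h - m - U + (j + 1) + (j + 1) * c) = pt n (j * c + c + 2 * h + j + 1 - U - m) :=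
    ptc (0) (by ring)
  have e13 : pt n (2 * h - m - U + j + ((j - 1)) * c) = pt n (j * c + 2 * h + j - c - U - m) :=
    ptc (0) (by ring)
  have e14 : pt n (2 * h - m - U + m + ((j - 1)) * c) = pt n (j * c + 2 * h - c - U) :=
    ptc (0) (by ring)
  have e15 : pt n (h + c + ((j - 1)) * c) = pt n (j * c + h) :=
    ptc (0) (by ring)
  have e16 : pt n (n - U - m + (m - 1)) = pt n (n - U - 1) :=
    ptc (0) (by ring)
  have bm := mle (a := 0) c0 5 (show 0 + 5 ≤ m by omega)
  have bj := mle (a := 0) c0 2 (show 0 + 2 ≤ j by omega)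
  have cj := mle c0 3 (show j + 3 ≤ m by omega)
  refine ⟨[(0, U + j),
      (j * c + 2 * h + j - c - U - m, j * c + 2 * h - c - U),
      (j * c + h, j * c + 2 * h - U - m - 1),
      (j * c + c + U + j, j * c + c + U + j + 1),
      (j * c + c + 2 * h + j + 1 - U - m, j * c + c + 2 * h - U),
      (m * c + 2 * h - c - U, n - h - 1),
      (n - h, n + j + 1 - h),
      (n - U - 1, n)],
    ?_, ?_, ?_, KE_cc c0 m2 fun b b2 d0 dm => ?_⟩
  · simp only [Srt]; omega
  · simp only [len]; omega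
  · simp only [chb, pt_n, wEG, wEL, wEP, e0, e1, e2, e3, e4, e5, e6, e7, e8, e9, e10, e11, e12, e13, e14, e15, e16]
    abel
  · clear e0 e1 e2 e3 e4 e5 e6 e7 e8 e9 e10 e11 e12 e13 e14 e15 e16
    have d := cmp2 c0 b j (by omega)
    rcases d with d | d | d | d | d
    · exact cc_out (by simp only [mem, or_false]; omega) (by simp only [mem, or_false]; omega)
    · exact cc_out (by simp only [mem, or_false]; omega) (by simp only [mem, or_false]; omega)
    · exact cc_a (Or.inr (Or.inr (Or.inr (Or.inr (Or.inl ⟨by omega, by omega⟩))))) (Or.inr (Or.inr (Or.inr (Or.inl ⟨by omega, by omega⟩)))) (by simp only [mem, or_false]; omega)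
    · exact cc_out (by simp only [mem, or_false]; omega) (by simp only [mem, or_false]; omega)
    · exact cc_out (by simp only [mem, or_false]; omega) (by simp only [mem, or_false]; omega)

theorem E_st {n : ℕ} {h U m c : ℤ}
    (H : (n : ℤ) = m * c + (2 * h - m - 2 * U) ∧ c = 2 * h ∧ m % 2 = 1 ∧
      3 ≤ m ∧ m + 1 ≤ 2 * U ∧ 3 * m + 2 ≤ 2 * h - m - 2 * U)
 :
    Row n c (KE h U m c) (wET n h U m c - wEL n h U m c (m - 2) (m - 1)) := by
  obtain ⟨hn, hc, m2, m3, h1, h2⟩ := H
  have c0 : 0 ≤ c := by omega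
  have e0 : pt n (n - 1 - h) = pt n (n - h - 1) :=
    ptc (0) (by ring)
  have e1 : pt n (h + c + (m - 2) * c) = pt n (m * c + h - c) :=
    ptc (0) (by ring)
  have e2 : pt n (h + c + ((m - 2)) * c) = pt n (m * c + h - c) :=
    ptc (0) (by ring)
  have e3 : pt n (2 * h - m - U + m + (m - 1) * c) = pt n (m * c + 2 * h - c - U) :=
    ptc (0) (by ring)
  have e4 : pt n (2 * h - m - U + ((m - 1)) + ((m - 2)) * c) = pt n (m * c + 2 * h - 2 * c - U - 1) :=
    ptc (0) (by ring)
  have e5 : pt n (2 * h - m - U + m + ((m - 2)) * c) = pt n (m * c + 2 * h - 2 * c - U) :=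
    ptc (0) (by ring)
  have e6 : pt n (U + ((m - 1))) = pt n (U + m - 1) :=
    ptc (0) (by ring)
  have e7 : pt n (n - U - m + ((m - 1))) = pt n (n - U - 1) :=
    ptc (0) (by ring)
  have e8 : pt n (n - U - m + (m - 1)) = pt n (n - U - 1) :=
    ptc (0) (by ring)
  have bm := mle (a := 0) c0 3 (show 0 + 3 ≤ m by omega)
  refine ⟨[(0, U + m - 1),
      (h - 1, h),
      (m * c + 2 * h - 2 * c - U - 1, m * c + 2 * h - 2 * c - U),
      (m * c + 2 * h - c - U, n - h - 1),
      (n - h, n)],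
    ?_, ?_, ?_, KE_cc c0 m2 fun b b2 d0 dm => ?_⟩
  · simp only [Srt]; omega
  · simp only [len]; omega
  · simp only [chb, pt_n, wEL, wET, e0, e1, e2, e3, e4, e5, e6, e7, e8]
    abel
  · clear e0 e1 e2 e3 e4 e5 e6 e7 e8
    exact cc_out (by simp only [mem, or_false]; omega) (by simp only [mem, or_false]; omega)

theorem E_rs {n : ℕ} {h U m c j : ℤ}
    (H : (n : ℤ) = m * c + (2 * h - m - 2 * U) ∧ c = 2 * h ∧ m % 2 = 1 ∧
      3 ≤ m ∧ m + 1 ≤ 2 * U ∧ 3 * m + 2 ≤ 2 * h - m - 2 * U)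
    (r0 : 0 ≤ j) (r1 : j < m - 1) (r2 : j % 2 = 0) :
    Row n c (KE h U m c) (wES n h U m c j - wEL n h U m c j (j + 1)) := by
  obtain ⟨hn, hc, m2, m3, h1, h2⟩ := H
  have c0 : 0 ≤ c := by omega
  have e0 : pt n (2 * h - m - U + ((j + 1)) + j * c) = pt n (j * c + 2 * h + j + 1 - U - m) :=
    ptc (0) (by ring)
  have e1 : pt n (2 * h - m - U + (j + 1) + j * c) = pt n (j * c + 2 * h + j + 1 - U - m) :=
    ptc (0) (by ring)
  have e2 : pt n (2 * h - m - U + m + j * c) = pt n (j * c + 2 * h - U) :=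
    ptc (0) (by ring)
  have e3 : pt n (h + c + j * c) = pt n (j * c + c + h) :=
    ptc (0) (by ring)
  have e4 : pt n (U + ((j + 1))) = pt n (U + j + 1) :=
    ptc (0) (by ring)
  have e5 : pt n (U + (j + 1)) = pt n (U + j + 1) :=
    ptc (0) (by ring)
  have e6 : pt n (n - U - m + ((j + 1))) = pt n (n + j + 1 - U - m) :=
    ptc (0) (by ring)
  have e7 : pt n (n - U - m + (m - 1)) = pt n (n - U - 1) :=
    ptc (0) (by ring)
  have e8 : pt n (n - 1 - h) = pt n (n - h - 1) :=
    ptc (0) (by ring)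
  have e9 : pt n (2 * h - m - U - 2 - j + j * c + c) = pt n (j * c + c + 2 * h - U - m - j - 2) :=
    ptc (0) (by ring)
  have e10 : pt n (2 * h - m - U - 2 - j + j * c) = pt n (j * c + 2 * h - U - m - j - 2) :=
    ptc (0) (by ring)
  have e11 : pt n (2 * h - m - U + j + j * c) = pt n (j * c + 2 * h + j - U - m) :=
    ptc (0) (by ring)
  have bm := mle (a := 0) c0 3 (show 0 + 3 ≤ m by omega)
  have bj := mle (a := 0) c0 0 (show 0 + 0 ≤ j by omega)
  have cj := mle c0 3 (show j + 3 ≤ m by omega)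
  refine ⟨[(U + j, U + j + 1),
      (j * c + 2 * h - U - m - j - 2, j * c + 2 * h + j - U - m),
      (j * c + 2 * h + j + 1 - U - m, j * c + c + 2 * h - U - m - j - 2)],
    ?_, ?_, ?_, KE_cc c0 m2 fun b b2 d0 dm => ?_⟩
  · simp only [Srt]; omega
  · simp only [len]; omega
  · simp only [chb, pt_n, wEL, wES, e0, e1, e2, e3, e4, e5, e6, e7, e8, e9, e10, e11]
    abel
  · clear e0 e1 e2 e3 e4 e5 e6 e7 e8 e9 e10 e11
    have d := cmp2 c0 b j (by omega)
    rcases d with d | d | d | d | d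
    · exact cc_out (by simp only [mem, or_false]; omega) (by simp only [mem, or_false]; omega)
    · exact cc_out (by simp only [mem, or_false]; omega) (by simp only [mem, or_false]; omega)
    · exact cc_out (by simp only [mem, or_false]; omega) (by simp only [mem, or_false]; omega)
    · exact cc_out (by simp only [mem, or_false]; omega) (by simp only [mem, or_false]; omega)
    · exact cc_out (by simp only [mem, or_false]; omega) (by simp only [mem, or_false]; omega)

theorem E_pq {n : ℕ} {h U m c j : ℤ}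
    (H : (n : ℤ) = m * c + (2 * h - m - 2 * U) ∧ c = 2 * h ∧ m % 2 = 1 ∧
      3 ≤ m ∧ m + 1 ≤ 2 * U ∧ 3 * m + 2 ≤ 2 * h - m - 2 * U)
    (r0 : 0 ≤ j) (r1 : j < m - 1) (r2 : j % 2 = 0) :
    Row n c (KE h U m c) (wEG n h U m c (j + 1) j - wEP n h U m c j) := by
  obtain ⟨hn, hc, m2, m3, h1, h2⟩ := H
  have c0 : 0 ≤ c := by omega
  have e0 : pt n (2 * h - m - U - 1 + ((j + 1)) * c) = pt n (j * c + c + 2 * h - U - m - 1) :=
    ptc (0) (by ring)
  have e1 : pt n (2 * h - m - U - 1 + (j + 1) * c) = pt n (j * c + c + 2 * h - U - m - 1) :=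
    ptc (0) (by ring)
  have e2 : pt n (2 * h - m - U + m + ((j + 1)) * c) = pt n (j * c + c + 2 * h - U) :=
    ptc (0) (by ring)
  have e3 : pt n (n - 1 - h) = pt n (n - h - 1) :=
    ptc (0) (by ring)
  have e4 : pt n (2 * h - m - U + m + (m - 1) * c) = pt n (m * c + 2 * h - c - U) :=
    ptc (0) (by ring)
  have e5 : pt n (2 * h - m - U + j + ((j + 1)) * c) = pt n (j * c + c + 2 * h + j - U - m) :=
    ptc (0) (by ring)
  have e6 : pt n (2 * h - m - U + j + (j + 1) * c) = pt n (j * c + c + 2 * h + j - U - m) :=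
    ptc (0) (by ring)
  have e7 : pt n (n - U - m + j) = pt n (n + j - U - m) :=
    ptc (0) (by ring)
  have e8 : pt n (n - h + 1 + j) = pt n (n + j + 1 - h) :=
    ptc (0) (by ring)
  have e9 : pt n (2 * h - m - U - 1 + j * c) = pt n (j * c + 2 * h - U - m - 1) :=
    ptc (0) (by ring)
  have e10 : pt n (U + j + j * c + c + 1) = pt n (j * c + c + U + j + 1) :=
    ptc (0) (by ring)
  have e11 : pt n (U + j + j * c + c) = pt n (j * c + c + U + j) :=
    ptc (0) (by ring)
  have e12 : pt n (2 * h - m - U + (j + 1) + (j + 1) * c) = pt n (j * c + c + 2 * h + j + 1 - U - m) :=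
    ptc (0) (by ring)
  have bm := mle (a := 0) c0 3 (show 0 + 3 ≤ m by omega)
  have bj := mle (a := 0) c0 0 (show 0 + 0 ≤ j by omega)
  have cj := mle c0 3 (show j + 3 ≤ m by omega)
  refine ⟨[(j * c + 2 * h - U - m - 1, j * c + c + U + j),
      (j * c + c + U + j + 1, j * c + c + 2 * h - U - m - 1),
      (j * c + c + 2 * h + j - U - m, j * c + c + 2 * h + j + 1 - U - m)],
    ?_, ?_, ?_, KE_cc c0 m2 fun b b2 d0 dm => ?_⟩
  · simp only [Srt]; omega
  · simp only [len]; omega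
  · simp only [chb, pt_n, wEG, wEP, e0, e1, e2, e3, e4, e5, e6, e7, e8, e9, e10, e11, e12]
    abel
  · clear e0 e1 e2 e3 e4 e5 e6 e7 e8 e9 e10 e11 e12
    have d := cmp2 c0 b j (by omega)
    rcases d with d | d | d | d | d
    · exact cc_out (by simp only [mem, or_false]; omega) (by simp only [mem, or_false]; omega)
    · exact cc_out (by simp only [mem, or_false]; omega) (by simp only [mem, or_false]; omega)
    · exact cc_out (by simp only [mem, or_false]; omega) (by simp only [mem, or_false]; omega)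
    · exact cc_out (by simp only [mem, or_false]; omega) (by simp only [mem, or_false]; omega)
    · exact cc_out (by simp only [mem, or_false]; omega) (by simp only [mem, or_false]; omega)

theorem E_gg {n : ℕ} {h U m c i j : ℤ}
    (H : (n : ℤ) = m * c + (2 * h - m - 2 * U) ∧ c = 2 * h ∧ m % 2 = 1 ∧
      3 ≤ m ∧ m + 1 ≤ 2 * U ∧ 3 * m + 2 ≤ 2 * h - m - 2 * U)
    (r0 : 0 ≤ j) (r1 : j < i) (r2 : i + 1 < m) :
    Row n c (KE h U m c) (wEG n h U m c (i + 1) j - wEG n h U m c i j) := by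
  obtain ⟨hn, hc, m2, m3, h1, h2⟩ := H
  have c0 : 0 ≤ c := by omega
  have e0 : pt n (2 * h - m - U - 1 + ((i + 1)) * c) = pt n (i * c + c + 2 * h - U - m - 1) :=
    ptc (0) (by ring)
  have e1 : pt n (2 * h - m - U + m + ((i + 1)) * c) = pt n (i * c + c + 2 * h - U) :=
    ptc (0) (by ring)
  have e2 : pt n (n - 1 - h) = pt n (n - h - 1) :=
    ptc (0) (by ring)
  have e3 : pt n (2 * h - m - U + m + (m - 1) * c) = pt n (m * c + 2 * h - c - U) :=
    ptc (0) (by ring)
  have e4 : pt n (2 * h - m - U + j + ((i + 1)) * c) = pt n (i * c + c + 2 * h + j - U - m) :=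
    ptc (0) (by ring)
  have e5 : pt n (n - U - m + j) = pt n (n + j - U - m) :=
    ptc (0) (by ring)
  have e6 : pt n (n - h + 1 + j) = pt n (n + j + 1 - h) :=
    ptc (0) (by ring)
  have e7 : pt n (2 * h - m - U - 1 + i * c) = pt n (i * c + 2 * h - U - m - 1) :=
    ptc (0) (by ring)
  have e8 : pt n (2 * h - m - U + m + i * c) = pt n (i * c + 2 * h - U) :=
    ptc (0) (by ring)
  have e9 : pt n (2 * h - m - U + j + i * c) = pt n (i * c + 2 * h + j - U - m) :=
    ptc (0) (by ring)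
  have bm := mle (a := 0) c0 3 (show 0 + 3 ≤ m by omega)
  have bi := mle (a := 0) c0 1 (show 0 + 1 ≤ i by omega)
  have ci := mle c0 2 (show i + 2 ≤ m by omega)
  refine ⟨[(i * c + 2 * h - U - m - 1, i * c + 2 * h + j - U - m),
      (i * c + 2 * h - U, i * c + c + 2 * h - U - m - 1),
      (i * c + c + 2 * h + j - U - m, i * c + c + 2 * h - U)],
    ?_, ?_, ?_, KE_cc c0 m2 fun b b2 d0 dm => ?_⟩
  · simp only [Srt]; omega
  · simp only [len]; omega
  · simp only [chb, pt_n, wEG, e0, e1, e2, e3, e4, e5, e6, e7, e8, e9]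
    abel
  · clear e0 e1 e2 e3 e4 e5 e6 e7 e8 e9
    have d := cmp c0 b i
    rcases d with d | d | d | d | d | d | d
    · exact cc_out (by simp only [mem, or_false]; omega) (by simp only [mem, or_false]; omega)
    · exact cc_out (by simp only [mem, or_false]; omega) (by simp only [mem, or_false]; omega)
    · exact cc_b (Or.inr (Or.inl ⟨by omega, by omega⟩)) (Or.inr (Or.inl ⟨by omega, by omega⟩)) (by simp only [mem, or_false]; omega)
    · exact cc_a (Or.inr (Or.inr (Or.inl ⟨by omega, by omega⟩))) (Or.inr (Or.inl ⟨by omega, by omega⟩)) (by simp only [mem, or_false]; omega)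
    · exact cc_out (by simp only [mem, or_false]; omega) (by simp only [mem, or_false]; omega)
    · exact cc_out (by simp only [mem, or_false]; omega) (by simp only [mem, or_false]; omega)
    · exact cc_out (by simp only [mem, or_false]; omega) (by simp only [mem, or_false]; omega)

theorem E_r1 {n : ℕ} {h U m c j : ℤ}
    (H : (n : ℤ) = m * c + (2 * h - m - 2 * U) ∧ c = 2 * h ∧ m % 2 = 1 ∧
      3 ≤ m ∧ m + 1 ≤ 2 * U ∧ 3 * m + 2 ≤ 2 * h - m - 2 * U)
    (r0 : 0 ≤ j) (r1 : j < m - 1) :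
    Row n c (KE h U m c) (pt n h + pt n (n - 1 - h) - pt n (n - U - m + j) - wEG n h U m c (m - 1) j) := by
  obtain ⟨hn, hc, m2, m3, h1, h2⟩ := H
  have c0 : 0 ≤ c := by omega
  have e0 : pt n (n - 1 - h) = pt n (n - h - 1) :=
    ptc (0) (by ring)
  have e1 : pt n (n - U - m + j) = pt n (n + j - U - m) :=
    ptc (0) (by ring)
  have e2 : pt n (2 * h - m - U - 1 + ((m - 1)) * c) = pt n (m * c + 2 * h - c - U - m - 1) :=
    ptc (0) (by ring)
  have e3 : pt n (2 * h - m - U + m + ((m - 1)) * c) = pt n (m * c + 2 * h - c - U) :=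
    ptc (0) (by ring)
  have e4 : pt n (2 * h - m - U + m + (m - 1) * c) = pt n (m * c + 2 * h - c - U) :=
    ptc (0) (by ring)
  have e5 : pt n (2 * h - m - U + j + ((m - 1)) * c) = pt n (m * c + 2 * h + j - c - U - m) :=
    ptc (0) (by ring)
  have e6 : pt n (n - h + 1 + j) = pt n (n + j + 1 - h) :=
    ptc (0) (by ring)
  have bm := mle (a := 0) c0 3 (show 0 + 3 ≤ m by omega)
  refine ⟨[(0, h),
      (m * c + 2 * h - c - U - m - 1, m * c + 2 * h + j - c - U - m),
      (n + j + 1 - h, n)],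
    ?_, ?_, ?_, KE_cc c0 m2 fun b b2 d0 dm => ?_⟩
  · simp only [Srt]; omega
  · simp only [len]; omega
  · simp only [chb, pt_n, wEG, e0, e1, e2, e3, e4, e5, e6]
    abel
  · clear e0 e1 e2 e3 e4 e5 e6
    exact cc_out (by simp only [mem, or_false]; omega) (by simp only [mem, or_false]; omega)

theorem E_r2 {n : ℕ} {h U m c : ℤ}
    (H : (n : ℤ) = m * c + (2 * h - m - 2 * U) ∧ c = 2 * h ∧ m % 2 = 1 ∧
      3 ≤ m ∧ m + 1 ≤ 2 * U ∧ 3 * m + 2 ≤ 2 * h - m - 2 * U)
 :
    Row n c (KE h U m c) (pt n h + pt n (n - 1 - h) - pt n (n - U - m + (m - 1)) - wET n h U m c) := by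
  obtain ⟨hn, hc, m2, m3, h1, h2⟩ := H
  have c0 : 0 ≤ c := by omega
  have e0 : pt n (n - 1 - h) = pt n (n - h - 1) :=
    ptc (0) (by ring)
  have e1 : pt n (n - U - m + (m - 1)) = pt n (n - U - 1) :=
    ptc (0) (by ring)
  have e2 : pt n (h + c + (m - 2) * c) = pt n (m * c + h - c) :=
    ptc (0) (by ring)
  have e3 : pt n (2 * h - m - U + m + (m - 1) * c) = pt n (m * c + 2 * h - c - U) :=
    ptc (0) (by ring)
  have bm := mle (a := 0) c0 3 (show 0 + 3 ≤ m by omega)
  refine ⟨[(0, h - 1),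
      (m * c + h - c, m * c + 2 * h - c - U),
      (n - U - 1, n)],
    ?_, ?_, ?_, KE_cc c0 m2 fun b b2 d0 dm => ?_⟩
  · simp only [Srt]; omega
  · simp only [len]; omega
  · simp only [chb, pt_n, wET, e0, e1, e2, e3]
    abel
  · clear e0 e1 e2 e3
    exact cc_out (by simp only [mem, or_false]; omega) (by simp only [mem, or_false]; omega)

theorem E_ra {n : ℕ} {h U m c j : ℤ}
    (H : (n : ℤ) = m * c + (2 * h - m - 2 * U) ∧ c = 2 * h ∧ m % 2 = 1 ∧
      3 ≤ m ∧ m + 1 ≤ 2 * U ∧ 3 * m + 2 ≤ 2 * h - m - 2 * U)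
    (r0 : 0 ≤ j) (r1 : j < m - 1) (r2 : j % 2 = 0) :
    Row n c (KE h U m c) (wEG n h U m c (j + 1 + 1) (j + 1) - wES n h U m c j
      + (pt n (2 * h - m - U - 2 - j + j * c + c) - pt n (2 * h - m - U - 2 - j + j * c)
      - (pt n (2 * h - m - U - 2 - j + j * c - 1 + c + c)
      - pt n (2 * h - m - U - 2 - j + j * c - 1 + c)))) := by
  obtain ⟨hn, hc, m2, m3, h1, h2⟩ := H
  have c0 : 0 ≤ c := by omega
  have e0 : pt n (2 * h - m - U - 1 + ((j + 1 + 1)) * c) = pt n (j * c + 2 * c + 2 * h - U - m - 1) :=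
    ptc (0) (by ring)
  have e1 : pt n (2 * h - m - U + m + ((j + 1 + 1)) * c) = pt n (j * c + 2 * c + 2 * h - U) :=
    ptc (0) (by ring)
  have e2 : pt n (n - 1 - h) = pt n (n - h - 1) :=
    ptc (0) (by ring)
  have e3 : pt n (2 * h - m - U + m + (m - 1) * c) = pt n (m * c + 2 * h - c - U) :=
    ptc (0) (by ring)
  have e4 : pt n (2 * h - m - U + ((j + 1)) + ((j + 1 + 1)) * c) = pt n (j * c + 2 * c + 2 * h + j + 1 - U - m) :=
    ptc (0) (by ring)
  have e5 : pt n (n - U - m + ((j + 1))) = pt n (n + j + 1 - U - m) :=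
    ptc (0) (by ring)
  have e6 : pt n (n - h + 1 + ((j + 1))) = pt n (n + j + 2 - h) :=
    ptc (0) (by ring)
  have e7 : pt n (2 * h - m - U + ((j + 1)) + j * c) = pt n (j * c + 2 * h + j + 1 - U - m) :=
    ptc (0) (by ring)
  have e8 : pt n (2 * h - m - U + (j + 1) + j * c) = pt n (j * c + 2 * h + j + 1 - U - m) :=
    ptc (0) (by ring)
  have e9 : pt n (2 * h - m - U + m + j * c) = pt n (j * c + 2 * h - U) :=
    ptc (0) (by ring)
  have e10 : pt n (h + c + j * c) = pt n (j * c + c + h) :=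
    ptc (0) (by ring)
  have e11 : pt n (U + ((j + 1))) = pt n (U + j + 1) :=
    ptc (0) (by ring)
  have e12 : pt n (U + (j + 1)) = pt n (U + j + 1) :=
    ptc (0) (by ring)
  have e13 : pt n (n - U - m + (m - 1)) = pt n (n - U - 1) :=
    ptc (0) (by ring)
  have e14 : pt n (2 * h - m - U - 2 - j + j * c + c) = pt n (j * c + c + 2 * h - U - m - j - 2) :=
    ptc (0) (by ring)
  have e15 : pt n (2 * h - m - U - 2 - j + j * c) = pt n (j * c + 2 * h - U - m - j - 2) :=
    ptc (0) (by ring)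
  have e16 : pt n (2 * h - m - U + j + j * c) = pt n (j * c + 2 * h + j - U - m) :=
    ptc (0) (by ring)
  have e17 : pt n (2 * h - m - U - 2 - j + j * c - 1 + c + c) = pt n (j * c + 2 * c + 2 * h - U - m - j - 3) :=
    ptc (0) (by ring)
  have e18 : pt n (2 * h - m - U - 2 - j + j * c - 1 + c) = pt n (j * c + c + 2 * h - U - m - j - 3) :=
    ptc (0) (by ring)
  have bm := mle (a := 0) c0 3 (show 0 + 3 ≤ m by omega)
  have bj := mle (a := 0) c0 0 (show 0 + 0 ≤ j by omega)
  have cj := mle c0 3 (show j + 3 ≤ m by omega)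
  refine ⟨[(0, U + j),
      (j * c + 2 * h + j - U - m, j * c + 2 * h - U),
      (j * c + c + h, j * c + c + 2 * h - U - m - j - 3),
      (j * c + 2 * c + 2 * h - U - m - j - 3, j * c + 2 * c + 2 * h - U - m - 1),
      (j * c + 2 * c + 2 * h + j + 1 - U - m, j * c + 2 * c + 2 * h - U),
      (m * c + 2 * h - c - U, n - h - 1),
      (n - h, n + j + 2 - h),
      (n - U - 1, n)],
    ?_, ?_, ?_, KE_cc c0 m2 fun b b2 d0 dm => ?_⟩
  · simp only [Srt]; omega
  · simp only [len]; omega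
  · simp only [chb, pt_n, wEG, wEL, wES, e0, e1, e2, e3, e4, e5, e6, e7, e8, e9, e10, e11, e12, e13, e14, e15, e16, e17, e18]
    abel
  · clear e0 e1 e2 e3 e4 e5 e6 e7 e8 e9 e10 e11 e12 e13 e14 e15 e16 e17 e18
    have d := cmp2 c0 b j (by omega)
    rcases d with d | d | d | d | d
    · exact cc_out (by simp only [mem, or_false]; omega) (by simp only [mem, or_false]; omega)
    · exact cc_out (by simp only [mem, or_false]; omega) (by simp only [mem, or_false]; omega)
    · exact cc_out (by simp only [mem, or_false]; omega) (by simp only [mem, or_false]; omega)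
    · exact cc_out (by simp only [mem, or_false]; omega) (by simp only [mem, or_false]; omega)
    · exact cc_out (by simp only [mem, or_false]; omega) (by simp only [mem, or_false]; omega)

theorem E_rb {n : ℕ} {h U m c j : ℤ}
    (H : (n : ℤ) = m * c + (2 * h - m - 2 * U) ∧ c = 2 * h ∧ m % 2 = 1 ∧
      3 ≤ m ∧ m + 1 ≤ 2 * U ∧ 3 * m + 2 ≤ 2 * h - m - 2 * U)
    (r0 : 0 ≤ j) (r1 : j < m - 1) (r2 : j % 2 = 0) :
    Row n c (KE h U m c) (pt n (2 * h - m - U - 2 - j + j * c - 1 + c) - pt n (2 * h - m - U - 2 - j + j * c - 1)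
      - (pt n (2 * h - m - U - 2 - j + j * c + c) - pt n (2 * h - m - U - 2 - j + j * c)
      - (pt n (2 * h - m - U - 2 - j + j * c - 1 + c + c)
      - pt n (2 * h - m - U - 2 - j + j * c - 1 + c)))) := by
  obtain ⟨hn, hc, m2, m3, h1, h2⟩ := H
  have c0 : 0 ≤ c := by omega
  have e0 : pt n (2 * h - m - U - 2 - j + j * c - 1 + c) = pt n (j * c + c + 2 * h - U - m - j - 3) :=
    ptc (0) (by ring)
  have e1 : pt n (2 * h - m - U - 2 - j + j * c - 1) = pt n (j * c + 2 * h - U - m - j - 3) :=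
    ptc (0) (by ring)
  have e2 : pt n (2 * h - m - U - 2 - j + j * c + c) = pt n (j * c + c + 2 * h - U - m - j - 2) :=
    ptc (0) (by ring)
  have e3 : pt n (2 * h - m - U - 2 - j + j * c) = pt n (j * c + 2 * h - U - m - j - 2) :=
    ptc (0) (by ring)
  have e4 : pt n (2 * h - m - U - 2 - j + j * c - 1 + c + c) = pt n (j * c + 2 * c + 2 * h - U - m - j - 3) :=
    ptc (0) (by ring)
  have bm := mle (a := 0) c0 3 (show 0 + 3 ≤ m by omega)
  have bj := mle (a := 0) c0 0 (show 0 + 0 ≤ j by omega)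
  have cj := mle c0 3 (show j + 3 ≤ m by omega)
  refine ⟨[(j * c + 2 * h - U - m - j - 3, j * c + 2 * h - U - m - j - 2),
      (j * c + c + 2 * h - U - m - j - 2, j * c + 2 * c + 2 * h - U - m - j - 3)],
    ?_, ?_, ?_, KE_cc c0 m2 fun b b2 d0 dm => ?_⟩
  · simp only [Srt]; omega
  · simp only [len]; omega
  · simp only [chb, pt_n, e0, e1, e2, e3, e4]
    abel
  · clear e0 e1 e2 e3 e4
    have d := cmp2 c0 b j (by omega)
    rcases d with d | d | d | d | d
    · exact cc_out (by simp only [mem, or_false]; omega) (by simp only [mem, or_false]; omega)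
    · exact cc_out (by simp only [mem, or_false]; omega) (by simp only [mem, or_false]; omega)
    · exact cc_in (Or.inr (Or.inl ⟨by omega, by omega⟩)) (Or.inr (Or.inl ⟨by omega, by omega⟩))
    · exact cc_out (by simp only [mem, or_false]; omega) (by simp only [mem, or_false]; omega)
    · exact cc_out (by simp only [mem, or_false]; omega) (by simp only [mem, or_false]; omega)

theorem E_o1 {n : ℕ} {h U m c : ℤ}
    (H : (n : ℤ) = m * c + (2 * h - m - 2 * U) ∧ c = 2 * h ∧ m % 2 = 1 ∧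
      3 ≤ m ∧ m + 1 ≤ 2 * U ∧ 3 * m + 2 ≤ 2 * h - m - 2 * U)
 :
    Row n c (KE h U m c) (wEO n h U m c - pt n (n - 1 - h - c)) := by
  obtain ⟨hn, hc, m2, m3, h1, h2⟩ := H
  have c0 : 0 ≤ c := by omega
  have e0 : pt n (2 * h - m - U + (m - 1) + (m - 1) * c) = pt n (m * c + 2 * h - c - U - 1) :=
    ptc (0) (by ring)
  have e1 : pt n (n - h + 1 + (m - 2)) = pt n (n + m - h - 1) :=
    ptc (0) (by ring)
  have e2 : pt n (n - U - m + (m - 1)) = pt n (n - U - 1) :=
    ptc (0) (by ring)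
  have e3 : pt n (n - 1 - h - c) = pt n (n - c - h - 1) :=
    ptc (0) (by ring)
  have bm := mle (a := 0) c0 3 (show 0 + 3 ≤ m by omega)
  refine ⟨[(n - c - h - 1, m * c + 2 * h - c - U - 1),
      (n + m - h - 1, n - U - 1)],
    ?_, ?_, ?_, KE_cc c0 m2 fun b b2 d0 dm => ?_⟩
  · simp only [Srt]; omega
  · simp only [len]; omega
  · simp only [chb, pt_n, wEO, e0, e1, e2, e3]
    abel
  · clear e0 e1 e2 e3
    rcases dm with dm | dm
    · by_cases hb : n - c - h - 1 ≤ b * c + 2 * c + U + b ∧ b * c + 2 * c + U + b < m * c + 2 * h - c - U - 1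
      · exact cc_b (Or.inl ⟨by omega, by omega⟩) (Or.inl ⟨by omega, by omega⟩) (by simp only [mem, or_false]; omega)
      · exact cc_out (by simp only [mem, or_false]; omega) (by simp only [mem, or_false]; omega)
    · exact cc_out (by simp only [mem, or_false]; omega) (by simp only [mem, or_false]; omega)

theorem E_o2 {n : ℕ} {h U m c : ℤ}
    (H : (n : ℤ) = m * c + (2 * h - m - 2 * U) ∧ c = 2 * h ∧ m % 2 = 1 ∧
      3 ≤ m ∧ m + 1 ≤ 2 * U ∧ 3 * m + 2 ≤ 2 * h - m - 2 * U)
 :
    Row n c (KE h U m c) (pt n h + pt n (n - 1 - h) - pt n (n - h) - wEO n h U m c) := by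
  obtain ⟨hn, hc, m2, m3, h1, h2⟩ := H
  have c0 : 0 ≤ c := by omega
  have e0 : pt n (n - 1 - h) = pt n (n - h - 1) :=
    ptc (0) (by ring)
  have e1 : pt n (2 * h - m - U + (m - 1) + (m - 1) * c) = pt n (m * c + 2 * h - c - U - 1) :=
    ptc (0) (by ring)
  have e2 : pt n (n - h + 1 + (m - 2)) = pt n (n + m - h - 1) :=
    ptc (0) (by ring)
  have e3 : pt n (n - U - m + (m - 1)) = pt n (n - U - 1) :=
    ptc (0) (by ring)
  have bm := mle (a := 0) c0 3 (show 0 + 3 ≤ m by omega)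
  refine ⟨[(0, h),
      (m * c + 2 * h - c - U - 1, n - h - 1),
      (n - h, n + m - h - 1),
      (n - U - 1, n)],
    ?_, ?_, ?_, KE_cc c0 m2 fun b b2 d0 dm => ?_⟩
  · simp only [Srt]; omega
  · simp only [len]; omega
  · simp only [chb, pt_n, wEO, e0, e1, e2, e3]
    abel
  · clear e0 e1 e2 e3
    exact cc_out (by simp only [mem, or_false]; omega) (by simp only [mem, or_false]; omega)

theorem E_an {n : ℕ} {h U m c : ℤ}
    (H : (n : ℤ) = m * c + (2 * h - m - 2 * U) ∧ c = 2 * h ∧ m % 2 = 1 ∧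
      3 ≤ m ∧ m + 1 ≤ 2 * U ∧ 3 * m + 2 ≤ 2 * h - m - 2 * U)
 :
    Row n c (KE h U m c) (pt n (n - h) - (pt n h + pt n (n - 1 - h) - pt n (h + c - 1))) := by
  obtain ⟨hn, hc, m2, m3, h1, h2⟩ := H
  have c0 : 0 ≤ c := by omega
  have e0 : pt n (n - 1 - h) = pt n (n - h - 1) :=
    ptc (0) (by ring)
  have e1 : pt n (h + c - 1) = pt n (c + h - 1) :=
    ptc (0) (by ring)
  have bm := mle (a := 0) c0 3 (show 0 + 3 ≤ m by omega)
  refine ⟨[(h, c + h - 1),
      (n - h - 1, n - h)],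
    ?_, ?_, ?_, KE_cc c0 m2 fun b b2 d0 dm => ?_⟩
  · simp only [Srt]; omega
  · simp only [len]; omega
  · simp only [chb, pt_n, e0, e1]
    abel
  · clear e0 e1
    exact cc_out (by simp only [mem, or_false]; omega) (by simp only [mem, or_false]; omega)

end Pool.Agent.P.MP_009630_co
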