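import Pool.Agent.P.MP_009630_co.Vals

set_option autoImplicit false

namespace Pool.Agent.P.MP_009630_co

theorem G_l1 {n : ℕ} {p tp m c j : ℤ}
    (H : (n : ℤ) = m * c + 2 * tp + 1 ∧ c = 2 * p + m ∧ m % 2 = 0 ∧
      4 ≤ m ∧ m ≤ tp ∧ tp + m + 1 ≤ p ∧ 2 * tp < p)
    (r0 : 0 ≤ j) (r1 : j < m - 1) :
    Row n c (KG p tp m c) (wGL n p tp m c 0 j - pt n (n - p + tp - j)) := by
  obtain ⟨hn, hc, m2, m4, h1, h2, h3⟩ := H
  have c0 : 0 ≤ c := by omega
  have e0 : pt n (p + tp + 1 + (m - 1 - j) + (m - 1 - 0) * c) = pt n (m * c + p + tp + m - c - j) :=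
    ptc (0) (by ring)
  have e1 : pt n (tp + (m - 1 - 0) * c) = pt n (m * c + tp - c) :=
    ptc (0) (by ring)
  have e2 : pt n (tp + (m - 1) * c) = pt n (m * c + tp - c) :=
    ptc (0) (by ring)
  have e3 : pt n (2 * tp + 1 - p + ((m - 1 - 0) + 1) * c) = pt n (m * c + 2 * tp + 1 - p) :=
    ptc (0) (by ring)
  have e4 : pt n (n - p) = pt n (m * c + 2 * tp + 1 - p) :=
    ptc (0) (by linear_combination (1) * hn)
  have e5 : pt n (p - tp + m - 1 - j) = pt n (p + m - tp - j - 1) :=
    ptc (0) (by ring)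
  have e6 : pt n (n - p - 3 * tp - 2 - j) = pt n (n - p - 3 * tp - j - 2) :=
    ptc (0) (by ring)
  have e7 : pt n (n - p + tp - j) = pt n (n + tp - p - j) :=
    ptc (0) (by ring)
  have bm := mle (a := 0) c0 4 (show 0 + 4 ≤ m by omega)
  refine ⟨[(0, p + m - tp - j - 1),
      (n - p - 3 * tp - j - 2, m * c + p + tp + m - c - j),
      (n + tp - p - j, n)],
    ?_, ?_, ?_, KG_cc c0 m2 fun b b2 d0 dm => ?_⟩
  · simp only [Srt]; omega
  · simp only [len]; omega
  · simp only [chb, pt_n, wGL, e0, e1, e2, e3, e4, e5, e6, e7]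
    abel
  · clear e0 e1 e2 e3 e4 e5 e6 e7
    exact cc_out (by simp only [mem, or_false]; omega) (by simp only [mem, or_false]; omega)

theorem G_l2 {n : ℕ} {p tp m c j : ℤ}
    (H : (n : ℤ) = m * c + 2 * tp + 1 ∧ c = 2 * p + m ∧ m % 2 = 0 ∧
      4 ≤ m ∧ m ≤ tp ∧ tp + m + 1 ≤ p ∧ 2 * tp < p)
    (ej : j = m - 1) :
    Row n c (KG p tp m c) (wGP n p tp m c j - pt n (n - p + tp - j)) := by
  obtain ⟨hn, hc, m2, m4, h1, h2, h3⟩ := H
  have c0 : 0 ≤ c := by omega
  have e0 : pt n (p + tp + 1 + (m - 1 - j) + (m - 1 - ((m - j))) * c) = pt n (m * c + p + tp + 1 - 2 * c) :=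
    ptc (0) (by linear_combination (-1 + 1 * c) * ej)
  have e1 : pt n (p + tp + 1 + (m - 1 - j) + (j - 1) * c) = pt n (m * c + p + tp + 1 - 2 * c) :=
    ptc (0) (by linear_combination (-1 + 1 * c) * ej)
  have e2 : pt n (2 * tp + 1 - p + (j + 1) * c) = pt n (n - p) :=
    ptc (0) (by linear_combination (0 + 1 * c) * ej + (-1) * hn)
  have e3 : pt n (p + j) = pt n (p + m - 1) :=
    ptc (0) (by linear_combination (1 + 0 * c) * ej)
  have e4 : pt n (p + (m - 1)) = pt n (p + m - 1) :=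
    ptc (0) (by ring)
  have e5 : pt n (n - tp + m - (j + 1)) = pt n (n - tp) :=
    ptc (0) (by linear_combination (-1 + 0 * c) * ej)
  have e6 : pt n (p + tp + 1 + m + (m - 1 - ((m - j))) * c) = pt n (m * c + p + tp + m + 1 - 2 * c) :=
    ptc (0) (by linear_combination (0 + 1 * c) * ej)
  have e7 : pt n (p + tp + 2 * m + (m - 1 - ((m - j))) * c) = pt n (m * c + p + tp + 2 * m - 2 * c) :=
    ptc (0) (by linear_combination (0 + 1 * c) * ej)
  have e8 : pt n (2 * tp + 1 - p + j * c) = pt n (m * c + 2 * tp + 1 - c - p) :=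
    ptc (0) (by linear_combination (0 + 1 * c) * ej)
  have e9 : pt n (p + j + j * c + 1) = pt n (m * c + p + m - c) :=
    ptc (0) (by linear_combination (1 + 1 * c) * ej)
  have e10 : pt n (p + j + j * c) = pt n (m * c + p + m - c - 1) :=
    ptc (0) (by linear_combination (1 + 1 * c) * ej)
  have e11 : pt n (p + tp + 1 + (m - j) + (j - 1) * c) = pt n (m * c + p + tp + 2 - 2 * c) :=
    ptc (0) (by linear_combination (-1 + 1 * c) * ej)
  have e12 : pt n (n - p + tp - j) = pt n (n + tp + 1 - p - m) :=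
    ptc (0) (by linear_combination (-1 + 0 * c) * ej)
  have bm := mle (a := 0) c0 4 (show 0 + 4 ≤ m by omega)
  refine ⟨[(0, p),
      (m * c + p + tp + 2 - 2 * c, m * c + p + tp + m + 1 - 2 * c),
      (m * c + p + tp + 2 * m - 2 * c, m * c + 2 * tp + 1 - c - p),
      (m * c + p + m - c - 1, m * c + p + m - c),
      (n + tp + 1 - p - m, n)],
    ?_, ?_, ?_, KG_cc c0 m2 fun b b2 d0 dm => ?_⟩
  · simp only [Srt]; omega
  · simp only [len]; omega
  · simp only [chb, pt_n, wGU, wGP, e0, e1, e2, e3, e4, e5, e6, e7, e8, e9, e10, e11, e12]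
    abel
  · clear e0 e1 e2 e3 e4 e5 e6 e7 e8 e9 e10 e11 e12
    rcases dm with dm | dm
    · exact cc_a (Or.inr (Or.inl ⟨by omega, by omega⟩)) (Or.inr (Or.inr (Or.inr (Or.inl ⟨by omega, by omega⟩)))) (by simp only [mem, or_false]; omega)
    · exact cc_out (by simp only [mem, or_false]; omega) (by simp only [mem, or_false]; omega)

theorem G_ll {n : ℕ} {p tp m c i j : ℤ}
    (H : (n : ℤ) = m * c + 2 * tp + 1 ∧ c = 2 * p + m ∧ m % 2 = 0 ∧
      4 ≤ m ∧ m ≤ tp ∧ tp + m + 1 ≤ p ∧ 2 * tp < p)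
    (r0 : 0 ≤ i) (r1 : 0 ≤ j) (r2 : i + 1 + j < m - 1) :
    Row n c (KG p tp m c) (wGL n p tp m c (i + 1) j - wGL n p tp m c i j) := by
  obtain ⟨hn, hc, m2, m4, h1, h2, h3⟩ := H
  have c0 : 0 ≤ c := by omega
  have e0 : pt n (p + tp + 1 + (m - 1 - j) + (m - 1 - ((i + 1))) * c) = pt n (m * c + p + tp + m - i * c - 2 * c - j) :=
    ptc (0) (by ring)
  have e1 : pt n (tp + (m - 1 - ((i + 1))) * c) = pt n (m * c + tp - i * c - 2 * c) :=
    ptc (0) (by ring)
  have e2 : pt n (2 * tp + 1 - p + ((m - 1 - ((i + 1))) + 1) * c) = pt n (m * c + 2 * tp + 1 - i * c - c - p) :=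
    ptc (0) (by ring)
  have e3 : pt n (tp + (m - 1) * c) = pt n (m * c + tp - c) :=
    ptc (0) (by ring)
  have e4 : pt n (p - tp + m - 1 - j) = pt n (p + m - tp - j - 1) :=
    ptc (0) (by ring)
  have e5 : pt n (n - p - 3 * tp - 2 - j) = pt n (n - p - 3 * tp - j - 2) :=
    ptc (0) (by ring)
  have e6 : pt n (p + tp + 1 + (m - 1 - j) + (m - 1 - i) * c) = pt n (m * c + p + tp + m - i * c - c - j) :=
    ptc (0) (by ring)
  have e7 : pt n (tp + (m - 1 - i) * c) = pt n (m * c + tp - i * c - c) :=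
    ptc (0) (by ring)
  have e8 : pt n (2 * tp + 1 - p + ((m - 1 - i) + 1) * c) = pt n (m * c + 2 * tp + 1 - i * c - p) :=
    ptc (0) (by ring)
  have bm := mle (a := 0) c0 4 (show 0 + 4 ≤ m by omega)
  have bi := mle (a := 0) c0 0 (show 0 + 0 ≤ i by omega)
  have ci := mle c0 3 (show i + 3 ≤ m by omega)
  refine ⟨[(m * c + tp - i * c - 2 * c, m * c + p + tp + m - i * c - 2 * c - j),
      (m * c + 2 * tp + 1 - i * c - c - p, m * c + tp - i * c - c),
      (m * c + p + tp + m - i * c - c - j, m * c + 2 * tp + 1 - i * c - p)],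
    ?_, ?_, ?_, KG_cc c0 m2 fun b b2 d0 dm => ?_⟩
  · simp only [Srt]; omega
  · simp only [len]; omega
  · simp only [chb, pt_n, wGL, e0, e1, e2, e3, e4, e5, e6, e7, e8]
    abel
  · clear e0 e1 e2 e3 e4 e5 e6 e7 e8
    have d := cmp c0 b (m - i)
    rw [sub_mul] at d
    rcases d with d | d | d | d | d | d | d
    · exact cc_out (by simp only [mem, or_false]; omega) (by simp only [mem, or_false]; omega)
    · exact cc_out (by simp only [mem, or_false]; omega) (by simp only [mem, or_false]; omega)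
    · exact cc_in (Or.inl ⟨by omega, by omega⟩) (Or.inl ⟨by omega, by omega⟩)
    · exact cc_out (by simp only [mem, or_false]; omega) (by simp only [mem, or_false]; omega)
    · exact cc_out (by simp only [mem, or_false]; omega) (by simp only [mem, or_false]; omega)
    · exact cc_out (by simp only [mem, or_false]; omega) (by simp only [mem, or_false]; omega)
    · exact cc_out (by simp only [mem, or_false]; omega) (by simp only [mem, or_false]; omega)

theorem G_lp {n : ℕ} {p tp m c j : ℤ}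
    (H : (n : ℤ) = m * c + 2 * tp + 1 ∧ c = 2 * p + m ∧ m % 2 = 0 ∧
      4 ≤ m ∧ m ≤ tp ∧ tp + m + 1 ≤ p ∧ 2 * tp < p)
    (r0 : 0 ≤ j) (r1 : j < m - 1) (r2 : j % 2 = 1) :
    Row n c (KG p tp m c) (wGP n p tp m c j - wGL n p tp m c (m - 2 - j) j) := by
  obtain ⟨hn, hc, m2, m4, h1, h2, h3⟩ := H
  have c0 : 0 ≤ c := by omega
  have e0 : pt n (p + tp + 1 + (m - 1 - j) + (m - 1 - ((m - j))) * c) = pt n (j * c + p + tp + m - c - j) :=
    ptc (0) (by ring)
  have e1 : pt n (p + tp + 1 + (m - 1 - j) + (j - 1) * c) = pt n (j * c + p + tp + m - c - j) :=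
    ptc (0) (by ring)
  have e2 : pt n (n - tp + m - (j + 1)) = pt n (n + m - tp - j - 1) :=
    ptc (0) (by ring)
  have e3 : pt n (p + (m - 1)) = pt n (p + m - 1) :=
    ptc (0) (by ring)
  have e4 : pt n (p + tp + 1 + m + (m - 1 - ((m - j))) * c) = pt n (j * c + p + tp + m + 1 - c) :=
    ptc (0) (by ring)
  have e5 : pt n (p + tp + 2 * m + (m - 1 - ((m - j))) * c) = pt n (j * c + p + tp + 2 * m - c) :=
    ptc (0) (by ring)
  have e6 : pt n (2 * tp + 1 - p + (j + 1) * c) = pt n (j * c + c + 2 * tp + 1 - p) :=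
    ptc (0) (by ring)
  have e7 : pt n (2 * tp + 1 - p + j * c) = pt n (j * c + 2 * tp + 1 - p) :=
    ptc (0) (by ring)
  have e8 : pt n (p + j + j * c + 1) = pt n (j * c + p + j + 1) :=
    ptc (0) (by ring)
  have e9 : pt n (p + j + j * c) = pt n (j * c + p + j) :=
    ptc (0) (by ring)
  have e10 : pt n (p + tp + 1 + (m - j) + (j - 1) * c) = pt n (j * c + p + tp + m + 1 - c - j) :=
    ptc (0) (by ring)
  have e11 : pt n (p + tp + 1 + (m - 1 - j) + (m - 1 - ((m - 2 - j))) * c) = pt n (j * c + c + p + tp + m - j) :=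
    ptc (0) (by ring)
  have e12 : pt n (tp + (m - 1 - ((m - 2 - j))) * c) = pt n (j * c + c + tp) :=
    ptc (0) (by ring)
  have e13 : pt n (2 * tp + 1 - p + ((m - 1 - ((m - 2 - j))) + 1) * c) = pt n (j * c + 2 * c + 2 * tp + 1 - p) :=
    ptc (0) (by ring)
  have e14 : pt n (tp + (m - 1) * c) = pt n (m * c + tp - c) :=
    ptc (0) (by ring)
  have e15 : pt n (p - tp + m - 1 - j) = pt n (p + m - tp - j - 1) :=
    ptc (0) (by ring)
  have e16 : pt n (n - p - 3 * tp - 2 - j) = pt n (n - p - 3 * tp - j - 2) :=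
    ptc (0) (by ring)
  have bm := mle (a := 0) c0 4 (show 0 + 4 ≤ m by omega)
  have bj := mle (a := 0) c0 1 (show 0 + 1 ≤ j by omega)
  have cj := mle c0 3 (show j + 3 ≤ m by omega)
  refine ⟨[(p + m - tp - j - 1, p),
      (p + j, p + m - 1),
      (j * c + p + tp + m + 1 - c - j, j * c + p + tp + m + 1 - c),
      (j * c + p + tp + 2 * m - c, j * c + 2 * tp + 1 - p),
      (j * c + p + j, j * c + p + j + 1),
      (j * c + c + 2 * tp + 1 - p, j * c + c + tp),
      (j * c + c + p + tp + m - j, j * c + 2 * c + 2 * tp + 1 - p),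
      (m * c + tp - c, n - p - 3 * tp - j - 2),
      (n - tp, n + m - tp - j - 1)],
    ?_, ?_, ?_, KG_cc c0 m2 fun b b2 d0 dm => ?_⟩
  · simp only [Srt]; omega
  · simp only [len]; omega
  · simp only [chb, pt_n, wGL, wGU, wGP, e0, e1, e2, e3, e4, e5, e6, e7, e8, e9, e10, e11, e12, e13, e14, e15, e16]
    abel
  · clear e0 e1 e2 e3 e4 e5 e6 e7 e8 e9 e10 e11 e12 e13 e14 e15 e16
    have d := cmp2 c0 b j (by omega)
    rcases d with d | d | d | d | d
    · exact cc_out (by simp only [mem, or_false]; omega) (by simp only [mem, or_false]; omega)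
    · exact cc_out (by simp only [mem, or_false]; omega) (by simp only [mem, or_false]; omega)
    · rcases d0 with d0 | d0
      · exact cc_in (Or.inr (Or.inr (Or.inl ⟨by omega, by omega⟩))) (Or.inr (Or.inl ⟨by omega, by omega⟩))
      · exact cc_a (Or.inr (Or.inr (Or.inl ⟨by omega, by omega⟩))) (Or.inr (Or.inr (Or.inr (Or.inr (Or.inl ⟨by omega, by omega⟩))))) (by simp only [mem, or_false]; omega)
    · exact cc_out (by simp only [mem, or_false]; omega) (by simp only [mem, or_false]; omega)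
    · exact cc_out (by simp only [mem, or_false]; omega) (by simp only [mem, or_false]; omega)

theorem G_rs {n : ℕ} {p tp m c j : ℤ}
    (H : (n : ℤ) = m * c + 2 * tp + 1 ∧ c = 2 * p + m ∧ m % 2 = 0 ∧
      4 ≤ m ∧ m ≤ tp ∧ tp + m + 1 ≤ p ∧ 2 * tp < p)
    (r0 : 0 ≤ j) (r1 : j < m) (r2 : j % 2 = 1) :
    Row n c (KG p tp m c) (wGS n p tp m c j - wGL n p tp m c (m - 1 - j) (j - 1)) := by
  obtain ⟨hn, hc, m2, m4, h1, h2, h3⟩ := H
  have c0 : 0 ≤ c := by omega
  have e0 : pt n (p + tp + 1 + (m - 1 - ((j - 1))) + (m - 1 - ((m - 1 - j))) * c) = pt n (j * c + p + tp + m + 1 - j) :=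
    ptc (0) (by ring)
  have e1 : pt n (p + tp + 1 + (m - j) + j * c) = pt n (j * c + p + tp + m + 1 - j) :=
    ptc (0) (by ring)
  have e2 : pt n (tp + (m - 1 - ((m - 1 - j))) * c) = pt n (j * c + tp) :=
    ptc (0) (by ring)
  have e3 : pt n (2 * tp + 1 - p + ((m - 1 - ((m - 1 - j))) + 1) * c) = pt n (j * c + c + 2 * tp + 1 - p) :=
    ptc (0) (by ring)
  have e4 : pt n (tp + (m - 1) * c) = pt n (m * c + tp - c) :=
    ptc (0) (by ring)
  have e5 : pt n (p - tp + m - 1 - ((j - 1))) = pt n (p + m - tp - j) :=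
    ptc (0) (by ring)
  have e6 : pt n (n - p - 3 * tp - 2 - ((j - 1))) = pt n (n - p - 3 * tp - j - 1) :=
    ptc (0) (by ring)
  have e7 : pt n (n - tp + m - (j + 1)) = pt n (n + m - tp - j - 1) :=
    ptc (0) (by ring)
  have e8 : pt n (n - tp + m - j) = pt n (n + m - tp - j) :=
    ptc (0) (by ring)
  have e9 : pt n (tp + j * c - j + c) = pt n (j * c + c + tp - j) :=
    ptc (0) (by ring)
  have e10 : pt n (tp + j * c - j) = pt n (j * c + tp - j) :=
    ptc (0) (by ring)
  have e11 : pt n (p + tp + 1 + (m - 1 - j) + j * c) = pt n (j * c + p + tp + m - j) :=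
    ptc (0) (by ring)
  have bm := mle (a := 0) c0 4 (show 0 + 4 ≤ m by omega)
  have bj := mle (a := 0) c0 1 (show 0 + 1 ≤ j by omega)
  have cj := mle c0 1 (show j + 1 ≤ m by omega)
  refine ⟨[(j * c + tp - j, j * c + p + tp + m - j),
      (j * c + p + tp + m + 1 - j, j * c + c + tp - j),
      (n + m - tp - j - 1, n + m - tp - j)],
    ?_, ?_, ?_, KG_cc c0 m2 fun b b2 d0 dm => ?_⟩
  · simp only [Srt]; omega
  · simp only [len]; omega
  · simp only [chb, pt_n, wGL, wGS, e0, e1, e2, e3, e4, e5, e6, e7, e8, e9, e10, e11]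
    abel
  · clear e0 e1 e2 e3 e4 e5 e6 e7 e8 e9 e10 e11
    have d := cmp2 c0 b j (by omega)
    rcases d with d | d | d | d | d
    · exact cc_out (by simp only [mem, or_false]; omega) (by simp only [mem, or_false]; omega)
    · exact cc_out (by simp only [mem, or_false]; omega) (by simp only [mem, or_false]; omega)
    · exact cc_out (by simp only [mem, or_false]; omega) (by simp only [mem, or_false]; omega)
    · exact cc_out (by simp only [mem, or_false]; omega) (by simp only [mem, or_false]; omega)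
    · exact cc_out (by simp only [mem, or_false]; omega) (by simp only [mem, or_false]; omega)

theorem G_pq {n : ℕ} {p tp m c j : ℤ}
    (H : (n : ℤ) = m * c + 2 * tp + 1 ∧ c = 2 * p + m ∧ m % 2 = 0 ∧
      4 ≤ m ∧ m ≤ tp ∧ tp + m + 1 ≤ p ∧ 2 * tp < p)
    (r0 : 0 ≤ j) (r1 : j < m) (r2 : j % 2 = 1) :
    Row n c (KG p tp m c) (wGU n p tp m c (m - j) j - wGP n p tp m c j) := by
  obtain ⟨hn, hc, m2, m4, h1, h2, h3⟩ := H
  have c0 : 0 ≤ c := by omega
  have e0 : pt n (p + tp + 1 + (m - 1 - j) + (m - 1 - ((m - j))) * c) = pt n (j * c + p + tp + m - c - j) :=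
    ptc (0) (by ring)
  have e1 : pt n (p + tp + 1 + (m - 1 - j) + (j - 1) * c) = pt n (j * c + p + tp + m - c - j) :=
    ptc (0) (by ring)
  have e2 : pt n (n - tp + m - (j + 1)) = pt n (n + m - tp - j - 1) :=
    ptc (0) (by ring)
  have e3 : pt n (p + (m - 1)) = pt n (p + m - 1) :=
    ptc (0) (by ring)
  have e4 : pt n (p + tp + 1 + m + (m - 1 - ((m - j))) * c) = pt n (j * c + p + tp + m + 1 - c) :=
    ptc (0) (by ring)
  have e5 : pt n (p + tp + 2 * m + (m - 1 - ((m - j))) * c) = pt n (j * c + p + tp + 2 * m - c) :=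
    ptc (0) (by ring)
  have e6 : pt n (2 * tp + 1 - p + (j + 1) * c) = pt n (j * c + c + 2 * tp + 1 - p) :=
    ptc (0) (by ring)
  have e7 : pt n (2 * tp + 1 - p + j * c) = pt n (j * c + 2 * tp + 1 - p) :=
    ptc (0) (by ring)
  have e8 : pt n (p + j + j * c + 1) = pt n (j * c + p + j + 1) :=
    ptc (0) (by ring)
  have e9 : pt n (p + j + j * c) = pt n (j * c + p + j) :=
    ptc (0) (by ring)
  have e10 : pt n (p + tp + 1 + (m - j) + (j - 1) * c) = pt n (j * c + p + tp + m + 1 - c - j) :=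
    ptc (0) (by ring)
  have bm := mle (a := 0) c0 4 (show 0 + 4 ≤ m by omega)
  have bj := mle (a := 0) c0 1 (show 0 + 1 ≤ j by omega)
  have cj := mle c0 1 (show j + 1 ≤ m by omega)
  refine ⟨[(j * c + p + tp + m - c - j, j * c + p + tp + m + 1 - c - j),
      (j * c + 2 * tp + 1 - p, j * c + p + j),
      (j * c + p + j + 1, j * c + c + 2 * tp + 1 - p)],
    ?_, ?_, ?_, KG_cc c0 m2 fun b b2 d0 dm => ?_⟩
  · simp only [Srt]; omega
  · simp only [len]; omega
  · simp only [chb, pt_n, wGU, wGP, e0, e1, e2, e3, e4, e5, e6, e7, e8, e9, e10]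
    abel
  · clear e0 e1 e2 e3 e4 e5 e6 e7 e8 e9 e10
    have d := cmp2 c0 b j (by omega)
    rcases d with d | d | d | d | d
    · exact cc_out (by simp only [mem, or_false]; omega) (by simp only [mem, or_false]; omega)
    · exact cc_out (by simp only [mem, or_false]; omega) (by simp only [mem, or_false]; omega)
    · exact cc_out (by simp only [mem, or_false]; omega) (by simp only [mem, or_false]; omega)
    · exact cc_out (by simp only [mem, or_false]; omega) (by simp only [mem, or_false]; omega)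
    · exact cc_out (by simp only [mem, or_false]; omega) (by simp only [mem, or_false]; omega)

theorem G_uu {n : ℕ} {p tp m c i j : ℤ}
    (H : (n : ℤ) = m * c + 2 * tp + 1 ∧ c = 2 * p + m ∧ m % 2 = 0 ∧
      4 ≤ m ∧ m ≤ tp ∧ tp + m + 1 ≤ p ∧ 2 * tp < p)
    (r0 : i + 1 < m) (r1 : j < m) (r2 : m - 1 < i + j) :
    Row n c (KG p tp m c) (wGU n p tp m c (i + 1) j - wGU n p tp m c i j) := by
  obtain ⟨hn, hc, m2, m4, h1, h2, h3⟩ := H
  have c0 : 0 ≤ c := by omega
  have e0 : pt n (p + tp + 1 + (m - 1 - j) + (m - 1 - ((i + 1))) * c) = pt n (m * c + p + tp + m - i * c - 2 * c - j) :=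
    ptc (0) (by ring)
  have e1 : pt n (n - tp + m - (j + 1)) = pt n (n + m - tp - j - 1) :=
    ptc (0) (by ring)
  have e2 : pt n (p + (m - 1)) = pt n (p + m - 1) :=
    ptc (0) (by ring)
  have e3 : pt n (p + tp + 1 + m + (m - 1 - ((i + 1))) * c) = pt n (m * c + p + tp + m + 1 - i * c - 2 * c) :=
    ptc (0) (by ring)
  have e4 : pt n (p + tp + 2 * m + (m - 1 - ((i + 1))) * c) = pt n (m * c + p + tp + 2 * m - i * c - 2 * c) :=
    ptc (0) (by ring)
  have e5 : pt n (p + tp + 1 + (m - 1 - j) + (m - 1 - i) * c) = pt n (m * c + p + tp + m - i * c - c - j) :=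
    ptc (0) (by ring)
  have e6 : pt n (p + tp + 1 + m + (m - 1 - i) * c) = pt n (m * c + p + tp + m + 1 - i * c - c) :=
    ptc (0) (by ring)
  have e7 : pt n (p + tp + 2 * m + (m - 1 - i) * c) = pt n (m * c + p + tp + 2 * m - i * c - c) :=
    ptc (0) (by ring)
  have bm := mle (a := 0) c0 4 (show 0 + 4 ≤ m by omega)
  have bi := mle (a := 0) c0 1 (show 0 + 1 ≤ i by omega)
  have ci := mle c0 2 (show i + 2 ≤ m by omega)
  refine ⟨[(m * c + p + tp + m - i * c - 2 * c - j, m * c + p + tp + m + 1 - i * c - 2 * c),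
      (m * c + p + tp + 2 * m - i * c - 2 * c, m * c + p + tp + m - i * c - c - j),
      (m * c + p + tp + m + 1 - i * c - c, m * c + p + tp + 2 * m - i * c - c)],
    ?_, ?_, ?_, KG_cc c0 m2 fun b b2 d0 dm => ?_⟩
  · simp only [Srt]; omega
  · simp only [len]; omega
  · simp only [chb, pt_n, wGU, e0, e1, e2, e3, e4, e5, e6, e7]
    abel
  · clear e0 e1 e2 e3 e4 e5 e6 e7
    have d := cmp c0 b (m - i)
    rw [sub_mul] at d
    rcases d with d | d | d | d | d | d | d
    · exact cc_out (by simp only [mem, or_false]; omega) (by simp only [mem, or_false]; omega)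
    · exact cc_out (by simp only [mem, or_false]; omega) (by simp only [mem, or_false]; omega)
    · exact cc_a (Or.inl ⟨by omega, by omega⟩) (Or.inr (Or.inl ⟨by omega, by omega⟩)) (by simp only [mem, or_false]; omega)
    · exact cc_b (Or.inr (Or.inl ⟨by omega, by omega⟩)) (Or.inr (Or.inl ⟨by omega, by omega⟩)) (by simp only [mem, or_false]; omega)
    · exact cc_out (by simp only [mem, or_false]; omega) (by simp only [mem, or_false]; omega)
    · exact cc_out (by simp only [mem, or_false]; omega) (by simp only [mem, or_false]; omega)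
    · exact cc_out (by simp only [mem, or_false]; omega) (by simp only [mem, or_false]; omega)

theorem G_r1 {n : ℕ} {p tp m c j : ℤ}
    (H : (n : ℤ) = m * c + 2 * tp + 1 ∧ c = 2 * p + m ∧ m % 2 = 0 ∧
      4 ≤ m ∧ m ≤ tp ∧ tp + m + 1 ≤ p ∧ 2 * tp < p)
    (r0 : 1 ≤ j) (r1 : j < m) :
    Row n c (KG p tp m c) (pt n (p - tp + m - 1 - j) - wGU n p tp m c (m - 1) j) := by
  obtain ⟨hn, hc, m2, m4, h1, h2, h3⟩ := H
  have c0 : 0 ≤ c := by omega
  have e0 : pt n (p - tp + m - 1 - j) = pt n (p + m - tp - j - 1) :=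
    ptc (0) (by ring)
  have e1 : pt n (p + tp + 1 + (m - 1 - j) + (m - 1 - ((m - 1))) * c) = pt n (p + tp + m - j) :=
    ptc (0) (by ring)
  have e2 : pt n (n - tp + m - (j + 1)) = pt n (n + m - tp - j - 1) :=
    ptc (0) (by ring)
  have e3 : pt n (p + (m - 1)) = pt n (p + m - 1) :=
    ptc (0) (by ring)
  have e4 : pt n (p + tp + 1 + m + (m - 1 - ((m - 1))) * c) = pt n (p + tp + m + 1) :=
    ptc (0) (by ring)
  have e5 : pt n (p + tp + 2 * m + (m - 1 - ((m - 1))) * c) = pt n (p + tp + 2 * m) :=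
    ptc (0) (by ring)
  have bm := mle (a := 0) c0 4 (show 0 + 4 ≤ m by omega)
  refine ⟨[(0, p + m - tp - j - 1),
      (p, p + j),
      (p + m - 1, p + tp + m - j),
      (p + tp + m + 1, p + tp + 2 * m),
      (n - p, n - tp),
      (n + m - tp - j - 1, n)],
    ?_, ?_, ?_, KG_cc c0 m2 fun b b2 d0 dm => ?_⟩
  · simp only [Srt]; omega
  · simp only [len]; omega
  · simp only [chb, pt_n, wGU, e0, e1, e2, e3, e4, e5]
    abel
  · clear e0 e1 e2 e3 e4 e5
    rcases d0 with d0 | d0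
    · by_cases hb : p ≤ b * c + p + b - c ∧ b * c + p + b - c < p + j
      · exact cc_b (Or.inr (Or.inl ⟨by omega, by omega⟩)) (Or.inr (Or.inl ⟨by omega, by omega⟩)) (by simp only [mem, or_false]; omega)
      · exact cc_out (by simp only [mem, or_false]; omega) (by simp only [mem, or_false]; omega)
    · exact cc_out (by simp only [mem, or_false]; omega) (by simp only [mem, or_false]; omega)

theorem G_ra {n : ℕ} {p tp m c j : ℤ}
    (H : (n : ℤ) = m * c + 2 * tp + 1 ∧ c = 2 * p + m ∧ m % 2 = 0 ∧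
      4 ≤ m ∧ m ≤ tp ∧ tp + m + 1 ≤ p ∧ 2 * tp < p)
    (r0 : 3 ≤ j) (r1 : j < m) (r2 : j % 2 = 1) :
    Row n c (KG p tp m c) (wGU n p tp m c (m - j + 1) (j - 1) - wGS n p tp m c j + (pt n (tp + j * c - j + c)
      - pt n (tp + j * c - j) - (pt n (tp + j * c - j + 1) - pt n (tp + j * c - j + 1 - c)))) := by
  obtain ⟨hn, hc, m2, m4, h1, h2, h3⟩ := H
  have c0 : 0 ≤ c := by omega
  have e0 : pt n (p + tp + 1 + (m - 1 - ((j - 1))) + (m - 1 - ((m - j + 1))) * c) = pt n (j * c + p + tp + m + 1 - 2 * c - j) :=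
    ptc (0) (by ring)
  have e1 : pt n (p + ((j - 1))) = pt n (p + j - 1) :=
    ptc (0) (by ring)
  have e2 : pt n (n - tp + m - (((j - 1)) + 1)) = pt n (n + m - tp - j) :=
    ptc (0) (by ring)
  have e3 : pt n (n - tp + m - j) = pt n (n + m - tp - j) :=
    ptc (0) (by ring)
  have e4 : pt n (p + (m - 1)) = pt n (p + m - 1) :=
    ptc (0) (by ring)
  have e5 : pt n (p + tp + 1 + m + (m - 1 - ((m - j + 1))) * c) = pt n (j * c + p + tp + m + 1 - 2 * c) :=
    ptc (0) (by ring)
  have e6 : pt n (p + tp + 2 * m + (m - 1 - ((m - j + 1))) * c) = pt n (j * c + p + tp + 2 * m - 2 * c) :=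
    ptc (0) (by ring)
  have e7 : pt n (p + tp + 1 + (m - 1 - ((j - 1))) + (m - 1 - ((m - 1 - j))) * c) = pt n (j * c + p + tp + m + 1 - j) :=
    ptc (0) (by ring)
  have e8 : pt n (p + tp + 1 + (m - j) + j * c) = pt n (j * c + p + tp + m + 1 - j) :=
    ptc (0) (by ring)
  have e9 : pt n (tp + (m - 1 - ((m - 1 - j))) * c) = pt n (j * c + tp) :=
    ptc (0) (by ring)
  have e10 : pt n (2 * tp + 1 - p + ((m - 1 - ((m - 1 - j))) + 1) * c) = pt n (j * c + c + 2 * tp + 1 - p) :=
    ptc (0) (by ring)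
  have e11 : pt n (tp + (m - 1) * c) = pt n (m * c + tp - c) :=
    ptc (0) (by ring)
  have e12 : pt n (p - tp + m - 1 - ((j - 1))) = pt n (p + m - tp - j) :=
    ptc (0) (by ring)
  have e13 : pt n (n - p - 3 * tp - 2 - ((j - 1))) = pt n (n - p - 3 * tp - j - 1) :=
    ptc (0) (by ring)
  have e14 : pt n (n - tp + m - (j + 1)) = pt n (n + m - tp - j - 1) :=
    ptc (0) (by ring)
  have e15 : pt n (tp + j * c - j + c) = pt n (j * c + c + tp - j) :=
    ptc (0) (by ring)
  have e16 : pt n (tp + j * c - j) = pt n (j * c + tp - j) :=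
    ptc (0) (by ring)
  have e17 : pt n (p + tp + 1 + (m - 1 - j) + j * c) = pt n (j * c + p + tp + m - j) :=
    ptc (0) (by ring)
  have e18 : pt n (tp + j * c - j + 1) = pt n (j * c + tp + 1 - j) :=
    ptc (0) (by ring)
  have e19 : pt n (tp + j * c - j + 1 - c) = pt n (j * c + tp + 1 - c - j) :=
    ptc (0) (by ring)
  have bm := mle (a := 0) c0 4 (show 0 + 4 ≤ m by omega)
  have bj := mle (a := 0) c0 3 (show 0 + 3 ≤ j by omega)
  have cj := mle c0 1 (show j + 1 ≤ m by omega)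
  rcases (by omega : j + 1 = m ∨ j + 3 ≤ m) with q | q
  · have q1 : j * c + c = m * c := by rw [← q]; ring
    refine ⟨[(p + m - tp - j, p),
        (p + j - 1, p + m - 1),
        (j * c + p + tp + m + 1 - 2 * c - j, j * c + p + tp + m + 1 - 2 * c),
        (j * c + p + tp + 2 * m - 2 * c, j * c + tp + 1 - c - j),
        (j * c + tp + 1 - j, j * c + tp),
        (m * c + tp - c, n - p - 3 * tp - j - 1),
        (j * c + p + tp + m - j, j * c + c + 2 * tp + 1 - p),
        (n - tp, n + m - tp - j - 1)],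
      ?_, ?_, ?_, KG_cc c0 m2 fun b b2 d0 dm => ?_⟩
    · simp only [Srt]; omega
    · simp only [len]; omega
    · simp only [chb, pt_n, wGL, wGU, wGS, e0, e1, e2, e3, e4, e5, e6, e7, e8, e9, e10, e11, e12, e13, e14, e15, e16, e17, e18, e19]
      abel
    · clear e0 e1 e2 e3 e4 e5 e6 e7 e8 e9 e10 e11 e12 e13 e14 e15 e16 e17 e18 e19
      have d := cmp2 c0 b j (by omega)
      rcases d with d | d | d | d | d
      · exact cc_out (by simp only [mem, or_false]; omega) (by simp only [mem, or_false]; omega)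
      · exact cc_out (by simp only [mem, or_false]; omega) (by simp only [mem, or_false]; omega)
      · exact cc_out (by simp only [mem, or_false]; omega) (by simp only [mem, or_false]; omega)
      · omega
      · omega
  · have q1 := mle c0 3 q
    refine ⟨[(p + m - tp - j, p),
        (p + j - 1, p + m - 1),
        (j * c + p + tp + m + 1 - 2 * c - j, j * c + p + tp + m + 1 - 2 * c),
        (j * c + p + tp + 2 * m - 2 * c, j * c + tp + 1 - c - j),
        (j * c + tp + 1 - j, j * c + tp),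
        (j * c + p + tp + m - j, j * c + c + 2 * tp + 1 - p),
        (m * c + tp - c, n - p - 3 * tp - j - 1),
        (n - tp, n + m - tp - j - 1)],
      ?_, ?_, ?_, KG_cc c0 m2 fun b b2 d0 dm => ?_⟩
    · simp only [Srt]; omega
    · simp only [len]; omega
    · simp only [chb, pt_n, wGL, wGU, wGS, e0, e1, e2, e3, e4, e5, e6, e7, e8, e9, e10, e11, e12, e13, e14, e15, e16, e17, e18, e19]
      abel
    · clear e0 e1 e2 e3 e4 e5 e6 e7 e8 e9 e10 e11 e12 e13 e14 e15 e16 e17 e18 e19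
      have d := cmp2 c0 b j (by omega)
      rcases d with d | d | d | d | d
      · exact cc_out (by simp only [mem, or_false]; omega) (by simp only [mem, or_false]; omega)
      · exact cc_out (by simp only [mem, or_false]; omega) (by simp only [mem, or_false]; omega)
      · exact cc_out (by simp only [mem, or_false]; omega) (by simp only [mem, or_false]; omega)
      · exact cc_out (by simp only [mem, or_false]; omega) (by simp only [mem, or_false]; omega)
      · exact cc_out (by simp only [mem, or_false]; omega) (by simp only [mem, or_false]; omega)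

theorem G_ra1 {n : ℕ} {p tp m c j : ℤ}
    (H : (n : ℤ) = m * c + 2 * tp + 1 ∧ c = 2 * p + m ∧ m % 2 = 0 ∧
      4 ≤ m ∧ m ≤ tp ∧ tp + m + 1 ≤ p ∧ 2 * tp < p)
    (ej : j = 1) :
    Row n c (KG p tp m c) (pt n (p - tp + m - 1 - (j - 1)) - wGS n p tp m c j + (pt n (tp + j * c - j + c)
      - pt n (tp + j * c - j) - (pt n (tp + j * c - j + 1) - (pt n p + pt n (n - p)
      - pt n (n - tp))))) := by
  obtain ⟨hn, hc, m2, m4, h1, h2, h3⟩ := H
  have c0 : 0 ≤ c := by omega
  have e0 : pt n (p - tp + m - 1 - (j - 1)) = pt n (p + m - tp - 1) :=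
    ptc (0) (by linear_combination (-1 + 0 * c) * ej)
  have e1 : pt n (p - tp + m - 1 - ((j - 1))) = pt n (p + m - tp - 1) :=
    ptc (0) (by linear_combination (-1 + 0 * c) * ej)
  have e2 : pt n (p + tp + 1 + (m - 1 - ((j - 1))) + (m - 1 - ((m - 1 - j))) * c) = pt n (c + p + tp + m) :=
    ptc (0) (by linear_combination (-1 + 1 * c) * ej)
  have e3 : pt n (p + tp + 1 + (m - j) + j * c) = pt n (c + p + tp + m) :=
    ptc (0) (by linear_combination (-1 + 1 * c) * ej)
  have e4 : pt n (tp + (m - 1 - ((m - 1 - j))) * c) = pt n (c + tp) :=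
    ptc (0) (by linear_combination (0 + 1 * c) * ej)
  have e5 : pt n (tp + j * c - j + 1) = pt n (c + tp) :=
    ptc (0) (by linear_combination (-1 + 1 * c) * ej)
  have e6 : pt n (2 * tp + 1 - p + ((m - 1 - ((m - 1 - j))) + 1) * c) = pt n (2 * c + 2 * tp + 1 - p) :=
    ptc (0) (by linear_combination (0 + 1 * c) * ej)
  have e7 : pt n (tp + (m - 1) * c) = pt n (m * c + tp - c) :=
    ptc (0) (by ring)
  have e8 : pt n (n - p - 3 * tp - 2 - ((j - 1))) = pt n (n - p - 3 * tp - 2) :=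
    ptc (0) (by linear_combination (-1 + 0 * c) * ej)
  have e9 : pt n (n - tp + m - (j + 1)) = pt n (n + m - tp - 2) :=
    ptc (0) (by linear_combination (-1 + 0 * c) * ej)
  have e10 : pt n (n - tp + m - j) = pt n (n + m - tp - 1) :=
    ptc (0) (by linear_combination (-1 + 0 * c) * ej)
  have e11 : pt n (tp + j * c - j + c) = pt n (2 * c + tp - 1) :=
    ptc (0) (by linear_combination (-1 + 1 * c) * ej)
  have e12 : pt n (tp + j * c - j) = pt n (c + tp - 1) :=
    ptc (0) (by linear_combination (-1 + 1 * c) * ej)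
  have e13 : pt n (p + tp + 1 + (m - 1 - j) + j * c) = pt n (c + p + tp + m - 1) :=
    ptc (0) (by linear_combination (-1 + 1 * c) * ej)
  have bm := mle (a := 0) c0 4 (show 0 + 4 ≤ m by omega)
  refine ⟨[(0, p),
      (c + p + tp + m - 1, 2 * c + 2 * tp + 1 - p),
      (m * c + tp - c, n - p - 3 * tp - 2),
      (n - tp, n + m - tp - 2),
      (n + m - tp - 1, n)],
    ?_, ?_, ?_, KG_cc c0 m2 fun b b2 d0 dm => ?_⟩
  · simp only [Srt]; omega
  · simp only [len]; omega
  · simp only [chb, pt_n, wGL, wGS, e0, e1, e2, e3, e4, e5, e6, e7, e8, e9, e10, e11, e12, e13]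
    abel
  · clear e0 e1 e2 e3 e4 e5 e6 e7 e8 e9 e10 e11 e12 e13
    exact cc_out (by simp only [mem, or_false]; omega) (by simp only [mem, or_false]; omega)

theorem G_rb {n : ℕ} {p tp m c j : ℤ}
    (H : (n : ℤ) = m * c + 2 * tp + 1 ∧ c = 2 * p + m ∧ m % 2 = 0 ∧
      4 ≤ m ∧ m ≤ tp ∧ tp + m + 1 ≤ p)
    (r0 : 3 ≤ j) (r1 : j < m) (r2 : j % 2 = 1) :
    Row n c (KG p tp m c) (pt n (tp + j * c - j + 1 + c) - pt n (tp + j * c - j + 1) - (pt n (tp + j * c - j + c)
      - pt n (tp + j * c - j) - (pt n (tp + j * c - j + 1) - pt n (tp + j * c - j + 1 - c)))) := by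
  obtain ⟨hn, hc, m2, m4, h1, h2⟩ := H
  have c0 : 0 ≤ c := by omega
  have e0 : pt n (tp + j * c - j + 1 + c) = pt n (j * c + c + tp + 1 - j) :=
    ptc (0) (by ring)
  have e1 : pt n (tp + j * c - j + 1) = pt n (j * c + tp + 1 - j) :=
    ptc (0) (by ring)
  have e2 : pt n (tp + j * c - j + c) = pt n (j * c + c + tp - j) :=
    ptc (0) (by ring)
  have e3 : pt n (tp + j * c - j) = pt n (j * c + tp - j) :=
    ptc (0) (by ring)
  have e4 : pt n (tp + j * c - j + 1 - c) = pt n (j * c + tp + 1 - c - j) :=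
    ptc (0) (by ring)
  have bm := mle (a := 0) c0 4 (show 0 + 4 ≤ m by omega)
  have bj := mle (a := 0) c0 3 (show 0 + 3 ≤ j by omega)
  have cj := mle c0 1 (show j + 1 ≤ m by omega)
  refine ⟨[(j * c + tp + 1 - c - j, j * c + tp - j),
      (j * c + c + tp - j, j * c + c + tp + 1 - j)],
    ?_, ?_, ?_, KG_cc c0 m2 fun b b2 d0 dm => ?_⟩
  · simp only [Srt]; omega
  · simp only [len]; omega
  · simp only [chb, pt_n, e0, e1, e2, e3, e4]
    abel
  · clear e0 e1 e2 e3 e4
    have d := cmp2 c0 b j (by omega)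
    rcases d with d | d | d | d | d
    · exact cc_out (by simp only [mem, or_false]; omega) (by simp only [mem, or_false]; omega)
    · exact cc_out (by simp only [mem, or_false]; omega) (by simp only [mem, or_false]; omega)
    · exact cc_in (Or.inl ⟨by omega, by omega⟩) (Or.inl ⟨by omega, by omega⟩)
    · exact cc_out (by simp only [mem, or_false]; omega) (by simp only [mem, or_false]; omega)
    · exact cc_out (by simp only [mem, or_false]; omega) (by simp only [mem, or_false]; omega)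

theorem G_rb1 {n : ℕ} {p tp m c j : ℤ}
    (H : (n : ℤ) = m * c + 2 * tp + 1 ∧ c = 2 * p + m ∧ m % 2 = 0 ∧
      4 ≤ m ∧ m ≤ tp ∧ tp + m + 1 ≤ p)
    (ej : j = 1) :
    Row n c (KG p tp m c) (pt n (tp + j * c - j + 1 + c) - pt n (tp + j * c - j + 1) - (pt n (tp + j * c - j + c)
      - pt n (tp + j * c - j) - (pt n (tp + j * c - j + 1) - (pt n p + pt n (n - p)
      - pt n (n - tp))))) := by
  obtain ⟨hn, hc, m2, m4, h1, h2⟩ := H
  have c0 : 0 ≤ c := by omega
  have e0 : pt n (tp + j * c - j + 1 + c) = pt n (2 * c + tp) :=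
    ptc (0) (by linear_combination (-1 + 1 * c) * ej)
  have e1 : pt n (tp + j * c - j + 1) = pt n (c + tp) :=
    ptc (0) (by linear_combination (-1 + 1 * c) * ej)
  have e2 : pt n (tp + j * c - j + c) = pt n (2 * c + tp - 1) :=
    ptc (0) (by linear_combination (-1 + 1 * c) * ej)
  have e3 : pt n (tp + j * c - j) = pt n (c + tp - 1) :=
    ptc (0) (by linear_combination (-1 + 1 * c) * ej)
  have bm := mle (a := 0) c0 4 (show 0 + 4 ≤ m by omega)
  refine ⟨[(p, c + tp - 1),
      (2 * c + tp - 1, 2 * c + tp),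
      (n - p, n - tp)],
    ?_, ?_, ?_, KG_cc c0 m2 fun b b2 d0 dm => ?_⟩
  · simp only [Srt]; omega
  · simp only [len]; omega
  · simp only [chb, pt_n, e0, e1, e2, e3]
    abel
  · clear e0 e1 e2 e3
    rcases d0 with d0 | d0
    · exact cc_in (Or.inl ⟨by omega, by omega⟩) (Or.inl ⟨by omega, by omega⟩)
    · exact cc_out (by simp only [mem, or_false]; omega) (by simp only [mem, or_false]; omega)

end Pool.Agent.P.MP_009630_co
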