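import Pool.Agent.P.MP_009630_co.Sparse

set_option autoImplicit false

open Finset

namespace Pool.Agent.P.MP_009630_co

/-- A solution of order `13`. -/
def M13 : Matrix (Fin 13) (Fin 13) ℤ :=
  !![0, 1, 1, 0, 1, 0, 0, 0, 1, 1, 0, 0, 0;
    0, 0, 0, 1, 0, 0, 1, 1, 0, 1, 0, 0, 1;
    1, 1, 0, 0, 0, 0, 1, 0, 0, 0, 1, 0, 1;
    0, 0, 0, 1, 0, 0, 1, 1, 0, 1, 1, 0, 0;
    0, 1, 1, 0, 1, 1, 0, 0, 1, 0, 0, 0, 0;
    1, 0, 1, 0, 0, 1, 0, 0, 1, 0, 0, 1, 0;
    0, 0, 0, 0, 1, 0, 1, 1, 1, 0, 0, 0, 1;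
    1, 1, 1, 0, 0, 0, 0, 0, 0, 1, 0, 0, 1;
    0, 0, 0, 1, 0, 0, 0, 1, 0, 1, 1, 1, 0;
    0, 0, 1, 0, 1, 1, 0, 0, 1, 0, 0, 1, 0;
    1, 1, 0, 0, 0, 1, 0, 0, 0, 0, 1, 1, 0;
    0, 0, 0, 1, 1, 0, 1, 1, 0, 0, 0, 0, 1;
    1, 0, 0, 1, 0, 1, 0, 0, 0, 0, 1, 1, 0]

theorem sol13 : Sol 13 5 (-1) 2 := by
  refine ⟨M13, by decide +kernel, by decide +kernel, by decide +kernel, ?_⟩
  ext i k
  simp only [Matrix.mul_apply, Matrix.add_apply, Matrix.smul_apply, Matrix.one_apply,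
    Matrix.of_apply, smul_eq_mul]
  revert i k
  decide +kernel

theorem not5 : ¬ ((5 : ℕ) • (2 : ZMod 3) = 0 ^ 3) := by decide

theorem not_sol5 : ¬ Sol 5 3 (-1) 2 := by
  intro h
  obtain ⟨B, h01, hr, -, hs⟩ := sol_compl h
  have hsq : ∀ i k, ∑ j, B i j * B j k = 1 - if i = k then 1 else 0 := by
    intro i k
    have := congrFun (congrFun hs i) k
    simp only [Matrix.mul_apply, Matrix.add_apply, Matrix.smul_apply, Matrix.one_apply,
      Matrix.of_apply, smul_eq_mul] at this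
    rw [this]
    split_ifs <;> norm_num
  have hd : ∀ i, B i i = 0 := by
    intro i
    have e := hsq i i
    rw [if_pos rfl, sub_self] at e
    have nn : ∀ j ∈ (univ : Finset (Fin 5)), 0 ≤ B i j * B j i := by
      intro j _
      rcases h01 i j with a | a <;> rcases h01 j i with b | b <;> simp [a, b]
    have := (sum_eq_zero_iff_of_nonneg nn).1 e i (mem_univ i)
    exact mul_self_eq_zero.1 this
  have h3 : ∀ i, (B ^ 3) i i = 2 := by
    intro i
    have e : B ^ 3 = B * (B * B) := by rw [pow_succ', sq]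
    rw [e, Matrix.mul_apply]
    simp only [Matrix.mul_apply, hsq, mul_sub, sum_sub_distrib, mul_one, mul_ite, mul_zero,
      sum_ite_eq', mem_univ, if_true, hr i, hd i]
    norm_num
  have : Fact (Nat.Prime 3) := ⟨Nat.prime_three⟩
  have t := ZMod.trace_pow_card ((Int.castRingHom (ZMod 3)).mapMatrix B)
  rw [← map_pow] at t
  simp only [Matrix.trace, Matrix.diag, RingHom.mapMatrix_apply, Matrix.map_apply, h3, hd,
    map_zero, sum_const_zero, sum_const, card_univ, Fintype.card_fin, map_ofNat] at t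
  exact not5 t

end Pool.Agent.P.MP_009630_co
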