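import Pool.Agent.P.MP_009630_co.Fold

set_option autoImplicit false

open Finset

namespace Pool.Agent.P.MP_009630_co

/-- `F j c - F j h`. -/
def U (h j : ℤ) : ℤ := if j ≤ 0 then -1 else if h + 1 ≤ j ∧ j ≤ 2 * h + 1 then 1 else 0

/-- `F (h + 1) k - F 0 k`. -/
def R (h k : ℤ) : ℤ := if k ≤ h then -1 else if 2 * h + 1 ≤ k ∧ k ≤ 3 * h + 1 then 1 else 0

theorem U1 {n h j : ℤ} (hn : 6 * h + 3 < n) (h0 : 0 ≤ h) (h1 : -h ≤ j) (h2 : j < n - h) :
    F n (2 * h + 1) j (2 * h + 1) - F n (2 * h + 1) j h = U h j := by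
  unfold F U; split_ifs <;> omega

theorem U2 {n h j : ℤ} (hn : 6 * h + 3 < n) (h0 : 0 ≤ h) (h1 : -h ≤ j) (h2 : j < n - h) :
    F n (2 * h + 1) j (n - 1 - (2 * h + 1)) - F n (2 * h + 1) j (n - 1 - h) =
      U h (n - (2 * h + 1) - j) := by
  unfold F U; split_ifs <;> omega

theorem R1 {n h k : ℤ} (hn : 6 * h + 3 < n) (h0 : 0 ≤ h) (h1 : 0 ≤ k) (h2 : k < n) :
    F n (2 * h + 1) (h + 1) k - F n (2 * h + 1) 0 k = R h k := by
  unfold F R; split_ifs <;> omega

theorem R2 {n h k : ℤ} (hn : 6 * h + 3 < n) (h0 : 0 ≤ h) (h1 : 0 ≤ k) (h2 : k < n) :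
    F n (2 * h + 1) (n - (2 * h + 1) - (h + 1)) k - F n (2 * h + 1) (n - (2 * h + 1)) k =
      R h (n - 1 - k) := by
  unfold F R; split_ifs <;> omega

/-- The entry after both switchings, without the four corrected rows. -/
def E (n h j k : ℤ) : ℤ :=
  F n (2 * h + 1) j k - U h j * R h k - U h (n - (2 * h + 1) - j) * R h (n - 1 - k)

theorem E01 {n h j k : ℤ} (hn : 6 * h + 3 < n) (h0 : 0 ≤ h) (h1 : -h ≤ j) (h2 : j < n - h)
    (h3 : 0 ≤ k) (h4 : k < n) : E n h j k = 0 ∨ E n h j k = 1 := by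
  unfold E
  by_cases c1 : j ≤ 0
  · have e1 : U h j = -1 := by unfold U; split_ifs <;> omega
    have e2 : U h (n - (2 * h + 1) - j) = 0 := by unfold U; split_ifs <;> omega
    rw [e1, e2]; unfold F R; split_ifs <;> omega
  by_cases c2 : h + 1 ≤ j ∧ j ≤ 2 * h + 1
  · have e1 : U h j = 1 := by unfold U; split_ifs <;> omega
    have e2 : U h (n - (2 * h + 1) - j) = 0 := by unfold U; split_ifs <;> omega
    rw [e1, e2]; unfold F R; split_ifs <;> omega
  have e1 : U h j = 0 := by unfold U; split_ifs <;> omega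
  by_cases c3 : n - (2 * h + 1) - j ≤ 0
  · have e2 : U h (n - (2 * h + 1) - j) = -1 := by unfold U; split_ifs <;> omega
    rw [e1, e2]; unfold F R; split_ifs <;> omega
  by_cases c4 : h + 1 ≤ n - (2 * h + 1) - j ∧ n - (2 * h + 1) - j ≤ 2 * h + 1
  · have e2 : U h (n - (2 * h + 1) - j) = 1 := by unfold U; split_ifs <;> omega
    rw [e1, e2]; unfold F R; split_ifs <;> omega
  have e2 : U h (n - (2 * h + 1) - j) = 0 := by unfold U; split_ifs <;> omega
  rw [e1, e2]; unfold F; split_ifs <;> omega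

theorem U_neg {h j : ℤ} (hj : j ≤ 0) : U h j = -1 := by unfold U; rw [if_pos hj]

theorem U_zero {h j : ℤ} (h0 : 0 ≤ h) (hj : 2 * h + 1 < j) : U h j = 0 := by
  unfold U; rw [if_neg (by omega), if_neg (by omega)]

theorem R_neg {h k : ℤ} (hk : k ≤ h) : R h k = -1 := by unfold R; rw [if_pos hk]

theorem R_zero {h k : ℤ} (h0 : 0 ≤ h) (hk : 3 * h + 1 < k) : R h k = 0 := by
  unfold R; rw [if_neg (by omega), if_neg (by omega)]

theorem E_val {n h : ℤ} (hn : 6 * h + 3 < n) (h0 : 2 ≤ h) :
    E n h (-1) (n - h) = 0 ∧ E n h (-1) 0 = 1 ∧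
    E n h (n - h - 1) (n - h) = 1 ∧ E n h (n - h - 1) 0 = 0 ∧
    E n h (n - 2 * h) (h - 1) = 0 ∧ E n h (n - 2 * h) (n - 1) = 1 ∧
    E n h (-h) (h - 1) = 1 ∧ E n h (-h) (n - 1) = 0 := by
  have a : 0 ≤ h := by omega
  refine ⟨?_, ?_, ?_, ?_, ?_, ?_, ?_, ?_⟩
  · unfold E
    rw [U_neg (by omega), U_zero a (by omega), R_zero a (by omega)]
    unfold F; split_ifs <;> omega
  · unfold E
    rw [U_neg (by omega), U_zero a (by omega), R_neg (by omega)]
    unfold F; split_ifs <;> omega
  · unfold E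
    rw [U_zero a (by omega), U_neg (by omega), R_neg (k := n - 1 - (n - h)) (by omega)]
    unfold F; split_ifs <;> omega
  · unfold E
    rw [U_zero a (by omega), U_neg (by omega), R_zero (k := n - 1 - 0) a (by omega)]
    unfold F; split_ifs <;> omega
  · unfold E
    rw [U_zero a (by omega), U_neg (by omega), R_zero (k := n - 1 - (h - 1)) a (by omega)]
    unfold F; split_ifs <;> omega
  · unfold E
    rw [U_zero a (by omega), U_neg (by omega), R_neg (k := n - 1 - (n - 1)) (by omega)]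
    unfold F; split_ifs <;> omega
  · unfold E
    rw [U_neg (by omega), U_zero a (by omega), R_neg (by omega)]
    unfold F; split_ifs <;> omega
  · unfold E
    rw [U_neg (by omega), U_zero a (by omega), R_zero a (by omega)]
    unfold F; split_ifs <;> omega

theorem sol_sparse {n h u : ℕ} (hl : (2 * h + 1) * (2 * h + 1) + 1 = u * (n + n))
    (hn : 6 * h + 3 < n) : Sol n (2 * h + 1) (-1) (2 * u) := by
  obtain ⟨N, hN⟩ : ∃ N, n + n = N := ⟨_, rfl⟩
  obtain ⟨c, hc⟩ : ∃ c, c = 2 * h + 1 := ⟨_, rfl⟩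
  have hu0 : 0 < u := by
    rcases Nat.eq_zero_or_pos u with rfl | h0
    · simp at hl
    · exact h0
  have h2 : 2 ≤ h := by
    by_contra hlt
    have : n + n ≤ u * (n + n) := Nat.le_mul_of_pos_left _ hu0
    have h1 : h = 0 ∨ h = 1 := by omega
    rcases h1 with rfl | rfl <;> omega
  have hun : u * n = 2 * (h * h) + 2 * h + 1 := by nlinarith
  obtain ⟨v, hv⟩ : ∃ v, u = 2 * v + 1 := by
    rcases Nat.even_or_odd' u with ⟨v, hv | hv⟩
    · exfalso
      rw [hv, mul_assoc] at hun
      omega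
    · exact ⟨v, hv⟩
  have : NeZero N := ⟨by omega⟩
  have hl' : c * c + 1 = u * N := by rw [hc, ← hN]; exact hl
  have hcn : c < n := by omega
  have G0 := good_A0 hN hl'
  have zN : (n : ZMod N) + n = 0 := by
    have : ((n + n : ℕ) : ZMod N) = 0 := by rw [hN]; exact ZMod.natCast_self _
    exact_mod_cast this
  have zc : (c : ZMod N) = 2 * h + 1 := by rw [hc]; push_cast; ring
  have zh : (2 * (h * h) + 2 * h + 1 : ZMod N) = n := by
    have : ((u * n : ℕ) : ZMod N) = ((2 * (h * h) + 2 * h + 1 : ℕ) : ZMod N) := by rw [hun]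
    rw [hv] at this
    push_cast at this
    linear_combination -this + v * zN
  have cZ : (c : ℤ) = 2 * h + 1 := by rw [hc]; push_cast; ring
  have hnZ : 6 * (h : ℤ) + 3 < n := by exact_mod_cast hn
  have h0Z : (0 : ℤ) ≤ h := by positivity
  have row : ∀ (i : ℕ) (j : ℤ), (c : ZMod N) * i = j → -(h : ℤ) ≤ j → j < n - h → ∀ k < n,
      A0 N c i k = F n (2 * h + 1) j k := by
    intro i j e a b k hk
    unfold A0
    rw [e, gf_eq hN hc hcn a b hk, cZ]
  have cs : ∀ a b : ℕ, b ≤ a → ((a - b : ℕ) : ZMod N) = a - b := fun a b hab => Nat.cast_sub hab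
  have r0 := row 0 0 (by simp) (by omega) (by omega)
  have rx := row (n - h) (h + 1) (by
    rw [cs _ _ (by omega), zc]; push_cast; linear_combination (h : ZMod N) * zN - zh)
    (by omega) (by omega)
  have ry2 := row (n - 1) (n - (2 * h + 1)) (by
    rw [cs _ _ (by omega), zc]; push_cast; linear_combination (h : ZMod N) * zN)
    (by omega) (by omega)
  have rx2 := row (h - 1) (n - (2 * h + 1) - (h + 1)) (by
    rw [cs _ _ (by omega), zc]; push_cast; linear_combination zh)
    (by omega) (by omega)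
  have ra := row c (-1) (by
    rw [zc]; push_cast; linear_combination 2 * zh + zN) (by omega) (by omega)
  have rb := row h (n - h - 1) (by
    rw [zc]; push_cast; linear_combination zh) (by omega) (by omega)
  have ra2 := row (n - 1 - c) (n - 2 * h) (by
    rw [cs _ _ (by omega), cs _ _ (by omega), zc]; push_cast
    linear_combination ((h : ZMod N) - 1) * zN - 2 * zh) (by omega) (by omega)
  have rb2 := row (n - 1 - h) (-h) (by
    rw [cs _ _ (by omega), cs _ _ (by omega), zc]; push_cast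
    linear_combination (h : ZMod N) * zN - zh) (by omega) (by omega)
  -- the first switching
  have f1 : ∀ (i : ℕ) (j : ℤ), -(h : ℤ) ≤ j → j < n - h →
      (∀ k < n, A0 N c i k = F n (2 * h + 1) j k) → ∀ k < n,
      sw (A0 N c) c h (n - h) 0 i k =
        F n (2 * h + 1) j k - U h j * R h k + dl c h i * dl (n - h) 0 k := by
    intro i j a b hi k hk
    unfold sw
    rw [hi k hk, hi c hcn, hi h (by omega), rx k hk, r0 k hk, cZ, U1 hnZ h0Z a b,
      R1 hnZ h0Z (by omega) (by omega)]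
  have G1 : Good n c (2 * u) (sw (A0 N c) c h (n - h) 0) := by
    refine good_sw G0 hcn (by omega) (by omega) (by omega) ?_ ?_
    · unfold dl; split_ifs <;> omega
    · rw [rx c hcn, rx h (by omega), r0 c hcn, r0 h (by omega), cZ,
        U1 hnZ h0Z (by omega) (by omega), U1 hnZ h0Z (by omega) (by omega)]
      unfold U; split_ifs <;> omega
  have ca : ((n - 1 - c : ℕ) : ℤ) = n - 1 - (2 * h + 1) := by omega
  have cb : ((n - 1 - h : ℕ) : ℤ) = n - 1 - h := by omega
  have u2 : ∀ (i : ℕ) (j : ℤ), -(h : ℤ) ≤ j → j < n - h →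
      (∀ k < n, A0 N c i k = F n (2 * h + 1) j k) →
      sw (A0 N c) c h (n - h) 0 i (n - 1 - c) - sw (A0 N c) c h (n - h) 0 i (n - 1 - h) =
        U h (n - (2 * h + 1) - j) := by
    intro i j a b hi
    have d1 : dl (n - h) 0 (n - 1 - c) = 0 := by unfold dl; split_ifs <;> omega
    have d2 : dl (n - h) 0 (n - 1 - h) = 0 := by unfold dl; split_ifs <;> omega
    rw [f1 i j a b hi _ (by omega), f1 i j a b hi _ (by omega), ca, cb, d1, d2,
      R_zero h0Z (by omega), R_zero h0Z (by omega), ← U2 hnZ h0Z a b]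
    ring
  have r2 : ∀ k < n, sw (A0 N c) c h (n - h) 0 (h - 1) k - sw (A0 N c) c h (n - h) 0 (n - 1) k =
      R h (n - 1 - k) := by
    intro k hk
    have d1 : dl c h (h - 1) = 0 := by unfold dl; split_ifs <;> omega
    have d2 : dl c h (n - 1) = 0 := by unfold dl; split_ifs <;> omega
    rw [f1 _ _ (by omega) (by omega) rx2 k hk, f1 _ _ (by omega) (by omega) ry2 k hk, d1, d2,
      U_zero h0Z (by omega), U_zero h0Z (by omega), ← R2 hnZ h0Z (by omega) (by omega)]
    ring
  have G2 : Good n c (2 * u)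
      (sw (sw (A0 N c) c h (n - h) 0) (n - 1 - c) (n - 1 - h) (h - 1) (n - 1)) := by
    refine good_sw G1 (by omega) (by omega) (by omega) (by omega) ?_ ?_
    · unfold dl; split_ifs <;> omega
    · rw [u2 _ _ (by omega) (by omega) rx2, u2 _ _ (by omega) (by omega) ry2]
      unfold U; split_ifs <;> omega
  have f2 : ∀ (i : ℕ) (j : ℤ), -(h : ℤ) ≤ j → j < n - h →
      (∀ k < n, A0 N c i k = F n (2 * h + 1) j k) → ∀ k < n,
      sw (sw (A0 N c) c h (n - h) 0) (n - 1 - c) (n - 1 - h) (h - 1) (n - 1) i k =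
        E n h j k + dl c h i * dl (n - h) 0 k
          + dl (n - 1 - c) (n - 1 - h) i * dl (h - 1) (n - 1) k := by
    intro i j a b hi k hk
    rw [sw, u2 i j a b hi, r2 k hk, f1 i j a b hi k hk, E]
    ring
  have hs := sol_of_good G2 (by omega) (fun i hi k hk => ?_)
  · rw [cZ] at hs; exact hs
  obtain ⟨v1, v2, v3, v4, v5, v6, v7, v8⟩ := E_val hnZ (by omega)
  have k0 : (0 : ℤ) ≤ k := by positivity
  have kn : (k : ℤ) < n := by omega
  by_cases i1 : i = c
  · subst i1
    have e := E01 hnZ h0Z (j := -1) (by omega) (by omega) k0 kn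
    rw [f2 _ _ (by omega) (by omega) ra k hk]
    have d1 : dl i h i = 1 := by unfold dl; split_ifs <;> omega
    have d2 : dl (n - 1 - i) (n - 1 - h) i = 0 := by unfold dl; split_ifs <;> omega
    rw [d1, d2, zero_mul]
    unfold dl
    split_ifs with p q q
    · omega
    · rw [show (k : ℤ) = n - h by omega, v1]; simp
    · rw [show (k : ℤ) = 0 by omega, v2]; simp
    · simpa using e
  by_cases i2 : i = h
  · subst i2
    have e := E01 hnZ h0Z (j := n - i - 1) (by omega) (by omega) k0 kn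
    rw [f2 _ _ (by omega) (by omega) rb k hk]
    have d1 : dl c i i = -1 := by unfold dl; split_ifs <;> omega
    have d2 : dl (n - 1 - c) (n - 1 - i) i = 0 := by unfold dl; split_ifs <;> omega
    rw [d1, d2, zero_mul]
    unfold dl
    split_ifs with p q q
    · omega
    · rw [show (k : ℤ) = n - i by omega, v3]; simp
    · rw [show (k : ℤ) = 0 by omega, v4]; simp
    · simpa using e
  have d1 : dl c h i = 0 := by unfold dl; rw [if_neg i1, if_neg i2]; rfl
  by_cases i3 : i = n - 1 - c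
  · have e := E01 hnZ h0Z (j := n - 2 * h) (by omega) (by omega) k0 kn
    rw [← i3] at ra2
    rw [f2 _ _ (by omega) (by omega) ra2 k hk]
    have d2 : dl (n - 1 - c) (n - 1 - h) i = 1 := by unfold dl; split_ifs <;> omega
    rw [d1, d2, zero_mul]
    unfold dl
    split_ifs with p q q
    · omega
    · rw [show (k : ℤ) = h - 1 by omega, v5]; simp
    · rw [show (k : ℤ) = n - 1 by omega, v6]; simp
    · simpa using e
  by_cases i4 : i = n - 1 - h
  · have e := E01 hnZ h0Z (j := -h) (by omega) (by omega) k0 kn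
    rw [← i4] at rb2
    rw [f2 _ _ (by omega) (by omega) rb2 k hk]
    have d2 : dl (n - 1 - c) (n - 1 - h) i = -1 := by unfold dl; split_ifs <;> omega
    rw [d1, d2, zero_mul]
    unfold dl
    split_ifs with p q q
    · omega
    · rw [show (k : ℤ) = h - 1 by omega, v7]; simp
    · rw [show (k : ℤ) = n - 1 by omega, v8]; simp
    · simpa using e
  have d2 : dl (n - 1 - c) (n - 1 - h) i = 0 := by unfold dl; rw [if_neg i3, if_neg i4]; rfl
  obtain ⟨j, a, b, hj⟩ := exists_start hN hc hcn ((c : ZMod N) * i)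
  rw [cZ] at hj
  rw [f2 i j a b hj k hk, d1, d2]
  simpa using E01 hnZ h0Z a b k0 kn

end Pool.Agent.P.MP_009630_co
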