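import Mathlib

set_option autoImplicit false

open Finset

namespace Pool.Agent.P.MP_009630_co

/-- Row sums `c` and square `l J - I`, on the indices below `n`. -/
def Good (n : ℕ) (c l : ℤ) (A : ℕ → ℕ → ℤ) : Prop :=
  (∀ i < n, ∑ j ∈ range n, A i j = c) ∧
    ∀ i < n, ∀ k < n, ∑ j ∈ range n, A i j * A j k = l - if i = k then 1 else 0

/-- The vector `e_a - e_b`. -/
def dl (a b i : ℕ) : ℤ := (if i = a then 1 else 0) - (if i = b then 1 else 0)

/-- The switching `A - (A s) (w A) + s w` for `s = e_a - e_b`, `w = e_x - e_y`. -/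
def sw (A : ℕ → ℕ → ℤ) (a b x y : ℕ) (i k : ℕ) : ℤ :=
  A i k - (A i a - A i b) * (A x k - A y k) + dl a b i * dl x y k

theorem sum_mul_dl {n a b : ℕ} (ha : a < n) (hb : b < n) (f : ℕ → ℤ) :
    ∑ j ∈ range n, f j * dl a b j = f a - f b := by
  simp only [dl, mul_sub, mul_ite, mul_one, mul_zero, sum_sub_distrib, sum_ite_eq', mem_range,
    ha, hb, if_true]

theorem good_sw {n : ℕ} {c l : ℤ} {A : ℕ → ℕ → ℤ} (hA : Good n c l A) {a b x y : ℕ}
    (ha : a < n) (hb : b < n) (hx : x < n) (hy : y < n)
    (h0 : dl a b x - dl a b y = 0) (h2 : A x a - A x b - (A y a - A y b) = 2) :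
    Good n c l (sw A a b x y) := by
  obtain ⟨hr, hs⟩ := hA
  constructor
  · intro i hi
    have e1 : ∑ j ∈ range n, dl x y j = 0 := by
      have := sum_mul_dl hx hy (fun _ => 1)
      simpa using this
    simp only [sw, sum_add_distrib, sum_sub_distrib, ← mul_sum, hr i hi, hr x hx, hr y hy, e1]
    ring
  · intro i hi k hk
    have t1 : ∀ i < n, ∑ j ∈ range n, A i j * (A j a - A j b) = -dl a b i := by
      intro i hi
      simp only [mul_sub, sum_sub_distrib, hs i hi a ha, hs i hi b hb, dl]
      ring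
    have t2 : ∑ j ∈ range n, (A x j - A y j) * A j k = -dl x y k := by
      simp only [sub_mul, sum_sub_distrib, hs x hx k hk, hs y hy k hk, dl, eq_comm (a := k)]
      ring
    have t3 : ∑ j ∈ range n, A i j * dl a b j = A i a - A i b := sum_mul_dl ha hb _
    have t4 : ∑ j ∈ range n, dl x y j * A j k = A x k - A y k := by
      simp only [mul_comm (dl x y _)]
      exact sum_mul_dl hx hy (fun j => A j k)
    have t5 : ∑ j ∈ range n, (A x j - A y j) * (A j a - A j b) = 0 := by
      simp only [sub_mul, sum_sub_distrib, t1 x hx, t1 y hy]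
      linarith
    have t6 : ∑ j ∈ range n, (A x j - A y j) * dl a b j = 2 := by
      rw [sum_mul_dl ha hb (fun j => A x j - A y j)]
      linarith
    have t7 : ∑ j ∈ range n, dl x y j * (A j a - A j b) = 2 := by
      simp only [mul_comm (dl x y _)]
      rw [sum_mul_dl hx hy (fun j => A j a - A j b)]
      linarith
    have t8 : ∑ j ∈ range n, dl x y j * dl a b j = 0 := by
      simp only [mul_comm (dl x y _)]
      rw [sum_mul_dl hx hy (fun j => dl a b j)]
      linarith
    have e : ∀ j, sw A a b x y i j * sw A a b x y j k =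
        A i j * A j k - (A i j * (A j a - A j b)) * (A x k - A y k)
          + (A i j * dl a b j) * dl x y k
          - (A i a - A i b) * ((A x j - A y j) * A j k)
          + (A i a - A i b) * ((A x j - A y j) * (A j a - A j b)) * (A x k - A y k)
          - (A i a - A i b) * ((A x j - A y j) * dl a b j) * dl x y k
          + dl a b i * (dl x y j * A j k)
          - dl a b i * (dl x y j * (A j a - A j b)) * (A x k - A y k)
          + dl a b i * (dl x y j * dl a b j) * dl x y k := by
      intro j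
      simp only [sw]
      ring
    simp only [e, sum_add_distrib, sum_sub_distrib, ← mul_sum, ← sum_mul, t1 i hi, t2, t3, t4, t5,
      t6, t7, t8, hs i hi k hk]
    ring

/-- A solution of `A ^ 2 = d I + l J` with line sums `c`. -/
def Sol (n : ℕ) (c d l : ℤ) : Prop :=
  ∃ A : Matrix (Fin n) (Fin n) ℤ, (∀ i j, A i j = 0 ∨ A i j = 1) ∧ (∀ i, ∑ j, A i j = c) ∧
    (∀ j, ∑ i, A i j = c) ∧
    A * A = d • (1 : Matrix (Fin n) (Fin n) ℤ) + l • Matrix.of (fun _ _ => (1 : ℤ))

theorem sol_of_good {n : ℕ} {c l : ℤ} {A : ℕ → ℕ → ℤ} (hA : Good n c l A) (hl : l ≠ 0)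
    (h01 : ∀ i < n, ∀ k < n, A i k = 0 ∨ A i k = 1) : Sol n c (-1) l := by
  obtain ⟨hr, hs⟩ := hA
  have hcol : ∀ k < n, ∑ i ∈ range n, A i k = c := by
    intro k hk
    have e1 : ∑ j ∈ range n, (∑ m ∈ range n, A k m * A m j) * A j k =
        l * ∑ i ∈ range n, A i k - A k k := by
      rw [sum_congr rfl (fun j hj => by rw [hs k hk j (mem_range.1 hj)])]
      simp only [sub_mul, sum_sub_distrib, ← mul_sum, ite_mul, one_mul, zero_mul, sum_ite_eq,
        mem_range, hk, if_true]
    have e2 : ∑ m ∈ range n, A k m * ∑ j ∈ range n, A m j * A j k = l * c - A k k := by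
      rw [sum_congr rfl (fun m hm => by rw [hs m (mem_range.1 hm) k hk])]
      simp only [mul_sub, sum_sub_distrib, ← sum_mul, hr k hk, mul_ite, mul_one, mul_zero,
        sum_ite_eq', mem_range, hk, if_true]
      ring
    have e3 : ∑ j ∈ range n, (∑ m ∈ range n, A k m * A m j) * A j k =
        ∑ m ∈ range n, A k m * ∑ j ∈ range n, A m j * A j k := by
      simp only [sum_mul, mul_sum, mul_assoc]
      exact sum_comm
    have e4 : l * ∑ i ∈ range n, A i k = l * c := by linarith
    exact mul_left_cancel₀ hl e4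
  refine ⟨Matrix.of fun i k => A i k, fun i k => h01 i i.2 k k.2, fun i => ?_, fun k => ?_, ?_⟩
  · simp only [Matrix.of_apply]
    rw [Fin.sum_univ_eq_sum_range (fun j => A i j)]
    exact hr i i.2
  · simp only [Matrix.of_apply]
    rw [Fin.sum_univ_eq_sum_range (fun j => A j k)]
    exact hcol k k.2
  · ext i k
    simp only [Matrix.mul_apply, Matrix.of_apply, Matrix.add_apply, Matrix.smul_apply,
      Matrix.one_apply, smul_eq_mul, mul_one, Fin.ext_iff]
    rw [Fin.sum_univ_eq_sum_range (fun j => A i j * A j k), hs i i.2 k k.2]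
    split_ifs <;> ring

theorem sol_compl {n : ℕ} {c d l : ℤ} (h : Sol n c d l) : Sol n (n - c) d (n - 2 * c + l) := by
  obtain ⟨A, h01, hr, hc, hs⟩ := h
  refine ⟨Matrix.of fun i k => 1 - A i k, fun i k => ?_, fun i => ?_, fun k => ?_, ?_⟩
  · rcases h01 i k with h | h <;> simp [h]
  · simp [sum_sub_distrib, hr i]
  · simp [sum_sub_distrib, hc k]
  · ext i k
    have := congrFun (congrFun hs i) k
    simp only [Matrix.mul_apply, Matrix.of_apply, Matrix.add_apply, Matrix.smul_apply,
      smul_eq_mul, mul_one] at this ⊢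
    have e : ∀ j, (1 - A i j) * (1 - A j k) = 1 - A i j - A j k + A i j * A j k := by
      intro j; ring
    simp only [e, sum_add_distrib, sum_sub_distrib, hr i, hc k, this, sum_const, card_univ,
      Fintype.card_fin, nsmul_eq_mul, mul_one]
    ring

end Pool.Agent.P.MP_009630_co
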