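import Pool.Agent.P.MP_009630_co.Cmp

set_option autoImplicit false

namespace Pool.Agent.P.MP_009630_co

/-- A value of the linear map. -/
def wGL (n : ℕ) (p tp m c i j : ℤ) : V n :=
  pt n (p + tp + 1 + (m - 1 - j) + (m - 1 - i) * c) - pt n (tp + (m - 1 - i) * c)
    - pt n (2 * tp + 1 - p + ((m - 1 - i) + 1) * c) + (pt n (tp + (m - 1) * c) - pt n p)
    + (pt n p + pt n (n - p)) + pt n (p - tp + m - 1 - j) - pt n (n - p - 3 * tp - 2 - j)

/-- A value of the linear map. -/
def wGU (n : ℕ) (p tp m c i j : ℤ) : V n :=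
  -pt n (p + tp + 1 + (m - 1 - j) + (m - 1 - i) * c) + (pt n p + pt n (n - p) - pt n (p + j))
    + pt n (n - tp + m - (j + 1)) - (pt n p + pt n (n - p) - pt n (p + (m - 1)) - (pt n p
    + pt n (n - p) - pt n (n - tp))) + pt n (p + tp + 1 + m + (m - 1 - i) * c)
    - pt n (p + tp + 2 * m + (m - 1 - i) * c)

/-- A value of the linear map. -/
def wGP (n : ℕ) (p tp m c j : ℤ) : V n :=
  wGU n p tp m c (m - j) j - (pt n (2 * tp + 1 - p + (j + 1) * c)
    - pt n (2 * tp + 1 - p + j * c) - pt n (p + j + j * c + 1) + pt n (p + j + j * c))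
    - (pt n (p + tp + 1 + (m - j) + (j - 1) * c)
    - pt n (p + tp + 1 + (m - 1 - j) + (j - 1) * c))

/-- A value of the linear map. -/
def wGS (n : ℕ) (p tp m c j : ℤ) : V n :=
  wGL n p tp m c (m - 1 - j) (j - 1) - (pt n (n - tp + m - (j + 1)) - pt n (n - tp + m - j)
    - pt n (tp + j * c - j + c) + pt n (tp + j * c - j)) - (pt n (p + tp + 1 + (m - j) + j * c)
    - pt n (p + tp + 1 + (m - 1 - j) + j * c))

/-- A value of the linear map. -/
def wKL (n : ℕ) (p tp m c i j : ℤ) : V n :=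
  pt n (p + tp + 1 + (m - 1 - j) + (m - 1 - i) * c) - pt n (p + (m - 1 - i) * c)
    - pt n (2 * p + (m - 1 - i) * c) + (pt n (2 * tp + 1 + p + (m - 1) * c) - pt n (n - p))
    + (pt n p + pt n (n - p)) + pt n (p - tp + m - 1 - j) - pt n (tp + m - j)

/-- A value of the linear map. -/
def wKU (n : ℕ) (p tp m c i j : ℤ) : V n :=
  -pt n (p + tp + 1 + (m - 1 - j) + (m - 1 - i) * c) + pt n (tp - j) + pt n (2 * tp - j)
    - (pt n (tp + m - (m - 1)) - pt n (n - tp)) + pt n (p + tp + 1 + m + (m - 1 - i) * c)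
    - pt n (2 * tp + 1 + p + (m - 1 - i) * c)

/-- A value of the linear map. -/
def wKP (n : ℕ) (p tp m c j : ℤ) : V n :=
  wKU n p tp m c (m - j) j - (pt n (2 * tp + 1 + p + ((j + 1) - 1) * c)
    - pt n (2 * tp + 1 + p + (j - 1) * c) - pt n (p + j + j * c + 1) + pt n (p + j + j * c))
    - (pt n (p + tp + 1 + (m - j) + (j - 1) * c)
    - pt n (p + tp + 1 + (m - 1 - j) + (j - 1) * c))

/-- A value of the linear map. -/
def wKS (n : ℕ) (p tp m c j : ℤ) : V n :=
  wKL n p tp m c (m - 1 - j) (j - 1) - (pt n (tp + m - ((j + 1) - 1))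
    - pt n (tp + m - (j - 1)) - pt n (tp + j * c - j + c) + pt n (tp + j * c - j))
    - (pt n (p + tp + 1 + (m - j) + j * c) - pt n (p + tp + 1 + (m - 1 - j) + j * c))

/-- A value of the linear map. -/
def wEG (n : ℕ) (h U m c i j : ℤ) : V n :=
  pt n (2 * h - m - U - 1 + i * c) + pt n (2 * h - m - U + m + i * c) + pt n (n - 1 - h)
    - pt n (2 * h - m - U + m + (m - 1) * c) - pt n (2 * h - m - U + j + i * c)
    - pt n (n - U - m + j) + pt n (n - h + 1 + j)

/-- A value of the linear map. -/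
def wEL (n : ℕ) (h U m c i j : ℤ) : V n :=
  pt n (2 * h - m - U + j + i * c) - pt n (2 * h - m - U + m + i * c) + pt n (h + c + i * c)
    + pt n (n - h) - pt n (U + j) - pt n (n - U - m + j) + pt n (n - U - m + (m - 1))

/-- A value of the linear map. -/
def wET (n : ℕ) (h U m c : ℤ) : V n :=
  pt n h + pt n (n - 1 - h) - pt n (h - 1) + pt n (h + c + (m - 2) * c)
    - pt n (2 * h - m - U + m + (m - 1) * c)

/-- A value of the linear map. -/
def wEO (n : ℕ) (h U m c : ℤ) : V n :=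
  pt n (2 * h - m - U + (m - 1) + (m - 1) * c) - pt n (n - h + 1 + (m - 2))
    + pt n (n - U - m + (m - 1))

/-- A value of the linear map. -/
def wEP (n : ℕ) (h U m c j : ℤ) : V n :=
  wEG n h U m c (j + 1) j - (pt n (2 * h - m - U - 1 + (j + 1) * c)
    - pt n (2 * h - m - U - 1 + j * c) - pt n (U + j + j * c + c + 1)
    + pt n (U + j + j * c + c)) - (pt n (2 * h - m - U + (j + 1) + (j + 1) * c)
    - pt n (2 * h - m - U + j + (j + 1) * c))

/-- A value of the linear map. -/
def wES (n : ℕ) (h U m c j : ℤ) : V n :=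
  wEL n h U m c j (j + 1) - (pt n h + pt n (n - 1 - h) - pt n (U + (j + 1)) - (pt n h
    + pt n (n - 1 - h) - pt n (U + j)) - pt n (2 * h - m - U - 2 - j + j * c + c)
    + pt n (2 * h - m - U - 2 - j + j * c)) - (pt n (2 * h - m - U + (j + 1) + j * c)
    - pt n (2 * h - m - U + j + j * c))

end Pool.Agent.P.MP_009630_co
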